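import Mathlib

set_option autoImplicit false

namespace Pool.Agent.Lib.MP_d6d0a6_lc

variable {A : Type} [DecidableEq A]

/-- Lengths of the blocks strictly between consecutive occurrences of `d`. -/
def go (d : A) : Option ℕ → List A → List ℕ
  | _, [] => []
  | none, a :: w => if a = d then go d (some 0) w else go d none w
  | some n, a :: w => if a = d then n :: go d (some 0) w else go d (some (n + 1)) w

theorem go_cross (d : A) (q : List A) : ∀ s : Option ℕ,
    ∃ c : List ℕ, c.length ≤ 1 ∧ go d s q = c ++ go d none q := by
  induction q with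
  | nil => intro s; exact ⟨[], by simp, by cases s <;> simp [go]⟩
  | cons a w ih =>
    intro s
    cases s with
    | none => exact ⟨[], by simp, by simp⟩
    | some n =>
      by_cases h : a = d
      · exact ⟨[n], by simp, by simp [go, h]⟩
      · obtain ⟨c, hc, hc2⟩ := ih (some (n + 1))
        exact ⟨c, hc, by simp [go, h, hc2]⟩

theorem go_append (d : A) (p q : List A) : ∀ s : Option ℕ,
    ∃ s' : Option ℕ, go d s (p ++ q) = go d s p ++ go d s' q := by
  induction p with
  | nil => intro s; exact ⟨s, by cases s <;> simp [go]⟩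
  | cons a w ih =>
    intro s
    cases s with
    | none =>
      by_cases h : a = d
      · obtain ⟨s', hs'⟩ := ih (some 0)
        exact ⟨s', by simp [go, h, hs']⟩
      · obtain ⟨s', hs'⟩ := ih none
        exact ⟨s', by simp [go, h, hs']⟩
    | some n =>
      by_cases h : a = d
      · obtain ⟨s', hs'⟩ := ih (some 0)
        exact ⟨s', by simp [go, h, hs']⟩
      · obtain ⟨s', hs'⟩ := ih (some (n + 1))
        exact ⟨s', by simp [go, h, hs']⟩

theorem go_cut (d : A) (ρ : ℕ → List A) (R : List ℕ) :
    ∃ C : List ℕ, C.length ≤ R.length ∧ ∀ I : ℕ → Bool, (∀ x ∈ C, I x = false) →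
      (go d none (R.flatMap ρ)).filter I = R.flatMap (fun v => (go d none (ρ v)).filter I) := by
  induction R with
  | nil => exact ⟨[], by simp, by simp [go]⟩
  | cons v R ih =>
    obtain ⟨C, hC, hI⟩ := ih
    obtain ⟨s', hs'⟩ := go_append d (ρ v) (R.flatMap ρ) none
    obtain ⟨c, hc, hc2⟩ := go_cross d (R.flatMap ρ) s'
    refine ⟨c ++ C, by simp; omega, ?_⟩
    intro I hIc
    have h1 : c.filter I = [] := by
      rw [List.filter_eq_nil_iff]
      intro x hx
      simp [hIc x (List.mem_append_left _ hx)]
    rw [List.flatMap_cons, hs', hc2, List.filter_append, List.filter_append, h1,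
      hI I (fun x hx => hIc x (List.mem_append_right _ hx))]
    simp

/-- The word `e^{i₁} d e^{i₂} d ⋯`. -/
def enc (d e : A) (l : List ℕ) : List A := l.flatMap (fun i => List.replicate i e ++ [d])

theorem go_some_rep (d e : A) (hde : e ≠ d) (r : List A) (i : ℕ) : ∀ n : ℕ,
    go d (some n) (List.replicate i e ++ d :: r) = (n + i) :: go d (some 0) r := by
  induction i with
  | zero => intro n; simp [go]
  | succ i ih =>
    intro n
    simp only [List.replicate_succ, List.cons_append, go, hde, if_false]
    rw [ih]; congr 1; omega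

theorem go_enc (d e : A) (hde : e ≠ d) (l : List ℕ) : go d (some 0) (enc d e l) = l := by
  induction l with
  | nil => simp [enc, go]
  | cons i l ih =>
    have : enc d e (i :: l) = List.replicate i e ++ d :: enc d e l := by simp [enc]
    rw [this, go_some_rep d e hde, ih]; simp

theorem go_enc_zero (d e : A) (hde : e ≠ d) (l : List ℕ) :
    go d none (enc d e (0 :: l)) = l := by
  have : enc d e (0 :: l) = d :: enc d e l := by simp [enc]
  rw [this]; simp [go, go_enc d e hde]

theorem exists_avoid (C : List ℕ) (s n : ℕ) (h : C.length < n) :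
    ∃ i, s ≤ i ∧ i < s + n ∧ i ∉ C := by
  by_contra hcon
  push Not at hcon
  have hsub : List.range' s n ⊆ C := by
    intro x hx
    rw [List.mem_range'_1] at hx
    exact hcon x hx.1 hx.2
  have := (List.subperm_of_subset (List.nodup_range' (s := s) (n := n)) hsub).length_le
  simp at this; omega

theorem filter_range' (I : ℕ → Bool) (s n i : ℕ) (h1 : s ≤ i) (h2 : i < s + n)
    (hI : ∀ x, s ≤ x → x < s + n → (I x = true ↔ x = i)) :
    (List.range' s n).filter I = [i] := by
  have : (List.range' s n).filter I = (List.range' s n).filter (· == i) := by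
    apply List.filter_congr
    intro x hx
    rw [List.mem_range'_1] at hx
    have := hI x hx.1 hx.2
    by_cases hxi : x = i
    · rw [this.2 hxi]; simp [hxi]
    · have h3 : I x = false := by
        cases hx' : I x
        · rfl
        · exact absurd (this.1 hx') hxi
      simp [h3, hxi]
  rw [this, List.filter_beq, List.count_eq_one_of_mem (List.nodup_range' (s := s) (n := n))
    (by rw [List.mem_range'_1]; exact ⟨h1, h2⟩)]
  rfl

theorem three_squares (X Y Z : List ℕ) (i j k : ℕ) (hij : i ≠ j) (hjk : j ≠ k) (hik : i ≠ k)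
    (h : X ++ X ++ Y ++ Y ++ Z ++ Z = [i, i, j, j, k, k]) : X = [i] ∧ Y = [j] ∧ Z = [k] := by
  have hl := congrArg List.length h
  simp at hl
  rcases X with _ | ⟨x1, _ | ⟨x2, _ | ⟨x3, _ | ⟨x4, X⟩⟩⟩⟩ <;>
  rcases Y with _ | ⟨y1, _ | ⟨y2, _ | ⟨y3, _ | ⟨y4, Y⟩⟩⟩⟩ <;>
  rcases Z with _ | ⟨z1, _ | ⟨z2, _ | ⟨z3, _ | ⟨z4, Z⟩⟩⟩⟩ <;>
  simp at hl <;> (try omega) <;> simp at h <;> simp <;> omega

/-- The shape `x x y y z z`. -/
def sq3 {B : Type} (x y z : List B) : List B := x ++ x ++ y ++ y ++ z ++ z

theorem sq3_flatMap {B D : Type} (x y z : List B) (f : B → List D) :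
    (sq3 x y z).flatMap f = sq3 (x.flatMap f) (y.flatMap f) (z.flatMap f) := by
  simp [sq3, List.flatMap_append]

theorem count_two_le_length (P : List ℕ) (v : ℕ) (f : ℕ → List ℕ) :
    P.count v * (f v).length ≤ (P.flatMap f).length := by
  induction P with
  | nil => simp
  | cons a P ih =>
    by_cases h : a = v
    · subst h
      simp only [List.count_cons_self, List.flatMap_cons, List.length_append]
      nlinarith
    · rw [List.count_cons_of_ne h]
      simp only [List.flatMap_cons, List.length_append]
      omega

/-- If no variable of `P₁` is private to it, a word `x x y y z z` over `{d, e}` is missed. -/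
theorem core_missed (d e : A) (hde : e ≠ d) (P1 P2 P3 : List ℕ)
    (hP : ∀ v ∈ P1, 2 ≤ P1.count v ∨ v ∈ P2 ∨ v ∈ P3) :
    ∃ x y z : List A, (∀ a ∈ sq3 x y z, a = d ∨ a = e) ∧
      ∀ ρ : ℕ → List A, (sq3 P1 P2 P3).flatMap ρ ≠ sq3 x y z := by
  set n := (sq3 P1 P2 P3).length + 1 with hn
  refine ⟨enc d e (0 :: List.range' 1 n), enc d e (List.range' (n + 1) n),
    enc d e (List.range' (2 * n + 1) n), ?_, ?_⟩
  · have : ∀ l, ∀ a ∈ enc d e l, a = d ∨ a = e := by
      intro l a ha
      simp only [enc, List.mem_flatMap, List.mem_append, List.mem_replicate,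
        List.mem_singleton] at ha
      obtain ⟨i, _, h | h⟩ := ha
      · exact Or.inr h.2
      · exact Or.inl h
    intro a ha
    simp only [sq3, List.mem_append] at ha
    rcases ha with ((((h | h) | h) | h) | h) | h <;> exact this _ a h
  · intro ρ hρ
    obtain ⟨C, hC, hI⟩ := go_cut d ρ (sq3 P1 P2 P3)
    obtain ⟨i, hi1, hi2, hi3⟩ := exists_avoid C 1 n (by omega)
    obtain ⟨j, hj1, hj2, hj3⟩ := exists_avoid C (n + 1) n (by omega)
    obtain ⟨k, hk1, hk2, hk3⟩ := exists_avoid C (2 * n + 1) n (by omega)
    let I : ℕ → Bool := fun x => decide (x = i ∨ x = j ∨ x = k)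
    have h1 := hI I (by
      intro x hx
      simp only [I, decide_eq_false_iff_not]
      rintro (h | h | h)
      · exact hi3 (h ▸ hx)
      · exact hj3 (h ▸ hx)
      · exact hk3 (h ▸ hx))
    have henc : sq3 (enc d e (0 :: List.range' 1 n)) (enc d e (List.range' (n + 1) n))
        (enc d e (List.range' (2 * n + 1) n)) =
        enc d e (0 :: (List.range' 1 n ++ (0 :: List.range' 1 n) ++ List.range' (n + 1) n ++
          List.range' (n + 1) n ++ List.range' (2 * n + 1) n ++ List.range' (2 * n + 1) n)) := by
      simp [sq3, enc, List.flatMap_append]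
    have f1 : (List.range' 1 n).filter I = [i] :=
      filter_range' I 1 n i hi1 hi2 (by intro x h1 h2; simp only [I, decide_eq_true_eq]; omega)
    have f2 : (List.range' (n + 1) n).filter I = [j] :=
      filter_range' I _ n j hj1 hj2 (by intro x h1 h2; simp only [I, decide_eq_true_eq]; omega)
    have f3 : (List.range' (2 * n + 1) n).filter I = [k] :=
      filter_range' I _ n k hk1 hk2 (by intro x h1 h2; simp only [I, decide_eq_true_eq]; omega)
    have f0 : I 0 = false := by simp only [I, decide_eq_false_iff_not]; omega
    rw [hρ, henc, go_enc_zero d e hde, sq3_flatMap] at h1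
    simp only [List.filter_append, List.filter_cons, f0, f1, f2, f3] at h1
    obtain ⟨hX, hY, hZ⟩ := three_squares _ _ _ i j k (by omega) (by omega) (by omega)
      (by simpa [sq3] using h1.symm)
    have hiX : i ∈ P1.flatMap (fun v => (go d none (ρ v)).filter I) := by rw [hX]; simp
    obtain ⟨v, hv, hiv⟩ := List.mem_flatMap.1 hiX
    rcases hP v hv with h | h | h
    · have h2 := count_two_le_length P1 v (fun v => (go d none (ρ v)).filter I)
      rw [hX] at h2
      have h3 := List.length_pos_of_mem hiv
      simp only [List.length_singleton] at h2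
      nlinarith
    · have : i ∈ P2.flatMap (fun v => (go d none (ρ v)).filter I) :=
        List.mem_flatMap.2 ⟨v, h, hiv⟩
      rw [hY] at this; simp at this; omega
    · have : i ∈ P3.flatMap (fun v => (go d none (ρ v)).filter I) :=
        List.mem_flatMap.2 ⟨v, h, hiv⟩
      rw [hZ] at this; simp at this; omega

/-- Every word `x x y y z z` over `{d, e}` has a parse in which no letter is private to `x`. -/
theorem core_reparse (d e : A) (x y z : List A)
    (hb : ∀ a ∈ sq3 x y z, a = d ∨ a = e) :
    ∃ x' y' z' : List A, sq3 x' y' z' = sq3 x y z ∧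
      ∀ a ∈ x', 2 ≤ x'.count a ∨ a ∈ y' ∨ a ∈ z' := by
  by_cases h : ∀ a ∈ x, 2 ≤ x.count a ∨ a ∈ y ∨ a ∈ z
  · exact ⟨x, y, z, rfl, h⟩
  · push Not at h
    obtain ⟨a, hax, -, hay, haz⟩ := h
    have hb' : ∃ b, (∀ c ∈ y, c = b) ∧ (∀ c ∈ z, c = b) := by
      have ha := hb a (by simp [sq3, hax])
      rcases ha with ha | ha
      · refine ⟨e, fun c hc => ?_, fun c hc => ?_⟩
        · rcases hb c (by simp [sq3, hc]) with h | h
          · exact absurd (by rw [ha, ← h]; exact hc) hay
          · exact h
        · rcases hb c (by simp [sq3, hc]) with h | h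
          · exact absurd (by rw [ha, ← h]; exact hc) haz
          · exact h
      · refine ⟨d, fun c hc => ?_, fun c hc => ?_⟩
        · rcases hb c (by simp [sq3, hc]) with h | h
          · exact h
          · exact absurd (by rw [ha, ← h]; exact hc) hay
        · rcases hb c (by simp [sq3, hc]) with h | h
          · exact h
          · exact absurd (by rw [ha, ← h]; exact hc) haz
    obtain ⟨b, hy, hz⟩ := hb'
    have ey : y = List.replicate y.length b := List.eq_replicate_iff.2 ⟨rfl, hy⟩
    have ez : z = List.replicate z.length b := List.eq_replicate_iff.2 ⟨rfl, hz⟩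
    refine ⟨[], x, y ++ z, ?_, by simp⟩
    rw [ey, ez]
    simp only [sq3, List.nil_append, List.append_assoc, List.replicate_append_replicate]
    congr 3
    omega

/-- Any finite set of words `x x y y z z` over `{d, e}` is generated by a pattern
`P₁ P₁ P₂ P₂ P₃ P₃` with no variable private to `P₁`. -/
theorem core_cover (d e : A) (T : List (List A))
    (hT : ∀ q ∈ T, (∀ a ∈ q, a = d ∨ a = e) ∧ ∃ x y z, q = sq3 x y z) :
    ∃ P1 P2 P3 : List ℕ, (∀ v ∈ sq3 P1 P2 P3, v < 2 * T.length) ∧
      (∀ v ∈ P1, 2 ≤ P1.count v ∨ v ∈ P2 ∨ v ∈ P3) ∧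
      ∀ q ∈ T, ∃ ρ : ℕ → List A, q = (sq3 P1 P2 P3).flatMap ρ := by
  induction T with
  | nil => exact ⟨[], [], [], by simp [sq3], by simp, by simp⟩
  | cons q T ih =>
    obtain ⟨P1, P2, P3, hlt, hpriv, hcov⟩ := ih (fun q hq => hT q (List.mem_cons_of_mem _ hq))
    obtain ⟨hbin, x0, y0, z0, hq⟩ := hT q List.mem_cons_self
    obtain ⟨x, y, z, hxyz, hx⟩ := core_reparse d e x0 y0 z0 (hq ▸ hbin)
    rw [← hq] at hxyz
    set m := 2 * T.length with hm
    let c : A → ℕ := fun a => if a = d then m else m + 1
    have hc : ∀ a, m ≤ c a ∧ c a < m + 2 := by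
      intro a; simp only [c]; split_ifs <;> omega
    have l1 : ∀ v ∈ P1, v < m := fun v hv => hlt v (by simp [sq3, hv])
    have l2 : ∀ v ∈ P2, v < m := fun v hv => hlt v (by simp [sq3, hv])
    have l3 : ∀ v ∈ P3, v < m := fun v hv => hlt v (by simp [sq3, hv])
    refine ⟨P1 ++ x.map c, P2 ++ y.map c, P3 ++ z.map c, ?_, ?_, ?_⟩
    · have : ∀ (P : List ℕ) (w : List A), (∀ v ∈ P, v < m) → ∀ v ∈ P ++ w.map c, v < m + 2 := by
        intro P w hP v hv
        rcases List.mem_append.1 hv with h | h
        · have := hP v h; omega
        · obtain ⟨a, _, rfl⟩ := List.mem_map.1 h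
          exact (hc a).2
      intro v hv
      simp only [List.length_cons]
      have goal : v < m + 2 := by
        unfold sq3 at hv
        simp only [List.mem_append (s := _ ++ _) (t := _ ++ List.map c _)] at hv
        rcases hv with ((((h | h) | h) | h) | h) | h
        · exact this _ _ l1 v h
        · exact this _ _ l1 v h
        · exact this _ _ l2 v h
        · exact this _ _ l2 v h
        · exact this _ _ l3 v h
        · exact this _ _ l3 v h
      omega
    · intro v hv
      rcases List.mem_append.1 hv with h | h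
      · rcases hpriv v h with h' | h' | h'
        · left; rw [List.count_append]; omega
        · right; left; exact List.mem_append_left _ h'
        · right; right; exact List.mem_append_left _ h'
      · obtain ⟨a, ha, rfl⟩ := List.mem_map.1 h
        rcases hx a ha with h' | h' | h'
        · left
          rw [List.count_append]
          have := List.count_le_count_map (l := x) (f := c) (x := a)
          omega
        · right; left; exact List.mem_append_right _ (List.mem_map_of_mem h')
        · right; right; exact List.mem_append_right _ (List.mem_map_of_mem h')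
    · intro q' hq'
      rcases List.mem_cons.1 hq' with h | h
      · let ρ : ℕ → List A := fun v => if v = m then [d] else if v = m + 1 then [e] else []
        have key : ∀ (P : List ℕ) (w : List A), (∀ v ∈ P, v < m) → (∀ a ∈ w, a = d ∨ a = e) →
            (P ++ w.map c).flatMap ρ = w := by
          intro P w hP hw
          have e1 : P.flatMap ρ = [] := by
            rw [List.flatMap_eq_nil_iff]
            intro v hv
            have := hP v hv
            simp only [ρ]
            rw [if_neg (by omega), if_neg (by omega)]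
          rw [List.flatMap_append, e1, List.nil_append, List.flatMap_map]
          conv_rhs => rw [← List.flatMap_singleton' w]
          apply List.flatMap_congr
          intro a ha
          by_cases had : a = d
          · simp [ρ, c, had]
          · rcases hw a ha with h | h
            · exact absurd h had
            · simp [ρ, c, had, ← h]
        refine ⟨ρ, ?_⟩
        have hb2 : ∀ a ∈ sq3 x y z, a = d ∨ a = e := by rw [hxyz]; exact hbin
        rw [sq3_flatMap, key P1 x l1 (fun a ha => hb2 a (by simp [sq3, ha])),
          key P2 y l2 (fun a ha => hb2 a (by simp [sq3, ha])),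
          key P3 z l3 (fun a ha => hb2 a (by simp [sq3, ha])), h, hxyz]
      · obtain ⟨ρ, hρ⟩ := hcov q' h
        let ρ' : ℕ → List A := fun v => if v < m then ρ v else []
        have key : ∀ (P : List ℕ) (w : List A), (∀ v ∈ P, v < m) →
            (P ++ w.map c).flatMap ρ' = P.flatMap ρ := by
          intro P w hP
          have e1 : (w.map c).flatMap ρ' = [] := by
            rw [List.flatMap_eq_nil_iff]
            intro v hv
            obtain ⟨a, _, rfl⟩ := List.mem_map.1 hv
            have := hc a
            simp only [ρ']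
            rw [if_neg (by omega)]
          rw [List.flatMap_append, e1, List.append_nil]
          apply List.flatMap_congr
          intro v hv
          simp [ρ', hP v hv]
        refine ⟨ρ', ?_⟩
        rw [hρ, sq3_flatMap, sq3_flatMap, key P1 x l1, key P2 y l2, key P3 z l3]

end Pool.Agent.Lib.MP_d6d0a6_lc
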