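import Mathlib

set_option autoImplicit false

namespace Pool.Agent.Lib.MP_d6d0a6_lc

/-- One step of the diagonal construction: any finite sample of `L` can be prolonged inside `L`
so that the learner's guess is wrong for `L`. -/
theorem gold_step {W H : Type} [Countable W] (lang : H → Set W) (C : H → Prop) (L : Set W)
    (M : List W → H)
    (hM : ∀ β, C β → ∀ t : ℕ → W, Set.range t = lang β →
      ∃ γ, lang γ = lang β ∧ ∃ N : ℕ, ∀ n ≥ N, M ((List.range n).map t) = γ)
    (hT : ∀ T : List W, (∀ w ∈ T, w ∈ L) →
      ∃ β, C β ∧ (∀ w ∈ T, w ∈ lang β) ∧ lang β ⊆ L ∧ lang β ≠ L)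
    (s : List W) (hs : ∀ w ∈ s, w ∈ L) (hne : s ≠ []) :
    ∃ s' : List W, (∀ w ∈ s', w ∈ L) ∧ lang (M (s ++ s')) ≠ L := by
  obtain ⟨β, hC, hsβ, hsub, hneq⟩ := hT s hs
  obtain ⟨w0, hw0⟩ := List.exists_mem_of_ne_nil s hne
  have hnon : (lang β).Nonempty := ⟨w0, hsβ w0 hw0⟩
  obtain ⟨t0, ht0⟩ := (Set.to_countable (lang β)).exists_eq_range hnon
  let t : ℕ → W := fun n => if h : n < s.length then s[n] else t0 (n - s.length)
  have hrange : Set.range t = lang β := by
    apply Set.Subset.antisymm
    · rintro _ ⟨n, rfl⟩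
      by_cases h : n < s.length
      · simp only [t, h, dif_pos]
        exact hsβ _ (List.getElem_mem h)
      · simp only [t, h, dif_neg, not_false_eq_true]
        rw [ht0]; exact ⟨_, rfl⟩
    · intro w hw
      rw [ht0] at hw
      obtain ⟨n, rfl⟩ := hw
      refine ⟨n + s.length, ?_⟩
      simp [t]
  obtain ⟨γ, hγ, N, hN⟩ := hM β hC t hrange
  refine ⟨(List.range N).map t0, ?_, ?_⟩
  · intro w hw
    obtain ⟨n, _, rfl⟩ := List.mem_map.1 hw
    apply hsub; rw [ht0]; exact ⟨_, rfl⟩
  · have key : s ++ (List.range N).map t0 = (List.range (s.length + N)).map t := by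
      apply List.ext_getElem
      · simp
      · intro i h1 h2
        by_cases h : i < s.length
        · simp [t, h, List.getElem_append_left h]
        · have h' : s.length ≤ i := Nat.le_of_not_lt h
          simp [t, h, List.getElem_append_right h']
    rw [key, hN _ (Nat.le_add_left _ _), hγ]
    exact hneq

/-- Angluin's tell-tale condition is necessary, for arbitrary (also non computable) learners. -/
theorem gold_no_telltale {W H : Type} [Countable W] (lang : H → Set W) (C : H → Prop) (α : H)
    (hα : C α) (hnon : (lang α).Nonempty)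
    (hT : ∀ T : List W, (∀ w ∈ T, w ∈ lang α) →
      ∃ β, C β ∧ (∀ w ∈ T, w ∈ lang β) ∧ lang β ⊆ lang α ∧ lang β ≠ lang α)
    (M : List W → H) :
    ¬ (∀ β, C β → ∀ t : ℕ → W, Set.range t = lang β →
      ∃ γ, lang γ = lang β ∧ ∃ N : ℕ, ∀ n ≥ N, M ((List.range n).map t) = γ) := by
  intro hM
  obtain ⟨a, ha⟩ := (Set.to_countable (lang α)).exists_eq_range hnon
  have haL : ∀ n, a n ∈ lang α := fun n => by rw [ha]; exact ⟨n, rfl⟩
  have step := gold_step lang C (lang α) M hM hT
  choose! ext hext1 hext2 using step
  let S : ℕ → List W := fun n => Nat.rec [] (fun n s => (s ++ [a n]) ++ ext (s ++ [a n])) n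
  have hS : ∀ n, S (n + 1) = (S n ++ [a n]) ++ ext (S n ++ [a n]) := fun n => rfl
  have hSL : ∀ n, ∀ w ∈ S n, w ∈ lang α := by
    intro n
    induction n with
    | zero => intro w hw; simp [S] at hw
    | succ n ih =>
      have h1 : ∀ w ∈ S n ++ [a n], w ∈ lang α := by
        intro w hw
        rcases List.mem_append.1 hw with h | h
        · exact ih w h
        · rw [List.mem_singleton.1 h]; exact haL n
      intro w hw
      rw [hS] at hw
      rcases List.mem_append.1 hw with h | h
      · exact h1 w h
      · exact hext1 _ h1 (by simp) w h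
  have hbad : ∀ n, lang (M (S (n + 1))) ≠ lang α := by
    intro n
    rw [hS]
    apply hext2 _ _ (by simp)
    intro w hw
    rcases List.mem_append.1 hw with h | h
    · exact hSL n w h
    · rw [List.mem_singleton.1 h]; exact haL n
  have hlen : ∀ n, n ≤ (S n).length := by
    intro n
    induction n with
    | zero => simp
    | succ n ih => rw [hS]; simp; omega
  have hpre : ∀ m n, m ≤ n → S m <+: S n := by
    intro m n hmn
    induction hmn with
    | refl => exact List.prefix_refl _
    | step _ ih =>
      refine ih.trans ?_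
      rw [hS, List.append_assoc]
      exact List.prefix_append _ _
  let t : ℕ → W := fun n => (S (n + 1))[n]'(hlen (n + 1))
  have ht : ∀ m i (h : i < (S m).length), t i = (S m)[i] := by
    intro m i h
    rcases le_total m (i + 1) with h1 | h1
    · exact ((hpre _ _ h1).getElem h).symm
    · exact (hpre _ _ h1).getElem (hlen (i + 1))
  have hmap : ∀ m, (List.range (S m).length).map t = S m := by
    intro m
    apply List.ext_getElem
    · simp
    · intro i h1 h2
      simp [ht m i h2]
  have hrange : Set.range t = lang α := by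
    apply Set.Subset.antisymm
    · rintro _ ⟨n, rfl⟩
      exact hSL (n + 1) _ (List.getElem_mem (hlen (n + 1)))
    · intro w hw
      rw [ha] at hw
      obtain ⟨n, rfl⟩ := hw
      have : a n ∈ S (n + 1) := by rw [hS]; simp
      obtain ⟨i, hi, hi2⟩ := List.getElem_of_mem this
      exact ⟨i, by rw [ht (n + 1) i hi, hi2]⟩
  obtain ⟨γ, hγ, N, hN⟩ := hM α hα t hrange
  have h1 := hN (S (N + 1)).length (le_trans (Nat.le_succ N) (hlen (N + 1)))
  rw [hmap (N + 1)] at h1
  exact hbad N (by rw [h1, hγ])

end Pool.Agent.Lib.MP_d6d0a6_lc
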