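import Mathlib
import Pool.Agent.Lib.MP_d6d0a6_lc.Core
import Pool.Agent.Lib.MP_d6d0a6_lc.Gold

set_option autoImplicit false

namespace Pool.Agent.Lib.MP_d6d0a6_lc

variable {A : Type} [DecidableEq A]

/-- Word level chain of gaps `z c f q q h t z' c f q q h⁺ t`. -/
def blocksW (t : A) (z z' f h : ℕ → List A) (q : List A) : List A → ℕ → List A
  | [], _ => []
  | c :: cs, i => z i ++ c :: ((f i ++ q ++ q ++ h i) ++ t :: (z' i ++ c ::
      ((f i ++ q ++ q ++ h (i + 1)) ++ t :: blocksW t z z' f h q cs (i + 1))))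

def ctxW (t : A) (cs : List A) (z z' f h : ℕ → List A) (g q : List A) : List A :=
  t :: ((g ++ q ++ h 0) ++ t :: ((g ++ q ++ q ++ h cs.length) ++ t :: blocksW t z z' f h q cs 0))

omit [DecidableEq A] in
theorem blocksW_absorb (t c : A) (z z' f h : ℕ → List A) (x y : List A) (j : ℕ) :
    ∀ (cs : List A) (i : ℕ), (∀ n (hn : n < cs.length), i + n = j → cs[n] = c) →
      blocksW t (fun i => if i = j then z i ++ c :: (f i ++ (x ++ c :: y) ++ x) else z i)
        (fun i => if i = j then z' i ++ c :: (f i ++ x) else z' i)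
        (fun i => if i < j then f i ++ (x ++ c :: y) ++ (x ++ c :: y) else
          if i = j then y else f i ++ (x ++ c :: y))
        (fun i => if i ≤ j then h i else (x ++ c :: y) ++ h i) [] cs i =
      blocksW t z z' f h (x ++ c :: y) cs i := by
  intro cs
  induction cs with
  | nil => intro i _; rfl
  | cons c' cs ih =>
    intro i hi
    have ih' := ih (i + 1) (fun n hn e => by
      have := hi (n + 1) (by simp; omega) (by omega)
      simpa using this)
    simp only [blocksW]
    rw [ih']
    rcases lt_trichotomy i j with h1 | h1 | h1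
    · have h2 : i ≠ j := by omega
      have h3 : i ≤ j := by omega
      have h4 : i + 1 ≤ j := by omega
      simp [h1, h2, h3, h4]
    · have hc : c' = c := hi 0 (by simp) (by omega)
      subst h1
      subst hc
      simp
    · have h2 : i ≠ j := by omega
      have h3 : ¬ i ≤ j := by omega
      have h4 : ¬ i + 1 ≤ j := by omega
      have h5 : ¬ i < j := by omega
      simp [h2, h3, h4, h5]

omit [DecidableEq A] in
/-- If the core image contains a terminal of the context, the core can be erased. -/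
theorem ctxW_absorb (t : A) (cs : List A) (z z' f h : ℕ → List A) (g q : List A) (c : A)
    (hc : c ∈ cs) (hq : c ∈ q) :
    ∃ (z2 z2' f2 h2 : ℕ → List A) (g2 : List A),
      ctxW t cs z z' f h g q = ctxW t cs z2 z2' f2 h2 g2 [] := by
  obtain ⟨x, y, rfl⟩ := List.append_of_mem hq
  obtain ⟨j, hj, hcj⟩ := List.getElem_of_mem hc
  have key := blocksW_absorb t c z z' f h x y j cs 0 (fun n hn e => by
    have : n = j := by omega
    subst this; exact hcj)
  refine ⟨fun i => if i = j then z i ++ c :: (f i ++ (x ++ c :: y) ++ x) else z i,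
    fun i => if i = j then z' i ++ c :: (f i ++ x) else z' i,
    fun i => if i < j then f i ++ (x ++ c :: y) ++ (x ++ c :: y) else
          if i = j then y else f i ++ (x ++ c :: y),
    fun i => if i ≤ j then h i else (x ++ c :: y) ++ h i, g ++ (x ++ c :: y), ?_⟩
  unfold ctxW
  rw [key]
  have h1 : ¬ cs.length ≤ j := by omega
  simp [h1]

omit [DecidableEq A] in
theorem cancel_sep (p : A → Bool) : ∀ (x x' y y' : List A) (c c' : A),
    x.countP p = 0 → x'.countP p = 0 → p c = true → p c' = true →
    x ++ c :: y = x' ++ c' :: y' → x = x' ∧ y = y' := by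
  intro x
  induction x with
  | nil =>
    intro x' y y' c c' _ h2 hc _ h
    cases x' with
    | nil => simp at h; exact ⟨rfl, h.2⟩
    | cons a x' =>
      simp only [List.nil_append, List.cons_append, List.cons.injEq] at h
      rw [List.countP_cons, ← h.1, hc] at h2
      simp at h2
  | cons a x ih =>
    intro x' y y' c c' h1 h2 hc hc' h
    cases x' with
    | nil =>
      simp only [List.nil_append, List.cons_append, List.cons.injEq] at h
      rw [List.countP_cons, h.1, hc'] at h1
      simp at h1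
    | cons a' x' =>
      simp only [List.cons_append, List.cons.injEq] at h
      rw [List.countP_cons] at h1 h2
      obtain ⟨e1, e2⟩ := ih x' y y' c c' (by omega) (by omega) hc hc' h.2
      exact ⟨by rw [h.1, e1], e2⟩

omit [DecidableEq A] in
theorem blocksW_cnt_ge (p : A → Bool) (t : A) (ht : p t = true) (z z' f h : ℕ → List A)
    (q : List A) : ∀ (cs : List A) (i : ℕ), (∀ c ∈ cs, p c = true) →
      4 * cs.length ≤ (blocksW t z z' f h q cs i).countP p := by
  intro cs
  induction cs with
  | nil => intro i _; simp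
  | cons c cs ih =>
    intro i hc
    have h1 := ih (i + 1) (fun c hc' => hc c (List.mem_cons_of_mem _ hc'))
    have h2 := hc c List.mem_cons_self
    simp only [blocksW, List.countP_append, List.countP_cons, ht, h2, if_true, List.length_cons]
    omega

omit [DecidableEq A] in
theorem blocksW_cnt_eq (p : A → Bool) (t : A) (ht : p t = true)
    (u : List A) (hu : u.countP p = 0) : ∀ (cs : List A) (i : ℕ), (∀ c ∈ cs, p c = true) →
      (blocksW t (fun _ => []) (fun _ => []) (fun _ => []) (fun _ => []) u cs i).countP p =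
        4 * cs.length := by
  intro cs
  induction cs with
  | nil => intro i _; simp [blocksW]
  | cons c cs ih =>
    intro i hc
    have h1 := ih (i + 1) (fun c hc' => hc c (List.mem_cons_of_mem _ hc'))
    have h2 := hc c List.mem_cons_self
    simp only [blocksW, List.countP_append, List.countP_cons, ht, h2, if_true, List.length_cons,
      List.countP_nil, hu]
    omega

omit [DecidableEq A] in
theorem blocksW_rigid (p : A → Bool) (t : A) (ht : p t = true) (z z' f h : ℕ → List A)
    (q u : List A) (hu : u.countP p = 0) : ∀ (cs : List A) (i : ℕ), (∀ c ∈ cs, p c = true) →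
      blocksW t z z' f h q cs i =
        blocksW t (fun _ => []) (fun _ => []) (fun _ => []) (fun _ => []) u cs i →
      (h i).length = (h (i + cs.length)).length := by
  intro cs
  induction cs with
  | nil => intro i _ _; simp
  | cons c cs ih =>
    intro i hc heq
    have hc' : ∀ c ∈ cs, p c = true := fun c hc' => hc c (List.mem_cons_of_mem _ hc')
    have h2 := hc c List.mem_cons_self
    have g1 := blocksW_cnt_ge p t ht z z' f h q cs (i + 1) hc'
    have g2 := blocksW_cnt_eq p t ht u hu cs (i + 1) hc'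
    have g3 := congrArg (List.countP p) heq
    simp only [blocksW, List.countP_append, List.countP_cons, ht, h2, if_true,
      List.countP_nil, hu, g2] at g3
    simp only [blocksW] at heq
    obtain ⟨-, heq⟩ := cancel_sep p _ _ _ _ _ _ (by omega) (by simp) h2 h2 heq
    obtain ⟨e1, heq⟩ := cancel_sep p _ _ _ _ _ _
      (by simp only [List.countP_append]; omega)
      (by simp only [List.countP_append, List.countP_nil]; omega) ht ht heq
    obtain ⟨-, heq⟩ := cancel_sep p _ _ _ _ _ _ (by omega) (by simp) h2 h2 heq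
    obtain ⟨e2, heq⟩ := cancel_sep p _ _ _ _ _ _
      (by simp only [List.countP_append]; omega)
      (by simp only [List.countP_append, List.countP_nil]; omega) ht ht heq
    have e3 := ih (i + 1) hc' heq
    have l1 := congrArg List.length e1
    have l2 := congrArg List.length e2
    simp only [List.length_append, List.length_nil] at l1 l2
    have : i + (c :: cs).length = i + 1 + cs.length := by simp; omega
    rw [this]
    omega

/-- On words whose core avoids the terminals and whose context variables are empty,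
the parse is forced. -/
theorem ctxW_rigid (t : A) (cs : List A) (ht : t ∈ cs) (z z' f h : ℕ → List A) (g q u : List A)
    (hu : ∀ a ∈ u, a ∉ cs)
    (heq : ctxW t cs z z' f h g q =
      ctxW t cs (fun _ => []) (fun _ => []) (fun _ => []) (fun _ => []) [] u) : q = u := by
  let p : A → Bool := fun a => decide (a ∈ cs)
  have hp : ∀ c ∈ cs, p c = true := fun c hc => by simp [p, hc]
  have hpt : p t = true := hp t ht
  have hu0 : u.countP p = 0 := by
    rw [List.countP_eq_zero]
    intro a ha
    simp [p, hu a ha]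
  have g1 := blocksW_cnt_ge p t hpt z z' f h q cs 0 hp
  have g2 := blocksW_cnt_eq p t hpt u hu0 cs 0 hp
  have g3 := congrArg (List.countP p) heq
  simp only [ctxW, List.countP_append, List.countP_cons, hpt, if_true,
    List.countP_nil, hu0, g2] at g3
  simp only [ctxW, List.cons.injEq, true_and] at heq
  obtain ⟨e1, heq⟩ := cancel_sep p _ _ _ _ _ _
    (by simp only [List.countP_append]; omega)
    (by simp only [List.countP_append, List.countP_nil]; omega) hpt hpt heq
  obtain ⟨e2, heq⟩ := cancel_sep p _ _ _ _ _ _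
    (by simp only [List.countP_append]; omega)
    (by simp only [List.countP_append, List.countP_nil]; omega) hpt hpt heq
  have e3 := blocksW_rigid p t hpt z z' f h q u hu0 cs 0 hp heq
  have l1 := congrArg List.length e1
  have l2 := congrArg List.length e2
  simp only [List.length_append, List.length_nil, Nat.zero_add] at l1 l2 e3
  have hg : g = [] := List.eq_nil_of_length_eq_zero (by omega)
  have hh : h 0 = [] := List.eq_nil_of_length_eq_zero (by omega)
  simpa [hg, hh] using e1

/-- Pattern level chain of gaps. -/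
def blocksP (t : A) (Q : List (ℕ ⊕ A)) : List A → ℕ → List (ℕ ⊕ A)
  | [], _ => []
  | c :: cs, i => Sum.inl (6 * i) :: Sum.inr c :: Sum.inl (6 * i + 2) :: (Q ++ Q ++
      (Sum.inl (6 * i + 3) :: Sum.inr t :: Sum.inl (6 * i + 1) :: Sum.inr c ::
        Sum.inl (6 * i + 2) :: (Q ++ Q ++ (Sum.inl (6 * (i + 1) + 3) :: Sum.inr t ::
          blocksP t Q cs (i + 1)))))

def coreP (R : List ℕ) : List (ℕ ⊕ A) := R.map (fun v => Sum.inl (6 * v + 5))

def ctxP (t : A) (cs : List A) (R : List ℕ) : List (ℕ ⊕ A) :=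
  Sum.inr t :: Sum.inl 4 :: (coreP R ++ (Sum.inl 3 :: Sum.inr t :: Sum.inl 4 ::
    (coreP R ++ coreP R ++ (Sum.inl (6 * cs.length + 3) :: Sum.inr t ::
      blocksP t (coreP R) cs 0))))

/-- The erasing pattern language. -/
def lang (α : List (ℕ ⊕ A)) : Set (List A) :=
  {w | ∃ σ : ℕ → List A, w = α.flatMap (Sum.elim σ (fun a => [a]))}

omit [DecidableEq A] in
theorem sub_blocksP (t : A) (Q : List (ℕ ⊕ A)) (σ : ℕ → List A) : ∀ (cs : List A) (i : ℕ),
    (blocksP t Q cs i).flatMap (Sum.elim σ (fun a => [a])) =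
      blocksW t (fun i => σ (6 * i)) (fun i => σ (6 * i + 1)) (fun i => σ (6 * i + 2))
        (fun i => σ (6 * i + 3)) (Q.flatMap (Sum.elim σ (fun a => [a]))) cs i := by
  intro cs
  induction cs with
  | nil => intro i; rfl
  | cons c cs ih =>
    intro i
    simp [blocksP, blocksW, List.flatMap_append, ih]

omit [DecidableEq A] in
theorem sub_ctxP (t : A) (cs : List A) (R : List ℕ) (σ : ℕ → List A) :
    (ctxP t cs R).flatMap (Sum.elim σ (fun a => [a])) =
      ctxW t cs (fun i => σ (6 * i)) (fun i => σ (6 * i + 1)) (fun i => σ (6 * i + 2))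
        (fun i => σ (6 * i + 3)) (σ 4) (R.flatMap (fun v => σ (6 * v + 5))) := by
  have : (coreP R : List (ℕ ⊕ A)).flatMap (Sum.elim σ (fun a => [a])) =
      R.flatMap (fun v => σ (6 * v + 5)) := by
    simp [coreP, List.flatMap_map]
  simp [ctxP, ctxW, List.flatMap_append, sub_blocksP, this]

omit [DecidableEq A] in
theorem mem_lang_ctxP (t : A) (cs : List A) (R : List ℕ) (w : List A) :
    w ∈ lang (ctxP t cs R) ↔ ∃ (z z' f h : ℕ → List A) (g : List A) (ρ : ℕ → List A),
      w = ctxW t cs z z' f h g (R.flatMap ρ) := by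
  constructor
  · rintro ⟨σ, rfl⟩
    exact ⟨_, _, _, _, _, _, sub_ctxP t cs R σ⟩
  · rintro ⟨z, z', f, h, g, ρ, rfl⟩
    let σ : ℕ → List A := fun n =>
      if n % 6 = 0 then z (n / 6) else if n % 6 = 1 then z' (n / 6) else
      if n % 6 = 2 then f (n / 6) else if n % 6 = 3 then h (n / 6) else
      if n % 6 = 4 then g else ρ (n / 6)
    refine ⟨σ, ?_⟩
    rw [sub_ctxP]
    have e0 : (fun i => σ (6 * i)) = z := by
      funext i
      have a1 : 6 * i % 6 = 0 := by omega
      have a2 : 6 * i / 6 = i := by omega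
      simp [σ]
    have e1 : (fun i => σ (6 * i + 1)) = z' := by
      funext i
      have a1 : (6 * i + 1) % 6 = 1 := by omega
      have a2 : (6 * i + 1) / 6 = i := by omega
      simp [σ, a1, a2]
    have e2 : (fun i => σ (6 * i + 2)) = f := by
      funext i
      have a1 : (6 * i + 2) % 6 = 2 := by omega
      have a2 : (6 * i + 2) / 6 = i := by omega
      simp [σ, a1, a2]
    have e3 : (fun i => σ (6 * i + 3)) = h := by
      funext i
      have a1 : (6 * i + 3) % 6 = 3 := by omega
      have a2 : (6 * i + 3) / 6 = i := by omega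
      simp [σ, a1, a2]
    have e4 : σ 4 = g := by simp [σ]
    have e5 : (fun i => σ (6 * i + 5)) = ρ := by
      funext i
      have a1 : (6 * i + 5) % 6 = 5 := by omega
      have a2 : (6 * i + 5) / 6 = i := by omega
      simp [σ, a1, a2]
    rw [e0, e1, e2, e3, e4, e5]

omit [DecidableEq A] in
theorem inr_mem_blocksP (t a : A) (R : List ℕ) : ∀ (cs : List A) (i : ℕ),
    Sum.inr a ∈ blocksP t (coreP R) cs i → a = t ∨ a ∈ cs := by
  intro cs
  induction cs with
  | nil => intro i h; simp [blocksP] at h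
  | cons c cs ih =>
    intro i h
    simp [blocksP, coreP] at h
    rcases h with h | h | h | h | h
    · simp [h]
    · simp [h]
    · simp [h]
    · simp [h]
    · rcases ih (i + 1) h with h | h
      · exact Or.inl h
      · exact Or.inr (List.mem_cons_of_mem _ h)

omit [DecidableEq A] in
theorem inr_mem_ctxP (t a : A) (cs : List A) (ht : t ∈ cs) (R : List ℕ)
    (h : Sum.inr a ∈ ctxP t cs R) : a ∈ cs := by
  simp [ctxP, coreP] at h
  rcases h with h | h
  · exact h ▸ ht
  · rcases inr_mem_blocksP t a R cs 0 h with h | h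
    · exact h ▸ ht
    · exact h

/-- The language of the pattern with core `x x y y z z` has no tell-tale. -/
theorem no_telltale (t d e : A) (cs : List A) (ht : t ∈ cs) (hde : e ≠ d) (hd : d ∉ cs)
    (he : e ∉ cs) (hall : ∀ a, a ∈ cs ∨ a = d ∨ a = e) (T : List (List A))
    (hT : ∀ w ∈ T, w ∈ lang (ctxP t cs (sq3 [0] [1] [2]))) :
    ∃ R : List ℕ, (∀ w ∈ T, w ∈ lang (ctxP t cs R)) ∧
      lang (ctxP t cs R) ⊆ lang (ctxP t cs (sq3 [0] [1] [2])) ∧
      lang (ctxP t cs R) ≠ lang (ctxP t cs (sq3 [0] [1] [2])) := by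
  have hsplit : ∃ T' : List (List A),
      (∀ q ∈ T', (∀ a ∈ q, a = d ∨ a = e) ∧ ∃ x y z, q = sq3 x y z) ∧
      ∀ w ∈ T, ∃ (z z' f h : ℕ → List A) (g q : List A),
        w = ctxW t cs z z' f h g q ∧ (q = [] ∨ q ∈ T') := by
    induction T with
    | nil => exact ⟨[], by simp, by simp⟩
    | cons w T ih =>
      obtain ⟨T', h1, h2⟩ := ih (fun w hw => hT w (List.mem_cons_of_mem _ hw))
      obtain ⟨z, z', f, h, g, ρ, hw⟩ := (mem_lang_ctxP _ _ _ _).1 (hT w List.mem_cons_self)
      by_cases hq : ∃ c ∈ cs, c ∈ (sq3 [0] [1] [2]).flatMap ρ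
      · obtain ⟨c, hc, hcq⟩ := hq
        obtain ⟨z2, z2', f2, h2', g2, e2⟩ := ctxW_absorb t cs z z' f h g _ c hc hcq
        refine ⟨T', h1, ?_⟩
        intro w' hw'
        rcases List.mem_cons.1 hw' with h3 | h3
        · exact ⟨z2, z2', f2, h2', g2, [], by rw [h3, hw, e2], Or.inl rfl⟩
        · exact h2 w' h3
      · refine ⟨(sq3 [0] [1] [2]).flatMap ρ :: T', ?_, ?_⟩
        · intro q hq'
          rcases List.mem_cons.1 hq' with h3 | h3
          · refine ⟨?_, ?_⟩
            · intro a ha
              rcases hall a with h4 | h4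
              · exact absurd ⟨a, h4, h3 ▸ ha⟩ hq
              · exact h4
            · exact ⟨_, _, _, by rw [h3, sq3_flatMap]⟩
          · exact h1 q h3
        · intro w' hw'
          rcases List.mem_cons.1 hw' with h3 | h3
          · exact ⟨z, z', f, h, g, _, by rw [h3, hw], Or.inr List.mem_cons_self⟩
          · obtain ⟨z, z', f, h, g, q, e1, e2⟩ := h2 w' h3
            refine ⟨z, z', f, h, g, q, e1, ?_⟩
            rcases e2 with e2 | e2
            · exact Or.inl e2
            · exact Or.inr (List.mem_cons_of_mem _ e2)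
  obtain ⟨T', h1, h2⟩ := hsplit
  obtain ⟨P1, P2, P3, -, hpriv, hcov⟩ := core_cover d e T' h1
  have three : ∀ x y z : List A, ∃ ρ : ℕ → List A, (sq3 [0] [1] [2]).flatMap ρ = sq3 x y z := by
    intro x y z
    refine ⟨fun v => if v = 0 then x else if v = 1 then y else z, ?_⟩
    rw [sq3_flatMap]; simp
  refine ⟨sq3 P1 P2 P3, ?_, ?_, ?_⟩
  · intro w hw
    obtain ⟨z, z', f, h, g, q, e1, e2⟩ := h2 w hw
    rw [mem_lang_ctxP]
    rcases e2 with e2 | e2
    · refine ⟨z, z', f, h, g, fun _ => [], ?_⟩
      have : (sq3 P1 P2 P3).flatMap (fun _ => ([] : List A)) = [] := by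
        rw [List.flatMap_eq_nil_iff]; intro _ _; rfl
      rw [e1, e2, this]
    · obtain ⟨ρ, hρ⟩ := hcov q e2
      exact ⟨z, z', f, h, g, ρ, by rw [e1, hρ]⟩
  · intro w hw
    rw [mem_lang_ctxP] at hw ⊢
    obtain ⟨z, z', f, h, g, ρ, e1⟩ := hw
    obtain ⟨ρ', hρ'⟩ := three (P1.flatMap ρ) (P2.flatMap ρ) (P3.flatMap ρ)
    exact ⟨z, z', f, h, g, ρ', by rw [e1, hρ', sq3_flatMap]⟩
  · intro heq
    obtain ⟨x, y, z, hb, hmiss⟩ := core_missed d e hde P1 P2 P3 hpriv
    obtain ⟨ρ', hρ'⟩ := three x y z
    have hw : ctxW t cs (fun _ => []) (fun _ => []) (fun _ => []) (fun _ => []) [] (sq3 x y z) ∈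
        lang (ctxP t cs (sq3 [0] [1] [2])) := by
      rw [mem_lang_ctxP]
      exact ⟨_, _, _, _, _, ρ', by rw [hρ']⟩
    rw [← heq, mem_lang_ctxP] at hw
    obtain ⟨z1, z', f, h, g, ρ, e1⟩ := hw
    refine hmiss ρ (ctxW_rigid t cs ht z1 z' f h g _ _ ?_ e1.symm)
    intro a ha
    rcases hb a ha with h | h
    · exact h ▸ hd
    · exact h ▸ he

/-- No learner at all (computable or not) identifies the quasi-terminal-free erasing pattern
languages over an alphabet with `k ≥ 3` letters. -/
theorem not_learnable (k : ℕ) (hk : 3 ≤ k) (M : List (List (Fin k)) → List (ℕ ⊕ Fin k)) :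
    ¬ (∀ α : List (ℕ ⊕ Fin k), α ≠ [] →
          (∃ a b : Fin k, a ≠ b ∧ Sum.inr a ∉ α ∧ Sum.inr b ∉ α) →
          ∀ t : ℕ → List (Fin k), Set.range t = lang α →
            ∃ β : List (ℕ ⊕ Fin k), lang β = lang α ∧
              ∃ N : ℕ, ∀ n ≥ N, M ((List.range n).map t) = β) := by
  intro hM
  let d : Fin k := ⟨0, by omega⟩
  let e : Fin k := ⟨1, by omega⟩
  let t : Fin k := ⟨2, by omega⟩
  let cs : List (Fin k) := (List.finRange k).filter (fun a => decide (a ≠ d ∧ a ≠ e))
  have hcs : ∀ a, a ∈ cs ↔ a ≠ d ∧ a ≠ e := by intro a; simp [cs]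
  have hde : e ≠ d := by simp [d, e]
  have ht : t ∈ cs := by rw [hcs]; simp [t, d, e]
  have hd : d ∉ cs := by rw [hcs]; simp
  have he : e ∉ cs := by rw [hcs]; simp
  have hall : ∀ a, a ∈ cs ∨ a = d ∨ a = e := by
    intro a; rw [hcs]; tauto
  let C : List (ℕ ⊕ Fin k) → Prop := fun α =>
    α ≠ [] ∧ ∃ a b : Fin k, a ≠ b ∧ Sum.inr a ∉ α ∧ Sum.inr b ∉ α
  have hC : ∀ R, C (ctxP t cs R) := fun R =>
    ⟨by simp [ctxP], e, d, hde, fun h => he (inr_mem_ctxP t e cs ht R h),
      fun h => hd (inr_mem_ctxP t d cs ht R h)⟩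
  refine gold_no_telltale lang C (ctxP t cs (sq3 [0] [1] [2])) (hC _) ⟨_, fun _ => [], rfl⟩ ?_ M
    (fun β hβ => hM β hβ.1 hβ.2)
  intro T hT
  obtain ⟨R, h1, h2, h3⟩ := no_telltale t d e cs ht hde hd he hall T hT
  exact ⟨ctxP t cs R, hC R, h1, h2, h3⟩

end Pool.Agent.Lib.MP_d6d0a6_lc
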