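import Mathlib

set_option autoImplicit false

namespace Pool.Agent.Lib.MP_d6d0a6_lc.Freq

variable {A : Type}

/-- Image of a pattern under a substitution. -/
def sub (σ : ℕ → List A) (α : List (ℕ ⊕ A)) : List A :=
  α.flatMap (Sum.elim σ (fun a => [a]))

/-- The image with the positions of the terminals marked. -/
def lift (σ : ℕ → List A) (α : List (ℕ ⊕ A)) : List (A × Bool) :=
  α.flatMap (Sum.elim (fun v => (σ v).map (fun a => (a, false))) (fun a => [(a, true)]))

/-- The marked letters of a marked word. -/
def trm (W : List (A × Bool)) : List A := (W.filter (fun p => p.2)).map Prod.fst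

/-- The terminals of a pattern. -/
def tm (α : List (ℕ ⊕ A)) : List A := α.filterMap Sum.getRight?

/-- The variables of a pattern, with repetitions. -/
def vr (α : List (ℕ ⊕ A)) : List ℕ := α.filterMap Sum.getLeft?

theorem trm_append (U W : List (A × Bool)) : trm (U ++ W) = trm U ++ trm W := by
  simp [trm]

theorem trm_false (l : List A) : trm (l.map (fun a => (a, false))) = [] := by
  induction l with
  | nil => rfl
  | cons a l ih => simp [trm]

theorem trm_lift (σ : ℕ → List A) (α : List (ℕ ⊕ A)) : trm (lift σ α) = tm α := by
  induction α with
  | nil => rfl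
  | cons s α ih =>
    have : lift σ (s :: α) =
        Sum.elim (fun v => (σ v).map (fun a => (a, false))) (fun a => [(a, true)]) s ++
          lift σ α := by simp [lift]
    rw [this, trm_append, ih]
    cases s with
    | inl v => simp [trm_false, tm]
    | inr a => simp [trm, tm]

theorem fst_lift (σ : ℕ → List A) (α : List (ℕ ⊕ A)) :
    (lift σ α).map Prod.fst = sub σ α := by
  induction α with
  | nil => rfl
  | cons s α ih =>
    simp only [lift, sub, List.flatMap_cons, List.map_append] at ih ⊢
    rw [ih]
    cases s with
    | inl v => simp [Function.comp_def]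
    | inr a => simp

/-- Every unmarked letter differs from the next marked letter. -/
def RCond : List (A × Bool) → Prop
  | [] => True
  | p :: W => (p.2 = false → (trm W).head? ≠ some p.1) ∧ RCond W

theorem ahead : ∀ (W1 W2 : List (A × Bool)), RCond W1 → W1.map Prod.fst = W2.map Prod.fst →
    trm W1 <:+ trm W2 → ∀ i, (trm (W1.drop i)).length ≤ (trm (W2.drop i)).length := by
  intro W1
  induction W1 with
  | nil => intro W2 _ _ _ i; simp [trm]
  | cons p W1 ih =>
    intro W2 hR hm hs i
    cases W2 with
    | nil => simp at hm
    | cons q W2 =>
      cases i with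
      | zero => simpa using hs.length_le
      | succ i =>
        obtain ⟨a, b⟩ := p
        obtain ⟨a', b'⟩ := q
        simp only [List.map_cons, List.cons.injEq] at hm
        obtain ⟨rfl, hm⟩ := hm
        simp only [List.drop_succ_cons]
        refine ih W2 hR.2 hm ?_ i
        cases b <;> cases b'
        · simpa [trm] using hs
        · have h1 : trm W1 <:+ a :: trm W2 := by simpa [trm] using hs
          rcases List.suffix_cons_iff.1 h1 with h | h
          · exact absurd (by rw [h]; rfl) (hR.1 rfl)
          · exact h
        · have h1 : a :: trm W1 <:+ trm W2 := by simpa [trm] using hs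
          exact (List.suffix_cons a _).trans h1
        · have h1 : a :: trm W1 <:+ a :: trm W2 := by simpa [trm] using hs
          rcases List.suffix_cons_iff.1 h1 with h | h
          · simp only [List.cons.injEq, true_and] at h
            rw [h]
          · exact (List.suffix_cons a _).trans h

theorem eq_of_counts : ∀ (W1 W2 : List (A × Bool)), W1.map Prod.fst = W2.map Prod.fst →
    (∀ i, (trm (W1.drop i)).length = (trm (W2.drop i)).length) → W1 = W2 := by
  intro W1
  induction W1 with
  | nil => intro W2 hm _; cases W2 with
    | nil => rfl
    | cons q W2 => simp at hm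
  | cons p W1 ih =>
    intro W2 hm h
    cases W2 with
    | nil => simp at hm
    | cons q W2 =>
      obtain ⟨a, b⟩ := p
      obtain ⟨a', b'⟩ := q
      simp only [List.map_cons, List.cons.injEq] at hm
      obtain ⟨rfl, hm⟩ := hm
      have h0 := h 0
      have h1 := h 1
      have e := ih W2 hm (fun i => by simpa using h (i + 1))
      subst e
      cases b <;> cases b' <;> simp [trm] at h0 ⊢

theorem trm_reverse (W : List (A × Bool)) : trm W.reverse = (trm W).reverse := by
  simp [trm, List.filter_reverse]

/-- If unmarked letters differ from both neighbouring marked letters, the marking is the only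
embedding of the marked subword. -/
theorem mark_unique (W1 W2 : List (A × Bool)) (h1 : RCond W1) (h2 : RCond W1.reverse)
    (hm : W1.map Prod.fst = W2.map Prod.fst) (ht : trm W1 = trm W2) : W1 = W2 := by
  apply eq_of_counts W1 W2 hm
  intro i
  have hl : W1.length = W2.length := by simpa using congrArg List.length hm
  have a1 := ahead W1 W2 h1 hm (by rw [ht]) i
  have a2 := ahead W1.reverse W2.reverse h2 (by rw [List.map_reverse, List.map_reverse, hm])
    (by rw [trm_reverse, trm_reverse, ht]) (W1.length - i)
  have s1 := congrArg (fun W => (trm W).length) (List.take_append_drop i W1)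
  have s2 := congrArg (fun W => (trm W).length) (List.take_append_drop i W2)
  simp only [trm_append, List.length_append] at s1 s2
  by_cases hi : i ≤ W1.length
  · rw [List.drop_reverse, List.drop_reverse, trm_reverse, trm_reverse, List.length_reverse,
      List.length_reverse, ← hl, Nat.sub_sub_self hi] at a2
    rw [ht] at s1
    omega
  · rw [List.drop_eq_nil_of_le (by omega), List.drop_eq_nil_of_le (by omega)]

variable [DecidableEq A]

/-- The terminals that come first after the occurrences of the variable `v`. -/
def radj (v : ℕ) : List (ℕ ⊕ A) → List A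
  | [] => []
  | s :: γ => (if s = Sum.inl v then (tm γ).head?.toList else []) ++ radj v γ

theorem radj_length (v : ℕ) (γ : List (ℕ ⊕ A)) :
    (radj v γ).length ≤ (vr γ).count v := by
  induction γ with
  | nil => simp [radj]
  | cons s γ ih =>
    have h1 : ((tm γ).head?.toList).length ≤ 1 := by cases (tm γ).head? <;> simp
    cases s with
    | inl u =>
      have : vr (Sum.inl u :: γ) = u :: vr γ := by simp [vr]
      rw [this]
      by_cases h : u = v
      · subst h
        simp only [radj, if_true, List.length_append, List.count_cons_self]
        omega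
      · simpa [radj, h, List.count_cons_of_ne h] using ih
    | inr a =>
      have : vr (Sum.inr a :: γ) = vr γ := by simp [vr]
      rw [this]
      simpa [radj] using ih

theorem radj_sub (v : ℕ) (γ : List (ℕ ⊕ A)) (a : A) (h : a ∈ radj v γ) : Sum.inr a ∈ γ := by
  induction γ with
  | nil => simp [radj] at h
  | cons s γ ih =>
    simp only [radj, List.mem_append] at h
    rcases h with h | h
    · split_ifs at h with h1
      · have h2 : a ∈ tm γ := List.mem_of_mem_head? (by simpa using h)
        simp only [tm, List.mem_filterMap] at h2
        obtain ⟨s', hs', e⟩ := h2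
        cases s' with
        | inl u => simp at e
        | inr b =>
          simp only [Sum.getRight?_inr, Option.some.injEq] at e
          exact List.mem_cons_of_mem _ (e ▸ hs')
      · simp at h
    · exact List.mem_cons_of_mem _ (ih h)

omit [DecidableEq A] in
theorem rcond_piece (l : List A) (W : List (A × Bool)) (hW : RCond W)
    (h : ∀ a ∈ l, (trm W).head? ≠ some a) : RCond (l.map (fun a => (a, false)) ++ W) := by
  induction l with
  | nil => exact hW
  | cons a l ih =>
    refine ⟨fun _ => ?_, ih (fun b hb => h b (List.mem_cons_of_mem _ hb))⟩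
    show (trm (l.map (fun a => (a, false)) ++ W)).head? ≠ some a
    rw [trm_append, trm_false]
    exact h a List.mem_cons_self

theorem rcond_lift (σ : ℕ → List A) (γ : List (ℕ ⊕ A))
    (h : ∀ v, ∀ a ∈ σ v, a ∉ radj v γ) : RCond (lift σ γ) := by
  induction γ with
  | nil => trivial
  | cons s γ ih =>
    have ih' := ih (fun v a ha hm => h v a ha (List.mem_append_right _ hm))
    have : lift σ (s :: γ) =
        Sum.elim (fun v => (σ v).map (fun a => (a, false))) (fun a => [(a, true)]) s ++
          lift σ γ := by simp [lift]
    rw [this]
    cases s with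
    | inl v =>
      apply rcond_piece _ _ ih'
      intro a ha e
      rw [trm_lift] at e
      exact h v a ha (List.mem_append_left _ (by simp [e]))
    | inr a => exact ⟨by simp, ih'⟩

omit [DecidableEq A] in
theorem lift_reverse (σ : ℕ → List A) (γ : List (ℕ ⊕ A)) :
    (lift σ γ).reverse = lift (fun v => (σ v).reverse) γ.reverse := by
  induction γ with
  | nil => rfl
  | cons s γ ih =>
    simp only [lift, List.flatMap_cons, List.reverse_append, List.reverse_cons,
      List.flatMap_append, List.flatMap_nil, List.append_nil] at ih ⊢
    rw [ih]
    cases s <;> simp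

/-- The letter `a` borders no gap of `γ` containing the variable `v`. -/
def Free (γ : List (ℕ ⊕ A)) (v : ℕ) (a : A) : Prop :=
  a ∉ radj v γ ∧ a ∉ radj v γ.reverse

/-- With free letters in the images, the alignment of the terminals is forced. -/
theorem align (σ τ : ℕ → List A) (γ δ : List (ℕ ⊕ A)) (hf : ∀ v, ∀ a ∈ σ v, Free γ v a)
    (ht : tm γ = tm δ) (h : sub σ γ = sub τ δ) : lift σ γ = lift τ δ := by
  apply mark_unique
  · exact rcond_lift σ γ (fun v a ha => (hf v a ha).1)
  · rw [lift_reverse]
    exact rcond_lift _ _ (fun v a ha => (hf v a (List.mem_reverse.1 ha)).2)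
  · rw [fst_lift, fst_lift, h]
  · rw [trm_lift, trm_lift, ht]

theorem free_of_not_mem (γ : List (ℕ ⊕ A)) (v : ℕ) (a : A) (h : Sum.inr a ∉ γ) : Free γ v a :=
  ⟨fun h1 => h (radj_sub v γ a h1), fun h1 => h (List.mem_reverse.1 (radj_sub v _ a h1))⟩

/-- A variable with few occurrences has a free letter outside any two given letters. -/
theorem exists_free [Fintype A] (γ : List (ℕ ⊕ A)) (v : ℕ) (a b : A)
    (h : 2 * (vr γ).count v + 3 ≤ Fintype.card A) :
    ∃ c, Free γ v c ∧ c ≠ a ∧ c ≠ b := by
  by_contra hcon
  push Not at hcon
  have hsub : (Finset.univ : Finset A) ⊆ (a :: b :: (radj v γ ++ radj v γ.reverse)).toFinset := by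
    intro c _
    simp only [List.mem_toFinset, List.mem_cons, List.mem_append]
    by_contra h1
    push Not at h1
    exact h1.2.1 (hcon c ⟨h1.2.2.1, h1.2.2.2⟩ h1.1)
  have h1 := Finset.card_le_card hsub
  have h2 := List.toFinset_card_le (a :: b :: (radj v γ ++ radj v γ.reverse))
  have h3 := radj_length v γ
  have h4 := radj_length v γ.reverse
  rw [vr, List.filterMap_reverse, List.count_reverse] at h4
  unfold vr at h h3
  simp only [List.length_cons, List.length_append, Finset.card_univ] at h1 h2
  omega

end Pool.Agent.Lib.MP_d6d0a6_lc.Freq
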