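import Mathlib
import Pool.Agent.Lib.MP_d6d0a6_lc.Core
import Pool.Agent.Lib.MP_d6d0a6_lc.FAlign

set_option autoImplicit false

namespace Pool.Agent.Lib.MP_d6d0a6_lc.Freq

section Runs

variable {P B : Type} [DecidableEq P]

/-- Copies the letters and reports the length of every maximal run that is closed on both
sides. -/
def runs : Option (P × Option ℕ) → List P → List (ℕ ⊕ P)
  | _, [] => []
  | none, p :: w => Sum.inr p :: runs (some (p, none)) w
  | some (q, o), p :: w =>
      if p = q then Sum.inr p :: runs (some (q, o.map (· + 1))) w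
      else o.toList.map Sum.inl ++ Sum.inr p :: runs (some (p, some 1)) w

omit [DecidableEq P] in
theorem kill_opt (F : ℕ ⊕ P → Option B) (o : Option ℕ)
    (h : ∀ n ∈ o.toList, F (Sum.inl n) = none) : (o.toList.map Sum.inl).filterMap F = [] := by
  cases o with
  | none => rfl
  | some n => simp [h n (by simp)]

theorem runs_forget (w : List P) : ∀ (q : P) (o : Option ℕ), ∃ c : List ℕ, c.length ≤ 1 ∧
    ∀ F : ℕ ⊕ P → Option B, (∀ n ∈ c, F (Sum.inl n) = none) →
      (runs (some (q, o)) w).filterMap F = (runs (some (q, none)) w).filterMap F := by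
  induction w with
  | nil => intro q o; exact ⟨[], by simp, by simp [runs]⟩
  | cons p w ih =>
    intro q o
    by_cases h : p = q
    · obtain ⟨c, hc, hF⟩ := ih q (o.map (· + 1))
      refine ⟨c, hc, fun F hk => ?_⟩
      simp only [runs, h, if_true, List.filterMap_cons, Option.map_none]
      rw [hF F hk]
    · refine ⟨o.toList, by cases o <;> simp, fun F hk => ?_⟩
      simp only [runs, h, if_false, List.filterMap_append, kill_opt F o hk]
      simp

theorem runs_cross (w : List P) (s : Option (P × Option ℕ)) : ∃ c : List ℕ, c.length ≤ 2 ∧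
    ∀ F : ℕ ⊕ P → Option B, (∀ n ∈ c, F (Sum.inl n) = none) →
      (runs s w).filterMap F = (runs none w).filterMap F := by
  cases w with
  | nil => exact ⟨[], by simp, by cases s <;> simp [runs]⟩
  | cons p w =>
    rcases s with _ | ⟨q, o⟩
    · exact ⟨[], by simp, by simp⟩
    · by_cases h : p = q
      · obtain ⟨c, hc, hF⟩ := runs_forget (B := B) w q (o.map (· + 1))
        refine ⟨c, by omega, fun F hk => ?_⟩
        simp only [runs, h, if_true, List.filterMap_cons]
        rw [hF F hk]
      · obtain ⟨c, hc, hF⟩ := runs_forget (B := B) w p (some 1)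
        refine ⟨o.toList ++ c, ?_, fun F hk => ?_⟩
        · have : o.toList.length ≤ 1 := by cases o <;> simp
          rw [List.length_append]; omega
        · simp only [runs, h, if_false, List.filterMap_append, List.filterMap_cons,
            kill_opt F o (fun n hn => hk n (List.mem_append_left _ hn)), List.nil_append]
          rw [hF F (fun n hn => hk n (List.mem_append_right _ hn))]

theorem runs_append (u w : List P) : ∀ s : Option (P × Option ℕ),
    ∃ s', runs s (u ++ w) = runs s u ++ runs s' w := by
  induction u with
  | nil => intro s; exact ⟨s, by cases s <;> simp [runs]⟩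
  | cons p u ih =>
    intro s
    rcases s with _ | ⟨q, o⟩
    · obtain ⟨s', hs'⟩ := ih (some (p, none))
      exact ⟨s', by simp [runs, hs']⟩
    · by_cases h : p = q
      · obtain ⟨s', hs'⟩ := ih (some (q, o.map (· + 1)))
        exact ⟨s', by simp [runs, h, hs']⟩
      · obtain ⟨s', hs'⟩ := ih (some (p, some 1))
        exact ⟨s', by simp [runs, h, hs']⟩

theorem runs_cut {S : Type} (f : S → List P) (L : List S) :
    ∃ C : List ℕ, C.length ≤ 2 * L.length ∧
      ∀ F : ℕ ⊕ P → Option B, (∀ n ∈ C, F (Sum.inl n) = none) →
        (runs none (L.flatMap f)).filterMap F =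
          L.flatMap (fun s => (runs none (f s)).filterMap F) := by
  induction L with
  | nil => exact ⟨[], by simp, by simp [runs]⟩
  | cons s L ih =>
    obtain ⟨C, hC, hF⟩ := ih
    obtain ⟨s', hs'⟩ := runs_append (f s) (L.flatMap f) none
    obtain ⟨c, hc, hc2⟩ := runs_cross (B := B) (L.flatMap f) s'
    refine ⟨c ++ C, by simp only [List.length_append, List.length_cons]; omega, fun F hk => ?_⟩
    rw [List.flatMap_cons, hs', List.filterMap_append,
      hc2 F (fun n hn => hk n (List.mem_append_left _ hn)),
      hF F (fun n hn => hk n (List.mem_append_right _ hn)), List.flatMap_cons]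

theorem runs_letters (w : List P) : ∀ s : Option (P × Option ℕ),
    (runs s w).filterMap Sum.getRight? = w := by
  induction w with
  | nil => intro s; cases s <;> simp [runs]
  | cons p w ih =>
    intro s
    rcases s with _ | ⟨q, o⟩
    · simp [runs, ih]
    · by_cases h : p = q
      · simp [runs, h, ih]
      · cases o <;> simp [runs, h, ih]

theorem runs_rep (D E : P) (h : E ≠ D) (r : List P) (i : ℕ) : ∀ n : ℕ,
    runs (some (D, some n)) (List.replicate i D ++ E :: r) =
      List.replicate i (Sum.inr D) ++ Sum.inl (n + i) :: Sum.inr E :: runs (some (E, some 1)) r := by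
  induction i with
  | zero => intro n; simp [runs, h]
  | succ i ih =>
    intro n
    simp only [List.replicate_succ, List.cons_append, runs, if_true, Option.map_some]
    rw [ih]
    congr 4
    omega

omit [DecidableEq P] in
/-- The word `E D^{b₁} E D^{b₂} E ⋯`. -/
def code (D E : P) (bs : List ℕ) : List P :=
  E :: bs.flatMap (fun b => List.replicate b D ++ [E])

theorem runs_blocks (D E : P) (h : E ≠ D) (F : ℕ ⊕ P → Option B) (hD : F (Sum.inr D) = none)
    (hE : F (Sum.inr E) = none) (h1 : F (Sum.inl 1) = none) (bs : List ℕ) (hb : ∀ b ∈ bs, 1 ≤ b) :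
    ∀ o : Option ℕ, (∀ n ∈ o.toList, F (Sum.inl n) = none) →
      (runs (some (E, o)) (bs.flatMap (fun b => List.replicate b D ++ [E]))).filterMap F =
        bs.filterMap (fun b => F (Sum.inl b)) := by
  induction bs with
  | nil => intro o _; simp [runs]
  | cons b bs ih =>
    intro o ho
    obtain ⟨b', rfl⟩ : ∃ b', b = b' + 1 := ⟨b - 1, by have := hb b List.mem_cons_self; omega⟩
    have ih' := ih (fun b hb' => hb b (List.mem_cons_of_mem _ hb')) (some 1) (by simpa using h1)
    have hr : (List.replicate b' (Sum.inr D : ℕ ⊕ P)).filterMap F = [] := by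
      rw [List.filterMap_eq_nil_iff]
      intro s hs
      rw [List.eq_of_mem_replicate hs, hD]
    simp only [List.flatMap_cons, List.replicate_succ, List.cons_append, List.append_assoc,
      List.nil_append, runs, h.symm, if_false]
    rw [runs_rep D E h, List.filterMap_append, kill_opt F o ho, List.nil_append,
      List.filterMap_cons, hD, List.filterMap_append, hr, List.nil_append, Nat.add_comm 1 b',
      List.filterMap_cons, List.filterMap_cons, hE, ih', List.filterMap_cons]

theorem runs_code (D E : P) (h : E ≠ D) (F : ℕ ⊕ P → Option B) (hD : F (Sum.inr D) = none)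
    (hE : F (Sum.inr E) = none) (h1 : F (Sum.inl 1) = none) (bs : List ℕ) (hb : ∀ b ∈ bs, 1 ≤ b) :
    (runs none (code D E bs)).filterMap F = bs.filterMap (fun b => F (Sum.inl b)) := by
  simp only [code, runs, List.filterMap_cons, hE]
  exact runs_blocks D E h F hD hE h1 bs hb none (by simp)

omit [DecidableEq P] in
theorem filterMap_single (G : ℕ → Option B) (i : ℕ) (l : List ℕ) (hn : l.Nodup) (hi : i ∈ l)
    (h : ∀ j ∈ l, j ≠ i → G j = none) : l.filterMap G = (G i).toList := by
  induction l with
  | nil => simp at hi
  | cons j l ih =>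
    rw [List.nodup_cons] at hn
    by_cases hj : j = i
    · subst hj
      have : l.filterMap G = [] := by
        rw [List.filterMap_eq_nil_iff]
        intro a ha
        exact h a (List.mem_cons_of_mem _ ha) (fun e => hn.1 (e ▸ ha))
      rw [List.filterMap_cons, this]
      cases G j <;> rfl
    · rw [List.filterMap_cons, h j List.mem_cons_self hj]
      refine ih hn.2 ?_ (fun a ha => h a (List.mem_cons_of_mem _ ha))
      rcases List.mem_cons.1 hi with h1 | h1
      · exact absurd h1.symm hj
      · exact h1

end Runs

variable {A : Type} [DecidableEq A]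

/-- The coding substitution: `x` goes to the letter `a`, every other variable `v` to a run length
code over the letters `d v`, `e v`. -/
def cod (K x : ℕ) (a : A) (d e : ℕ → A) (v : ℕ) : List A :=
  if v = x then [a] else code (d v) (e v) (List.range' (2 + K * v) K)

/-- A terminal-free assignment as a terminal-preserving morphism. -/
def hat (θ : ℕ → List ℕ) : ℕ ⊕ A → List (ℕ ⊕ A) :=
  Sum.elim (fun v => (θ v).map Sum.inl) (fun a => [Sum.inr a])

theorem count_tok (x : ℕ) (a : A) (J : ℕ → Option ℕ) (hJ : ∀ n, J n ≠ some x)
    (l : List (ℕ ⊕ (A × Bool))) :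
    (l.filterMap (Sum.elim J (fun p => if p.1 = a then some x else none))).count x =
      ((l.filterMap Sum.getRight?).map Prod.fst).count a := by
  induction l with
  | nil => rfl
  | cons s l ih =>
    cases s with
    | inl n =>
      have := hJ n
      cases h : J n with
      | none => simpa [List.filterMap_cons, h] using ih
      | some y =>
        have hy : y ≠ x := fun e => this (by rw [h, e])
        simpa [List.filterMap_cons, h, List.count_cons_of_ne hy] using ih
    | inr p =>
      by_cases h : p.1 = a
      · simpa [List.filterMap_cons, h] using ih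
      · simpa [List.filterMap_cons, h, List.count_cons_of_ne h] using ih

/-- Decoding: a parse of the coded word with the same terminal positions gives a morphism. -/
theorem dec (γ δ : List (ℕ ⊕ A)) (x : ℕ) (a : A) (d e : ℕ → A) (K : ℕ)
    (hK : 2 * (γ.length + δ.length) < K) (hde : ∀ v, e v ≠ d v) (hda : ∀ v, d v ≠ a)
    (hea : ∀ v, e v ≠ a) (τ : ℕ → List A) (h : lift (cod K x a d e) γ = lift τ δ) :
    ∃ θ : ℕ → List ℕ, δ.flatMap (hat θ) = γ ∧ ∀ y, (θ y).count x = (τ y).count a := by
  obtain ⟨C1, hC1, hF1⟩ := runs_cut (B := ℕ ⊕ A)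
    (Sum.elim (fun v => (cod K x a d e v).map (fun a => (a, false))) (fun a => [(a, true)])) γ
  obtain ⟨C2, hC2, hF2⟩ := runs_cut (B := ℕ ⊕ A)
    (Sum.elim (fun v => (τ v).map (fun a => (a, false))) (fun a => [(a, true)])) δ
  have hex : ∀ v, ∃ i, 2 + K * v ≤ i ∧ i < 2 + K * v + K ∧ i ∉ C1 ++ C2 := fun v =>
    exists_avoid _ _ _ (by rw [List.length_append]; omega)
  choose ι hι1 hι2 hι3 using hex
  have hdiv : ∀ v n, 2 + K * v ≤ n → n < 2 + K * v + K → (n - 2) / K = v := by
    intro v n h1 h2
    apply Nat.div_eq_of_lt_le
    · rw [Nat.mul_comm]; omega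
    · rw [Nat.add_mul, Nat.mul_comm]; omega
  let J : ℕ → Option ℕ := fun n =>
    if n = ι ((n - 2) / K) ∧ (n - 2) / K ≠ x then some ((n - 2) / K) else none
  let G : ℕ ⊕ (A × Bool) → Option ℕ := Sum.elim J (fun p => if p.1 = a then some x else none)
  let F : ℕ ⊕ (A × Bool) → Option (ℕ ⊕ A) := Sum.elim (fun n => (J n).map Sum.inl)
    (fun p => if p.2 then some (Sum.inr p.1) else if p.1 = a then some (Sum.inl x) else none)
  have hkill : ∀ n ∈ C1 ++ C2, F (Sum.inl n) = none := by
    intro n hn
    have : ¬ (n = ι ((n - 2) / K) ∧ (n - 2) / K ≠ x) := fun h1 => hι3 _ (h1.1 ▸ hn)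
    simp only [F, J, Sum.elim_inl, if_neg this, Option.map_none]
  have e1 := hF1 F (fun n hn => hkill n (List.mem_append_left _ hn))
  have e2 := hF2 F (fun n hn => hkill n (List.mem_append_right _ hn))
  unfold lift at h
  rw [h, e2] at e1
  refine ⟨fun y => (runs none ((τ y).map (fun a => (a, false)))).filterMap G, ?_, ?_⟩
  · have l1 : δ.flatMap (hat (fun y => (runs none ((τ y).map (fun a => (a, false)))).filterMap G))
        = δ.flatMap (fun s => (runs none (Sum.elim (fun v => (τ v).map (fun a => (a, false)))
          (fun a => [(a, true)]) s)).filterMap F) := by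
      apply List.flatMap_congr
      intro s _
      cases s with
      | inl y =>
        simp only [hat, Sum.elim_inl, List.map_filterMap]
        apply List.filterMap_congr
        intro ev hev
        cases ev with
        | inl n => rfl
        | inr p =>
          have hp : p ∈ (τ y).map (fun a => (a, false)) := by
            rw [← runs_letters ((τ y).map (fun a => (a, false))) none]
            exact List.mem_filterMap.2 ⟨_, hev, rfl⟩
          obtain ⟨b, _, rfl⟩ := List.mem_map.1 hp
          by_cases hb : b = a <;> simp [F, G, hb]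
      | inr t => simp [hat, runs, F]
    rw [l1, e1]
    conv_rhs => rw [← List.flatMap_singleton' γ]
    apply List.flatMap_congr
    intro s _
    cases s with
    | inr t => simp [runs, F]
    | inl v =>
      by_cases hv : v = x
      · simp [cod, hv, runs, F]
      · have hc : (cod K x a d e v).map (fun a => (a, false)) =
            code (d v, false) (e v, false) (List.range' (2 + K * v) K) := by
          simp [cod, hv, code, List.map_flatMap]
        have h1 : F (Sum.inl 1) = none := by
          have : ¬ (1 = ι ((1 - 2) / K) ∧ (1 - 2) / K ≠ x) := fun h1 => by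
            have := hι1 ((1 - 2) / K); omega
          simp only [F, J, Sum.elim_inl, if_neg this, Option.map_none]
        simp only [Sum.elim_inl]
        rw [hc, runs_code _ _ (by simpa using hde v) F (by simp [F, hda v]) (by simp [F, hea v])
          h1 _ (fun b hb => by rw [List.mem_range'_1] at hb; omega),
          filterMap_single _ (ι v) _ List.nodup_range'
            (by rw [List.mem_range'_1]; exact ⟨hι1 v, hι2 v⟩)]
        · simp [F, J, hdiv v _ (hι1 v) (hι2 v), hv]
        · intro j hj hne
          rw [List.mem_range'_1] at hj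
          simp [F, J, hdiv v _ hj.1 hj.2, hne]
  · intro y
    have hJ : ∀ n, J n ≠ some x := by
      intro n
      simp only [J]
      split_ifs with h1
      · simpa using h1.2
      · simp
    rw [count_tok x a J hJ, runs_letters]
    simp [Function.comp_def]

end Pool.Agent.Lib.MP_d6d0a6_lc.Freq
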