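import Mathlib
import Pool.Agent.Lib.MP_d6d0a6_lc.Ctx
import Pool.Agent.Lib.MP_d6d0a6_lc.FDec

set_option autoImplicit false

namespace Pool.Agent.Lib.MP_d6d0a6_lc.Freq

variable {A : Type}

theorem mem_lang (α : List (ℕ ⊕ A)) (w : List A) : w ∈ lang α ↔ ∃ σ, w = sub σ α := Iff.rfl

theorem sub_hat (τ : ℕ → List A) (θ : ℕ → List ℕ) (α : List (ℕ ⊕ A)) :
    sub τ (α.flatMap (hat θ)) = sub (fun v => (θ v).flatMap τ) α := by
  unfold sub
  rw [List.flatMap_assoc]
  apply List.flatMap_congr
  intro s _
  cases s with
  | inl v => simp [hat, List.flatMap_map]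
  | inr a => simp [hat]

theorem lang_hat (θ : ℕ → List ℕ) (α : List (ℕ ⊕ A)) : lang (α.flatMap (hat θ)) ⊆ lang α := by
  rintro w ⟨τ, rfl⟩
  exact ⟨_, sub_hat τ θ α⟩

theorem hat_hat (θ ψ : ℕ → List ℕ) (α : List (ℕ ⊕ A)) :
    (α.flatMap (hat θ)).flatMap (hat ψ) = α.flatMap (hat (fun v => (θ v).flatMap ψ)) := by
  rw [List.flatMap_assoc]
  apply List.flatMap_congr
  intro s _
  cases s with
  | inl v => simp [hat, List.flatMap_map, List.map_flatMap]
  | inr a => simp [hat]

theorem mem_vr (α : List (ℕ ⊕ A)) (v : ℕ) : v ∈ vr α ↔ Sum.inl v ∈ α := by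
  simp only [vr, List.mem_filterMap]
  constructor
  · rintro ⟨s, hs, e⟩
    cases s with
    | inl u => simp only [Sum.getLeft?_inl, Option.some.injEq] at e; exact e ▸ hs
    | inr a => simp at e
  · intro h; exact ⟨_, h, rfl⟩

theorem hat_id (θ : ℕ → List ℕ) (α : List (ℕ ⊕ A)) (h : ∀ v ∈ vr α, θ v = [v]) :
    α.flatMap (hat θ) = α := by
  conv_rhs => rw [← List.flatMap_singleton' α]
  apply List.flatMap_congr
  intro s hs
  cases s with
  | inl v => simp [hat, h v ((mem_vr α v).2 hs)]
  | inr a => simp [hat]

theorem sub_nil (α : List (ℕ ⊕ A)) : sub (fun _ => []) α = tm α := by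
  induction α with
  | nil => rfl
  | cons s α ih =>
    simp only [sub, tm, List.flatMap_cons] at ih ⊢
    rw [ih]
    cases s <;> simp

theorem tm_sublist (σ : ℕ → List A) (α : List (ℕ ⊕ A)) : (tm α).Sublist (sub σ α) := by
  rw [← trm_lift σ, ← fst_lift]
  exact List.filter_sublist.map _

theorem tm_eq (α β : List (ℕ ⊕ A)) (h1 : tm α ∈ lang β) (h2 : tm β ∈ lang α) : tm α = tm β := by
  obtain ⟨σ, h1⟩ := (mem_lang _ _).1 h1
  obtain ⟨τ, h2⟩ := (mem_lang _ _).1 h2
  have s1 := tm_sublist σ β
  have s2 := tm_sublist τ α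
  rw [← h1] at s1
  rw [← h2] at s2
  exact s2.antisymm s1

theorem forall₂_single {B : Type} (f : B → List B) : ∀ (l l' : List B), l.flatMap f = l' →
    l'.length ≤ l.length → (∀ s ∈ l, f s ≠ []) → List.Forall₂ (fun s t => f s = [t]) l l' := by
  have hge : ∀ l : List B, (∀ s ∈ l, f s ≠ []) → l.length ≤ (l.flatMap f).length := by
    intro l
    induction l with
    | nil => simp
    | cons s l ih =>
      intro h
      have h1 := ih (fun t ht => h t (List.mem_cons_of_mem _ ht))
      have h2 := List.length_pos_iff.2 (h s List.mem_cons_self)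
      simp only [List.flatMap_cons, List.length_append, List.length_cons]
      omega
  intro l
  induction l with
  | nil => intro l' h _ _; subst h; exact List.Forall₂.nil
  | cons s l ih =>
    intro l' h hl hne
    have hne' : ∀ t ∈ l, f t ≠ [] := fun t ht => hne t (List.mem_cons_of_mem _ ht)
    have h1 := hge l hne'
    obtain ⟨t, r, e⟩ := List.exists_cons_of_ne_nil (hne s List.mem_cons_self)
    subst h
    simp only [List.flatMap_cons, e, List.length_append, List.length_cons] at hl ⊢
    have hr : r = [] := List.eq_nil_of_length_eq_zero (by omega)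
    subst hr
    exact List.Forall₂.cons e (ih (l.flatMap f) rfl (by omega) hne')

/-- Every pattern has an equivalent subpattern without nontrivial fixing morphism. -/
theorem exists_prim (n : ℕ) : ∀ α : List (ℕ ⊕ A), α.length ≤ n → ∃ α0 : List (ℕ ⊕ A),
    α0.Sublist α ∧ lang α0 = lang α ∧
      ∀ θ : ℕ → List ℕ, α0.flatMap (hat θ) = α0 → ∀ v ∈ vr α0, θ v = [v] := by
  classical
  induction n with
  | zero =>
    intro α h
    have : α = [] := List.eq_nil_of_length_eq_zero (by omega)
    subst this
    exact ⟨[], List.Sublist.refl _, rfl, by simp [vr]⟩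
  | succ n ih =>
    intro α hn
    by_cases hp : ∀ θ : ℕ → List ℕ, α.flatMap (hat θ) = α → ∀ v ∈ vr α, θ v = [v]
    · exact ⟨α, List.Sublist.refl _, rfl, hp⟩
    · push Not at hp
      obtain ⟨θ, hθ, v, hv, hne⟩ := hp
      have hex : ∃ u ∈ vr α, θ u = [] := by
        by_contra hcon
        push Not at hcon
        have h1 := forall₂_single (hat θ) α α hθ le_rfl (by
          intro s hs
          cases s with
          | inl u => simpa [hat] using hcon u ((mem_vr α u).2 hs)
          | inr a => simp [hat])
        have h2 := List.forall₂_same.1 h1 _ ((mem_vr α v).1 hv)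
        apply hne
        apply List.map_injective_iff.2 (Sum.inl_injective (β := A))
        simpa [hat] using h2
      obtain ⟨u, hu, hθu⟩ := hex
      let ε : ℕ → List ℕ := fun w => if w = u then [] else [w]
      have hsub : ∀ γ : List (ℕ ⊕ A), (γ.flatMap (hat ε)).Sublist γ ∧
          (Sum.inl u ∈ γ → (γ.flatMap (hat ε)).length < γ.length) := by
        intro γ
        induction γ with
        | nil => simp
        | cons s γ ihγ =>
          have hl := ihγ.1.length_le
          by_cases hs : s = Sum.inl u
          · have : hat ε s = ([] : List (ℕ ⊕ A)) := by simp [hs, hat, ε]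
            rw [List.flatMap_cons, this, List.nil_append]
            exact ⟨ihγ.1.cons _, fun _ => by simp only [List.length_cons]; omega⟩
          · have : hat ε s = [s] := by
              cases s with
              | inl w =>
                have : w ≠ u := fun e => hs (by rw [e])
                simp [hat, ε, this]
              | inr a => simp [hat]
            rw [List.flatMap_cons, this]
            refine ⟨ihγ.1.cons_cons _, fun hm => ?_⟩
            have := ihγ.2 ((List.mem_cons.1 hm).resolve_left (fun e => hs e.symm))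
            simp only [List.length_cons, List.singleton_append]
            omega
      have hlt := (hsub α).2 ((mem_vr α u).1 hu)
      obtain ⟨α0, s0, l0, p0⟩ := ih (α.flatMap (hat ε)) (by omega)
      refine ⟨α0, s0.trans (hsub α).1, ?_, p0⟩
      rw [l0]
      apply Set.Subset.antisymm (lang_hat ε α)
      have e1 : (α.flatMap (hat ε)).flatMap (hat θ) = α := by
        rw [hat_hat]
        have : (fun v => (ε v).flatMap θ) = θ := by
          funext w
          by_cases hw : w = u
          · simp [ε, hw, hθu]
          · simp [ε, hw]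
        rw [this, hθ]
      have := lang_hat θ (α.flatMap (hat ε))
      rwa [e1] at this

/-- A bound for the length and the variables of a pattern. -/
def sz (α : List (ℕ ⊕ A)) : ℕ := (α.map (Sum.elim (fun v => v + 1) (fun _ => 1))).sum

theorem length_le_sz (α : List (ℕ ⊕ A)) : α.length ≤ sz α := by
  induction α with
  | nil => simp
  | cons s α ih =>
    simp only [sz, List.map_cons, List.sum_cons, List.length_cons] at ih ⊢
    cases s <;> simp <;> omega

theorem lt_sz (α : List (ℕ ⊕ A)) (v : ℕ) (h : v ∈ vr α) : v < sz α :=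
  List.single_le_sum (fun _ _ => Nat.zero_le _) _
    (List.mem_map.2 ⟨_, (mem_vr α v).1 h, rfl⟩)

theorem sub_length (σ : ℕ → List A) (c : ℕ) (hc : 1 ≤ c) (α : List (ℕ ⊕ A))
    (h : ∀ v ∈ vr α, (σ v).length ≤ c) : (sub σ α).length ≤ α.length * c := by
  induction α with
  | nil => simp [sub]
  | cons s α ih =>
    have ih' := ih (fun v hv => h v ((mem_vr _ v).2 (List.mem_cons_of_mem _ ((mem_vr α v).1 hv))))
    simp only [sub, List.flatMap_cons, List.length_append, List.length_cons] at ih' ⊢
    rw [Nat.succ_mul]
    cases s with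
    | inl v =>
      have := h v ((mem_vr _ v).2 List.mem_cons_self)
      simp only [Sum.elim_inl]; omega
    | inr a => simp only [Sum.elim_inr, List.length_singleton]; omega

theorem code_length (D E : A) (c : ℕ) (bs : List ℕ) (h : ∀ b ∈ bs, b + 1 ≤ c) :
    (code D E bs).length ≤ 1 + bs.length * c := by
  induction bs with
  | nil => simp [code]
  | cons b bs ih =>
    have h1 := ih (fun b hb => h b (List.mem_cons_of_mem _ hb))
    have h2 := h b List.mem_cons_self
    simp only [code, List.flatMap_cons, List.length_cons, List.length_append,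
      List.length_replicate, List.length_nil] at h1 ⊢
    rw [Nat.succ_mul]
    omega

variable [DecidableEq A]

omit [DecidableEq A] in
theorem cod_length (K x n : ℕ) (a : A) (d e : ℕ → A) (v : ℕ) (hv : v < n) :
    (cod K x a d e v).length ≤ 1 + K * (2 + K * n) := by
  unfold cod
  split_ifs
  · simp
  · have := code_length (d v) (e v) (2 + K * n) (List.range' (2 + K * v) K) (by
      intro b hb
      rw [List.mem_range'_1] at hb
      have : K * (v + 1) ≤ K * n := Nat.mul_le_mul_left K hv
      rw [Nat.mul_succ] at this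
      omega)
    simpa using this

theorem cod_free (γ : List (ℕ ⊕ A)) (K x : ℕ) (a : A) (d e : ℕ → A) (hx : Free γ x a)
    (hd : ∀ v, Free γ v (d v)) (he : ∀ v, Free γ v (e v)) :
    ∀ v, ∀ c ∈ cod K x a d e v, Free γ v c := by
  intro v c hc
  unfold cod at hc
  split_ifs at hc with h
  · rw [List.mem_singleton.1 hc, h]; exact hx
  · simp only [code, List.mem_cons, List.mem_flatMap, List.mem_append, List.mem_replicate,
      List.not_mem_nil, or_false] at hc
    rcases hc with hc | ⟨b, _, hc | hc⟩
    · rw [hc]; exact he v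
    · rw [hc.2]; exact hd v
    · rw [hc]; exact he v

/-- Inclusion gives a morphism when every variable has two free letters. -/
theorem inc (γ δ : List (ℕ ⊕ A)) (a : A) (d e : ℕ → A) (hde : ∀ v, e v ≠ d v)
    (hda : ∀ v, d v ≠ a) (hea : ∀ v, e v ≠ a) (hd : ∀ v, Free γ v (d v))
    (he : ∀ v, Free γ v (e v)) (ht : tm γ = tm δ) (hsub : lang γ ⊆ lang δ) :
    ∃ θ : ℕ → List ℕ, δ.flatMap (hat θ) = γ := by
  have hx : Free γ (sz γ) a := by
    have h0 : (vr γ).count (sz γ) = 0 :=
      List.count_eq_zero.2 (fun h => lt_irrefl _ (lt_sz γ _ h))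
    have h1 := radj_length (sz γ) γ
    have h2 := radj_length (sz γ) γ.reverse
    rw [vr, List.filterMap_reverse, List.count_reverse] at h2
    unfold vr at h0 h1
    constructor
    · rw [List.eq_nil_of_length_eq_zero (l := radj (sz γ) γ) (by omega)]; simp
    · rw [List.eq_nil_of_length_eq_zero (l := radj (sz γ) γ.reverse) (by omega)]; simp
  obtain ⟨τ, hτ⟩ := (mem_lang _ _).1
    (hsub ⟨cod (2 * (γ.length + δ.length) + 1) (sz γ) a d e, rfl⟩)
  obtain ⟨θ, hθ, -⟩ := dec γ δ (sz γ) a d e _ (Nat.lt_succ_self _) hde hda hea τ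
    (align _ τ γ δ (cod_free γ _ _ a d e hx hd he) ht hτ)
  exact ⟨θ, hθ⟩

/-- If each variable has a private counter on the images of `φ`, then `φ` has a left inverse. -/
theorem left_inv (V : List ℕ) (φ : ℕ → List ℕ) (χ : ℕ → ℕ → ℕ)
    (h : ∀ x ∈ V, ∀ v ∈ V, ((φ v).map (χ x)).sum = [v].count x) :
    ∃ ψ : ℕ → List ℕ, ∀ v ∈ V, (φ v).flatMap ψ = [v] := by
  refine ⟨fun y => V.dedup.flatMap (fun x => List.replicate (χ x y) x), fun v hv => ?_⟩
  rw [← List.perm_singleton, List.perm_iff_count]
  intro x
  rw [List.count_flatMap]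
  by_cases hx : x ∈ V
  · rw [← h x hx v hv]
    congr 1
    apply List.map_congr_left
    intro y _
    simp only [Function.comp, List.count_flatMap]
    rw [List.sum_map_eq_nsmul_single x]
    · simp [List.count_dedup, hx]
    · intro x' hx' _
      simp [List.count_replicate, hx']
  · have hxv : v ≠ x := fun e => hx (e ▸ hv)
    rw [List.count_cons_of_ne hxv, List.count_nil]
    apply List.sum_eq_zero
    intro n hn
    obtain ⟨y, _, rfl⟩ := List.mem_map.1 hn
    simp only [Function.comp]
    rw [List.count_eq_zero]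
    intro hm
    obtain ⟨x', hx', hm'⟩ := List.mem_flatMap.1 hm
    exact hx (List.eq_of_mem_replicate hm' ▸ List.mem_dedup.1 hx')

end Pool.Agent.Lib.MP_d6d0a6_lc.Freq
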