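import Mathlib
import Pool.Agent.Lib.MP_d6d0a6_lc.FTell

set_option autoImplicit false

namespace Pool.Agent.Lib.MP_d6d0a6_lc.Freq

section Runs2

variable {P : Type} [DecidableEq P]

theorem runs_same (D : P) (i : ℕ) : ∀ o : Option ℕ,
    runs (some (D, o)) (List.replicate i D) = List.replicate i (Sum.inr D) := by
  induction i with
  | zero => intro o; simp [runs]
  | succ i ih => intro o; simp [List.replicate_succ, runs, ih]

theorem runs_start (D E : P) (h : E ≠ D) (r : List P) (i : ℕ) :
    runs (some (D, none)) (List.replicate i D ++ E :: r) =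
      List.replicate i (Sum.inr D) ++ Sum.inr E :: runs (some (E, some 1)) r := by
  induction i with
  | zero => simp [runs, h]
  | succ i ih => simp [List.replicate_succ, runs, ih]

theorem runs_mid (D E : P) (h : E ≠ D) (r : List P) (bs : List ℕ) (hb : ∀ b ∈ bs, 1 ≤ b) :
    runs (some (E, some 1)) (bs.flatMap (fun b => List.replicate b D ++ [E]) ++ r) =
      bs.flatMap (fun b => Sum.inl 1 :: (List.replicate b (Sum.inr D) ++ [Sum.inl b, Sum.inr E]))
        ++ runs (some (E, some 1)) r := by
  induction bs with
  | nil => simp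
  | cons b bs ih =>
    obtain ⟨b', rfl⟩ : ∃ b', b = b' + 1 := ⟨b - 1, by have := hb b List.mem_cons_self; omega⟩
    have ih' := ih (fun b hb' => hb b (List.mem_cons_of_mem _ hb'))
    simp only [List.flatMap_cons, List.replicate_succ, List.cons_append, List.append_assoc,
      List.nil_append, runs, h.symm, if_false]
    rw [runs_rep D E h, ih', Nat.add_comm 1 b']
    simp

theorem runs_padded (D E : P) (h : E ≠ D) (i : ℕ) (bs : List ℕ) (hb : ∀ b ∈ bs, 1 ≤ b) :
    runs none (List.replicate (i + 1) D ++ (code D E bs ++ List.replicate (i + 1) D)) =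
      List.replicate (i + 1) (Sum.inr D) ++ Sum.inr E ::
        (bs.flatMap (fun b => Sum.inl 1 :: (List.replicate b (Sum.inr D) ++
          [Sum.inl b, Sum.inr E])) ++ Sum.inl 1 :: List.replicate (i + 1) (Sum.inr D)) := by
  simp only [code, List.replicate_succ, List.cons_append, runs]
  rw [runs_start D E h, runs_mid D E h _ bs hb]
  simp [runs, h.symm, runs_same]

end Runs2

variable {A : Type}

theorem sync {S T : Type} (tok : S → T) (s p Q P : S → List A) (L : List S) : ∀ a : S,
    (s a).map Sum.inr ++ L.flatMap (fun b => (p b).map Sum.inr ++ Sum.inl (tok b) ::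
        (s b).map (Sum.inr : A → T ⊕ A)) =
      (Q a).map Sum.inr ++ L.flatMap (fun b => (P b).map Sum.inr ++ Sum.inl (tok b) ::
        (Q b).map Sum.inr) →
    List.IsChain (fun a b => s a ++ p b = Q a ++ P b) (a :: L) := by
  have h0 : ∀ l : List A, (l.map (Sum.inr : A → T ⊕ A)).countP Sum.isLeft = 0 := by
    intro l; simp
  induction L with
  | nil => intro a _; exact List.isChain_singleton a
  | cons b L ih =>
    intro a h
    simp only [List.flatMap_cons, List.append_assoc, List.cons_append] at h
    rw [← List.append_assoc, ← List.append_assoc, ← List.map_append, ← List.map_append] at h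
    obtain ⟨e1, e2⟩ := cancel_sep Sum.isLeft _ _ _ _ _ _ (h0 _) (h0 _) rfl rfl h
    exact List.isChain_cons_cons.2 ⟨List.map_injective_iff.2 Sum.inr_injective e1, ih b e2⟩

theorem rep_inj (d a b : A) (ha : a ≠ d) (hb : b ≠ d) (x y : List A) : ∀ i j : ℕ,
    List.replicate i d ++ a :: x = List.replicate j d ++ b :: y → i = j := by
  intro i
  induction i with
  | zero =>
    intro j h
    cases j with
    | zero => rfl
    | succ j => simp [List.replicate_succ, ha] at h
  | succ i ih =>
    intro j h
    cases j with
    | zero => simp [List.replicate_succ, hb.symm] at h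
    | succ j =>
      simp only [List.replicate_succ, List.cons_append, List.cons.injEq, true_and] at h
      rw [ih j h]

theorem absorb {S : Type} (U : S → Prop) [DecidablePred U] (x z : S) (hz : z ≠ x) (hx : ¬ U x)
    (f : S → List S) (hf0 : f x = []) (hf : ∀ b, b ≠ x → f b = b :: (if U b then [x] else []))
    (l : List S) : ∀ a, List.IsChain (fun a b => U a ↔ b = x) (a :: (l ++ [z])) →
      (if U a then [x] else []) ++ l.flatMap f = l := by
  induction l with
  | nil =>
    intro a h
    have := (List.isChain_cons_cons.1 h).1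
    simp [this, hz]
  | cons b l ih =>
    intro a h
    obtain ⟨h1, h2⟩ := List.isChain_cons_cons.1 h
    have h3 := ih b h2
    by_cases hb : b = x
    · subst hb
      rw [if_neg hx, List.nil_append] at h3
      simp [h1, hf0, h3]
    · simp only [h1, hb, if_false, List.nil_append, List.flatMap_cons, hf b hb, List.cons_append,
        h3]

theorem all_eq {S : Type} (U : S → Prop) (x z : S) (hx : U x) (l : List S) :
    ∀ a, List.IsChain (fun a b => U a ↔ b = x) (a :: (l ++ [z])) → U a → z = x := by
  induction l with
  | nil => intro a h ha; exact (List.isChain_cons_cons.1 h).1.1 ha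
  | cons b l ih =>
    intro a h ha
    obtain ⟨h1, h2⟩ := List.isChain_cons_cons.1 h
    exact ih b h2 (h1.1 ha ▸ hx)

/-- No nontrivial terminal-free morphism fixes the pattern. -/
def Prim (α : List (ℕ ⊕ A)) : Prop :=
  ∀ θ : ℕ → List ℕ, α.flatMap (hat θ) = α → ∀ v ∈ vr α, θ v = [v]

theorem Prim.reverse {α : List (ℕ ⊕ A)} (h : Prim α) : Prim α.reverse := by
  intro θ hθ v hv
  have h1 : α.flatMap (hat (fun w => (θ w).reverse)) = α := by
    have := congrArg List.reverse hθ
    rw [List.reverse_flatMap, List.reverse_reverse] at this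
    refine Eq.trans ?_ this
    apply List.flatMap_congr
    intro s _
    cases s <;> simp [hat]
  have := h _ h1 v (by rw [mem_vr] at hv ⊢; exact List.mem_reverse.1 hv)
  simpa using congrArg List.reverse this

/-- In a second parse the left border of a variable cannot pass its first letter other than `d`. -/
theorem spill (α : List (ℕ ⊕ A)) (t : A) (hp : Prim α) (s p Q P : ℕ ⊕ A → List A) (d : A)
    (e : ℕ → A) (P' : ℕ → List A) (he : ∀ v, e v ≠ d)
    (hP : ∀ v, P (Sum.inl v) = List.replicate (v + 1) d ++ e v :: P' v)
    (hs0 : ∀ a, s (Sum.inr a) = []) (hP0 : ∀ a, P (Sum.inr a) = [])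
    (hR : List.IsChain (fun a b => s a ++ p b = Q a ++ P b) (Sum.inr t :: (α ++ [Sum.inr t]))) :
    ∀ v ∈ vr α, (P' v).length < (p (Sum.inl v)).length := by
  classical
  intro v hv
  by_contra hcon
  rw [List.isChain_iff_forall_rel_of_append_cons_cons] at hR
  let U : ℕ ⊕ A → Prop := fun a =>
    ∃ l1 l2, Sum.inr t :: (α ++ [Sum.inr t]) = l1 ++ a :: Sum.inl v :: l2
  have key1 : ∀ a, U a → ∃ z, s a = Q a ++ (List.replicate (v + 1) d ++ e v :: z) := by
    rintro a ⟨l1, l2, h⟩
    have h1 := hR h
    rw [hP] at h1
    have h2 : Q a ++ (List.replicate (v + 1) d ++ [e v]) <+: s a := by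
      apply List.prefix_of_prefix_length_le (l₃ := s a ++ p (Sum.inl v))
      · rw [h1]; exact ⟨P' v, by simp⟩
      · exact List.prefix_append _ _
      · have := congrArg List.length h1
        simp only [List.length_append, List.length_cons, List.length_nil] at this ⊢
        omega
    obtain ⟨z, hz⟩ := h2
    exact ⟨z, by rw [← hz]; simp⟩
  have hch : List.IsChain (fun a b => U a ↔ b = Sum.inl v) (Sum.inr t :: (α ++ [Sum.inr t])) := by
    rw [List.isChain_iff_forall_rel_of_append_cons_cons]
    intro a b l1 l2 h
    refine ⟨fun ha => ?_, fun hb => ⟨l1, l2, hb ▸ h⟩⟩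
    obtain ⟨z, hz⟩ := key1 a ha
    have h1 := hR h
    rw [hz, List.append_assoc, List.append_cancel_left_eq] at h1
    cases b with
    | inr c => rw [hP0] at h1; simp at h1
    | inl w =>
      rw [hP, List.append_assoc, List.cons_append] at h1
      have := rep_inj d _ _ (he v) (he w) _ _ _ _ h1
      rw [Nat.add_right_cancel this]
  have hU0 : ∀ c, ¬ U (Sum.inr c) := by
    intro c h
    obtain ⟨z, hz⟩ := key1 _ h
    rw [hs0] at hz
    simp at hz
  have hUv : ¬ U (Sum.inl v) := by
    intro h
    obtain ⟨l1, l2, hl⟩ := List.append_of_mem ((mem_vr α v).1 hv)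
    have h1 := hch
    rw [hl, List.append_assoc, ← List.cons_append, List.cons_append (a := Sum.inl v),
      List.isChain_split] at h1
    exact absurd (all_eq U _ _ h l2 _ h1.2 h) (by simp)
  let θ : ℕ → List ℕ := fun w => if w = v then [] else if U (Sum.inl w) then [w, v] else [w]
  have h1 := absorb U (Sum.inl v) (Sum.inr t) (by simp) hUv (hat θ) (by simp [hat, θ]) (by
    intro b hb
    cases b with
    | inr c => simp [hat, hU0 c]
    | inl w =>
      have hw : w ≠ v := fun e => hb (by rw [e])
      by_cases h : U (Sum.inl w) <;> simp [hat, θ, hw, h]) α _ hch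
  rw [if_neg (hU0 t), List.nil_append] at h1
  have := hp θ h1 v hv
  simp [θ] at this

/-- The padded coding substitution. -/
def pad (K : ℕ) (d : A) (e : ℕ → A) (v : ℕ) : List A :=
  List.replicate (v + 1) d ++ (code d (e v) (List.range' (2 + K * v) K) ++
    List.replicate (v + 1) d)

theorem blocks_mem (d e : A) (bs : List ℕ) :
    ∀ c ∈ bs.flatMap (fun b => List.replicate b d ++ [e]), c = d ∨ c = e := by
  intro c hc
  simp only [List.mem_flatMap, List.mem_append, List.mem_replicate, List.mem_singleton] at hc
  obtain ⟨b, _, hc | hc⟩ := hc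
  · exact Or.inl hc.2
  · exact Or.inr hc

theorem blocks_last (d e : A) (bs : List ℕ) : ∃ X, (∀ c ∈ X, c = d ∨ c = e) ∧
    e :: bs.flatMap (fun b => List.replicate b d ++ [e]) = X ++ [e] := by
  induction bs with
  | nil => exact ⟨[], by simp, by simp⟩
  | cons b bs ih =>
    obtain ⟨X, h1, h2⟩ := ih
    refine ⟨e :: (List.replicate b d ++ X), ?_, by simp [h2]⟩
    intro c hc
    simp only [List.mem_cons, List.mem_append, List.mem_replicate] at hc
    rcases hc with hc | hc | hc
    · exact Or.inr hc
    · exact Or.inl hc.2
    · exact h1 c hc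

theorem split_tok {T : Type} (l : List (T ⊕ A)) (x : T) (h : l.filterMap Sum.getLeft? = [x]) :
    ∃ p s : List A, l = p.map Sum.inr ++ Sum.inl x :: s.map Sum.inr := by
  have hr : ∀ l : List (T ⊕ A), (∀ y ∈ l, Sum.getLeft? y = none) →
      l = (l.filterMap Sum.getRight?).map Sum.inr := by
    intro l
    induction l with
    | nil => intro _; rfl
    | cons y l ih =>
      intro hy
      cases y with
      | inl u => simpa using hy _ List.mem_cons_self
      | inr a => simpa using ih (fun z hz => hy z (List.mem_cons_of_mem _ hz))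
  obtain ⟨l1, a, l2, rfl, h1, h2, h3⟩ := List.filterMap_eq_cons_iff.1 h
  cases a with
  | inr a => simp at h2
  | inl u =>
    simp only [Sum.getLeft?_inl, Option.some.injEq] at h2
    subst h2
    exact ⟨l1.filterMap Sum.getRight?, l2.filterMap Sum.getRight?,
      by rw [← hr l1 h1, ← hr l2 (List.filterMap_eq_nil_iff.1 h3)]⟩

variable [DecidableEq A]

/-- A second parse of the padded code word is synchronised with the first one. -/
theorem decS (α : List (ℕ ⊕ A)) (t : A) (hp : Prim α) (d : A) (e : ℕ → A) (he : ∀ v, e v ≠ d)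
    (K : ℕ) (hK : 4 * α.length < K) (τ : ℕ → List A) (h : lift (pad K d e) α = lift τ α) :
    ∃ (s p Q P : ℕ ⊕ A → List A) (P' Q' : ℕ → List A),
      (∀ v ∈ vr α, τ v = p (Sum.inl v) ++ s (Sum.inl v)) ∧
      (∀ v, P (Sum.inl v) = List.replicate (v + 1) d ++ e v :: P' v) ∧
      (∀ v, Q (Sum.inl v) = Q' v ++ e v :: List.replicate (v + 1) d) ∧
      (∀ v, ∀ c ∈ P' v ++ Q' v, c = d ∨ c = e v) ∧
      (∀ a, s (Sum.inr a) = [] ∧ p (Sum.inr a) = [] ∧ Q (Sum.inr a) = [] ∧ P (Sum.inr a) = []) ∧
      List.IsChain (fun a b => s a ++ p b = Q a ++ P b) (Sum.inr t :: (α ++ [Sum.inr t])) := by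
  obtain ⟨C1, hC1, hF1⟩ := runs_cut (B := (ℕ ⊕ A) ⊕ A)
    (Sum.elim (fun v => (pad K d e v).map (fun a => (a, false))) (fun a => [(a, true)])) α
  obtain ⟨C2, hC2, hF2⟩ := runs_cut (B := (ℕ ⊕ A) ⊕ A)
    (Sum.elim (fun v => (τ v).map (fun a => (a, false))) (fun a => [(a, true)])) α
  have hex : ∀ v, ∃ i, 2 + K * v ≤ i ∧ i < 2 + K * v + K ∧ i ∉ C1 ++ C2 := fun v =>
    exists_avoid _ _ _ (by rw [List.length_append]; omega)
  choose ι hι1 hι2 hι3 using hex
  have hdiv : ∀ v n, 2 + K * v ≤ n → n < 2 + K * v + K → (n - 2) / K = v := by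
    intro v n h1 h2
    apply Nat.div_eq_of_lt_le
    · rw [Nat.mul_comm]; omega
    · rw [Nat.add_mul, Nat.mul_comm]; omega
  let J : ℕ → Option ℕ := fun n => if n = ι ((n - 2) / K) then some ((n - 2) / K) else none
  let F : ℕ ⊕ (A × Bool) → Option ((ℕ ⊕ A) ⊕ A) :=
    Sum.elim (fun n => (J n).map (fun v => Sum.inl (Sum.inl v)))
      (fun p => if p.2 then some (Sum.inl (Sum.inr p.1)) else some (Sum.inr p.1))
  have hkill : ∀ n ∈ C1 ++ C2, F (Sum.inl n) = none := by
    intro n hn
    have : ¬ (n = ι ((n - 2) / K)) := fun h1 => hι3 _ (h1 ▸ hn)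
    simp only [F, J, Sum.elim_inl, if_neg this, Option.map_none]
  have e1 := hF1 F (fun n hn => hkill n (List.mem_append_left _ hn))
  have e2 := hF2 F (fun n hn => hkill n (List.mem_append_right _ hn))
  unfold lift at h
  rw [h, e2] at e1
  have hsplit : ∀ v, ∃ b1 b2, List.range' (2 + K * v) K = b1 ++ ι v :: b2 := fun v =>
    List.append_of_mem (by rw [List.mem_range'_1]; exact ⟨hι1 v, hι2 v⟩)
  choose b1 b2 hb using hsplit
  choose X hX1 hX2 using fun v => blocks_last d (e v) (b2 v)
  let P' : ℕ → List A := fun v =>
    (b1 v).flatMap (fun b => List.replicate b d ++ [e v]) ++ List.replicate (ι v) d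
  have hS : ∀ v, (runs none ((pad K d e v).map (fun a => (a, false)))).filterMap F =
      (List.replicate (v + 1) d ++ e v :: P' v).map Sum.inr ++ Sum.inl (Sum.inl v) ::
        (X v ++ e v :: List.replicate (v + 1) d).map Sum.inr := by
    intro v
    have hc : (pad K d e v).map (fun a => (a, false)) = List.replicate (v + 1) (d, false) ++
        (code (d, false) (e v, false) (List.range' (2 + K * v) K) ++
          List.replicate (v + 1) (d, false)) := by
      simp [pad, code, List.map_flatMap]
    have h1 : F (Sum.inl 1) = none := by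
      have : ¬ (1 = ι ((1 - 2) / K)) := fun h1 => by have := hι1 ((1 - 2) / K); omega
      simp only [F, J, Sum.elim_inl, if_neg this, Option.map_none]
    have hr : ∀ i, (List.replicate i (Sum.inr (d, false))).filterMap F =
        List.replicate i (Sum.inr d) := by
      intro i
      exact List.filterMap_replicate_of_some (f := F) rfl
    have hE : F (Sum.inr (e v, false)) = some (Sum.inr (e v)) := rfl
    have hι : F (Sum.inl (ι v)) = some (Sum.inl (Sum.inl v)) := by
      simp [F, J, hdiv v _ (hι1 v) (hι2 v)]
    have hnd : (b1 v ++ ι v :: b2 v).Nodup := hb v ▸ List.nodup_range'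
    have hk : ∀ l : List ℕ, (∀ j ∈ l, j ∈ b1 v ++ ι v :: b2 v ∧ j ≠ ι v) →
        (l.flatMap (fun b => Sum.inl 1 :: (List.replicate b (Sum.inr (d, false)) ++
          [Sum.inl b, Sum.inr (e v, false)]))).filterMap F =
        (l.flatMap (fun b => List.replicate b d ++ [e v])).map Sum.inr := by
      intro l hl
      rw [List.filterMap_flatMap, List.map_flatMap]
      apply List.flatMap_congr
      intro j hj
      have hj1 := (hl j hj).1
      rw [← hb, List.mem_range'_1] at hj1
      have : F (Sum.inl j) = none := by simp [F, J, hdiv v _ hj1.1 hj1.2, (hl j hj).2]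
      simp [h1, hr, this, hE]
    have k1 := hk (b1 v) (fun j hj => ⟨List.mem_append_left _ hj, fun e =>
      (List.nodup_append.1 hnd).2.2 j hj _ List.mem_cons_self e⟩)
    have k2 := hk (b2 v) (fun j hj => ⟨List.mem_append_right _ (List.mem_cons_of_mem _ hj), fun e =>
      (List.nodup_cons.1 (List.nodup_append.1 hnd).2.1).1 (e ▸ hj)⟩)
    rw [hc, runs_padded _ _ (by simpa using he v) v _
      (fun b hb => by rw [List.mem_range'_1] at hb; omega), hb, List.flatMap_append,
      List.flatMap_cons]
    simp only [List.filterMap_append, List.filterMap_cons, hr, hE, h1, hι, k1, k2,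
      List.filterMap_nil]
    have k3 : X v ++ e v :: List.replicate (v + 1) d = (X v ++ [e v]) ++
        List.replicate (v + 1) d := by simp
    rw [k3, ← hX2]
    simp [P']
  let T : ℕ → List ((ℕ ⊕ A) ⊕ A) := fun y =>
    (runs none ((τ y).map (fun a => (a, false)))).filterMap F
  have hTr : ∀ y, (T y).filterMap Sum.getRight? = τ y := by
    intro y
    have h1 := runs_letters ((τ y).map (fun a => (a, false))) none
    have h2 : τ y = ((runs none ((τ y).map (fun a => (a, false)))).filterMap
        Sum.getRight?).map Prod.fst := by rw [h1]; simp [Function.comp_def]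
    rw [h2, List.map_filterMap, List.filterMap_filterMap]
    apply List.filterMap_congr
    intro ev hev
    cases ev with
    | inl n => cases hJ : J n <;> simp [F, hJ]
    | inr p =>
      have hp : p ∈ (τ y).map (fun a => (a, false)) := by
        rw [← h1]; exact List.mem_filterMap.2 ⟨_, hev, rfl⟩
      obtain ⟨b, _, rfl⟩ := List.mem_map.1 hp
      simp [F]
  let θ : ℕ → List ℕ := fun y =>
    (runs none ((τ y).map (fun a => (a, false)))).filterMap (Sum.elim J (fun _ => none))
  have hTl : ∀ y, (T y).filterMap Sum.getLeft? = (θ y).map Sum.inl := by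
    intro y
    rw [List.map_filterMap, List.filterMap_filterMap]
    apply List.filterMap_congr
    intro ev hev
    cases ev with
    | inl n => cases hJ : J n <;> simp [F, hJ]
    | inr p =>
      have hp : p ∈ (τ y).map (fun a => (a, false)) := by
        rw [← runs_letters ((τ y).map (fun a => (a, false))) none]
        exact List.mem_filterMap.2 ⟨_, hev, rfl⟩
      obtain ⟨b, _, rfl⟩ := List.mem_map.1 hp
      simp [F]
  have hθ : α.flatMap (hat θ) = α := by
    have h1 := congrArg (List.filterMap Sum.getLeft?) e1
    rw [List.filterMap_flatMap, List.filterMap_flatMap] at h1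
    refine Eq.trans (Eq.trans ?_ h1) ?_
    · apply List.flatMap_congr
      intro s _
      cases s with
      | inl y => exact (hTl y).symm
      | inr a => simp [hat, runs, F]
    · conv_rhs => rw [← List.flatMap_singleton' α]
      apply List.flatMap_congr
      intro s _
      cases s with
      | inl y => simp only [Sum.elim_inl]; rw [hS]; simp [List.filterMap_map]
      | inr a => simp [runs, F]
  have hsp : ∀ v, ∃ p s : List A, v ∈ vr α →
      T v = p.map Sum.inr ++ Sum.inl (Sum.inl v) :: s.map Sum.inr := by
    intro v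
    by_cases hv : v ∈ vr α
    · obtain ⟨p, s, h⟩ := split_tok (T v) (Sum.inl v) (by rw [hTl, hp θ hθ v hv]; rfl)
      exact ⟨p, s, fun _ => h⟩
    · exact ⟨[], [], fun h => absurd h hv⟩
  choose p s hps using hsp
  refine ⟨Sum.elim s (fun _ => []), Sum.elim p (fun _ => []),
    Sum.elim (fun v => X v ++ e v :: List.replicate (v + 1) d) (fun _ => []),
    Sum.elim (fun v => List.replicate (v + 1) d ++ e v :: P' v) (fun _ => []), P', X,
    ?_, fun _ => rfl, fun _ => rfl, ?_, fun _ => ⟨rfl, rfl, rfl, rfl⟩, ?_⟩
  · intro v hv
    rw [← hTr, hps v hv]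
    simp [List.filterMap_map]
  · intro v c hc
    simp only [P', List.mem_append] at hc
    rcases hc with (hc | hc) | hc
    · exact blocks_mem _ _ _ c hc
    · exact Or.inl (List.eq_of_mem_replicate hc)
    · exact hX1 v c hc
  · apply sync id
    simp only [List.flatMap_append, Sum.elim_inr, List.map_nil, List.nil_append]
    congr 1
    refine Eq.trans (Eq.trans ?_ e1) ?_
    · apply List.flatMap_congr
      intro a ha
      cases a with
      | inl y => exact (hps y ((mem_vr α y).2 ha)).symm
      | inr a => simp [runs, F]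
    · apply List.flatMap_congr
      intro a _
      cases a with
      | inl y => exact hS y
      | inr a => simp [runs, F]

/-- In every parse of the padded code word a letter other than `d` lies in the image of `v`
exactly when it is the code letter of `v`. -/
theorem pad_letters (α : List (ℕ ⊕ A)) (hp : Prim α) (d : A) (e : ℕ → A) (he : ∀ v, e v ≠ d)
    (K : ℕ) (hK : 4 * α.length < K) (τ : ℕ → List A) (h : lift (pad K d e) α = lift τ α) :
    ∀ v ∈ vr α, e v ∈ τ v ∧ ∀ c ∈ τ v, c = d ∨ c = e v := by
  obtain ⟨s, p, Q, P, P', Q', h1, h2, h3, h4, h5, h6⟩ := decS α d hp d e he K hK τ h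
  have hA := spill α d hp s p Q P d e P' he h2 (fun a => (h5 a).1) (fun a => (h5 a).2.2.2) h6
  have hB := spill α.reverse d hp.reverse (fun a => (p a).reverse) (fun a => (s a).reverse)
    (fun a => (P a).reverse) (fun a => (Q a).reverse) d e (fun v => (Q' v).reverse) he
    (fun v => by simp [h3]) (fun a => by simp [(h5 a).2.1]) (fun a => by simp [(h5 a).2.2.1]) (by
      have e1 : Sum.inr d :: (α.reverse ++ [Sum.inr d]) =
          (Sum.inr d :: (α ++ [Sum.inr d])).reverse := by simp
      rw [e1, List.isChain_reverse]
      refine h6.imp (fun a b hab => ?_)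
      rw [← List.reverse_append, ← List.reverse_append, hab])
  have hB' : ∀ v ∈ vr α, (Q' v).length < (s (Sum.inl v)).length := by
    intro v hv
    simpa using hB v (by rw [mem_vr] at hv ⊢; exact List.mem_reverse.2 hv)
  rw [List.isChain_iff_forall_rel_of_append_cons_cons] at h6
  intro v hv
  obtain ⟨l1, l2, hl⟩ := List.append_of_mem ((mem_vr α v).1 hv)
  have hpre : ∃ a m1, Sum.inr d :: l1 = m1 ++ [a] := by
    rcases List.eq_nil_or_concat (Sum.inr d :: l1) with h | ⟨m1, a, h⟩
    · simp at h
    · exact ⟨a, m1, by simpa using h⟩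
  obtain ⟨a, m1, ha⟩ := hpre
  obtain ⟨b, m2, hb⟩ := List.exists_cons_of_ne_nil (l := l2 ++ [Sum.inr d]) (by simp)
  have ea := h6 (a := a) (b := Sum.inl v) (l₁ := m1) (l₂ := l2 ++ [Sum.inr d]) (by
    rw [hl, List.append_assoc, ← List.cons_append, ha]; simp)
  have eb := h6 (a := Sum.inl v) (b := b) (l₁ := Sum.inr d :: l1) (l₂ := m2) (by
    rw [hl, ← hb]; simp)
  have hPm : ∀ c ∈ P (Sum.inl v), c = d ∨ c = e v := by
    intro c hc
    simp only [h2, List.mem_append, List.mem_cons] at hc
    rcases hc with hc | hc | hc
    · exact Or.inl (List.eq_of_mem_replicate hc)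
    · exact Or.inr hc
    · exact h4 v c (List.mem_append_left _ hc)
  have hQm : ∀ c ∈ Q (Sum.inl v), c = d ∨ c = e v := by
    intro c hc
    simp only [h3, List.mem_append, List.mem_cons] at hc
    rcases hc with hc | hc | hc
    · exact h4 v c (List.mem_append_right _ hc)
    · exact Or.inr hc
    · exact Or.inl (List.eq_of_mem_replicate hc)
  rw [h1 v hv]
  constructor
  · have : e v :: P' v <:+ p (Sum.inl v) := by
      apply List.suffix_of_suffix_length_le (l₃ := s a ++ p (Sum.inl v))
      · rw [ea, h2, ← List.append_assoc]; exact List.suffix_append _ _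
      · exact List.suffix_append _ _
      · exact hA v hv
    exact List.mem_append_left _ (this.subset List.mem_cons_self)
  · intro c hc
    rcases List.mem_append.1 hc with hc | hc
    · cases a with
      | inr a => rw [(h5 a).1, (h5 a).2.2.1, List.nil_append, List.nil_append] at ea
                 exact hPm c (ea ▸ hc)
      | inl u =>
        have hu : u ∈ vr α := by
          have : Sum.inl u ∈ Sum.inr d :: l1 := by rw [ha]; simp
          rw [mem_vr, hl]
          exact List.mem_append_left _ (by simpa using this)
        have : p (Sum.inl v) <:+ List.replicate (u + 1) d ++ P (Sum.inl v) := by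
          apply List.suffix_of_suffix_length_le (l₃ := s (Sum.inl u) ++ p (Sum.inl v))
          · exact List.suffix_append _ _
          · rw [ea, h3]; exact ⟨Q' u ++ [e u], by simp⟩
          · have g1 := congrArg List.length ea
            have g2 := hB' u hu
            simp only [h3, List.length_append, List.length_cons] at g1 ⊢
            omega
        rcases List.mem_append.1 (this.subset hc) with h | h
        · exact Or.inl (List.eq_of_mem_replicate h)
        · exact hPm c h
    · cases b with
      | inr b => rw [(h5 b).2.1, (h5 b).2.2.2, List.append_nil, List.append_nil] at eb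
                 exact hQm c (eb ▸ hc)
      | inl u =>
        have hu : u ∈ vr α := by
          have : Sum.inl u ∈ l2 ++ [Sum.inr d] := by rw [hb]; simp
          rw [mem_vr, hl]
          exact List.mem_append_right _ (List.mem_cons_of_mem _ (by simpa using this))
        have : s (Sum.inl v) <+: Q (Sum.inl v) ++ List.replicate (u + 1) d := by
          apply List.prefix_of_prefix_length_le (l₃ := s (Sum.inl v) ++ p (Sum.inl u))
          · exact List.prefix_append _ _
          · rw [eb, h2]; exact ⟨e u :: P' u, by simp⟩
          · have g1 := congrArg List.length eb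
            have g2 := hA u hu
            simp only [h2, List.length_append, List.length_cons] at g1 ⊢
            omega
        rcases List.mem_append.1 (this.subset hc) with h | h
        · exact hQm c h
        · exact Or.inl (List.eq_of_mem_replicate h)

end Pool.Agent.Lib.MP_d6d0a6_lc.Freq
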