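import Mathlib
import Pool.Agent.Lib.MP_d6d0a6_lc.FSync

set_option autoImplicit false

namespace Pool.Agent.Lib.MP_d6d0a6_lc.Freq

variable {A : Type}

/-- Length bound for the tell-tale words. -/
def bnd (n : ℕ) : ℕ := n * (2 * n + (1 + (4 * n + 1) * (2 + (4 * n + 1) * n)))

theorem mem_tm (α : List (ℕ ⊕ A)) (a : A) : a ∈ tm α ↔ Sum.inr a ∈ α := by
  simp only [tm, List.mem_filterMap]
  constructor
  · rintro ⟨s, hs, e⟩
    cases s with
    | inr u => simp only [Sum.getRight?_inr, Option.some.injEq] at e; exact e ▸ hs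
    | inl a => simp at e
  · intro h; exact ⟨_, h, rfl⟩

theorem vr_hat (θ : ℕ → List ℕ) (α : List (ℕ ⊕ A)) :
    vr (α.flatMap (hat θ)) = (vr α).flatMap θ := by
  induction α with
  | nil => rfl
  | cons s α ih =>
    simp only [vr, List.flatMap_cons, List.filterMap_append] at ih ⊢
    rw [ih]
    cases s <;> simp [hat, List.filterMap_map]

theorem two_counts (f : ℕ → ℕ) (x v : ℕ) (h : x ≠ v) (l : List ℕ) :
    l.count x * f x + l.count v * f v ≤ (l.map f).sum := by
  induction l with
  | nil => simp
  | cons a l ih =>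
    simp only [List.map_cons, List.sum_cons]
    by_cases h1 : a = x
    · subst h1
      rw [List.count_cons_self, List.count_cons_of_ne h, Nat.succ_mul]; omega
    · by_cases h2 : a = v
      · subst h2
        rw [List.count_cons_self, List.count_cons_of_ne h1, Nat.succ_mul]; omega
      · rw [List.count_cons_of_ne h1, List.count_cons_of_ne h2]; omega

theorem sum_ind (y : ℕ) (l : List ℕ) :
    (l.map (fun z => if z = y then 1 else 0)).sum = l.count y := by
  induction l with
  | nil => rfl
  | cons a l ih =>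
    by_cases h : a = y
    · subst h; simp [ih, Nat.add_comm]
    · simp [ih, h]

variable [DecidableEq A]

/-- The short words of a language form a tell-tale against all quasi-terminal-free patterns of
small variable frequency. -/
theorem telltale [Fintype A] (m : ℕ) (hm : m < 2 * ((Fintype.card A - 1) / 2))
    (α β : List (ℕ ⊕ A)) (c d : A) (hcd : c ≠ d) (hc : Sum.inr c ∉ β) (hd : Sum.inr d ∉ β)
    (hβ : ∀ v, (vr β).count v ≤ m)
    (h1 : ∀ w ∈ lang α, w.length ≤ bnd (sz α) → w ∈ lang β) (h2 : lang β ⊆ lang α) :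
    lang β = lang α := by
  classical
  obtain ⟨α0, hs, hl, hp⟩ := exists_prim α.length α le_rfl
  have hvs : (vr α0).Sublist (vr α) := hs.filterMap _
  have hlen : α0.length ≤ sz α := hs.length_le.trans (length_le_sz α)
  have hshort : ∀ σ : ℕ → List A, (∀ v ∈ vr α0, (σ v).length ≤
      2 * sz α + (1 + (4 * sz α + 1) * (2 + (4 * sz α + 1) * sz α))) → sub σ α0 ∈ lang β := by
    intro σ hσ
    apply h1 _ (hl ▸ ⟨σ, rfl⟩)
    exact (sub_length σ _ (by omega) α0 hσ).trans (Nat.mul_le_mul_right _ hlen)
  rw [← hl] at h2 ⊢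
  have ht : tm β = tm α0 := by
    apply tm_eq
    · exact h2 ⟨fun _ => [], (sub_nil β).symm⟩
    · rw [← sub_nil]; exact hshort _ (by simp)
  have hc0 : ∀ v, Free α0 v c := fun v => free_of_not_mem _ _ _ (by
    rw [← mem_tm, ← ht, mem_tm]; exact hc)
  have hd0 : ∀ v, Free α0 v d := fun v => free_of_not_mem _ _ _ (by
    rw [← mem_tm, ← ht, mem_tm]; exact hd)
  obtain ⟨a0, -, ha1, ha2⟩ := exists_free ([] : List (ℕ ⊕ A)) 0 c d (by simp [vr]; omega)
  obtain ⟨φ, hφ⟩ := inc β α0 a0 (fun _ => d) (fun _ => c) (fun _ => hcd) (fun _ => ha2.symm)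
    (fun _ => ha1.symm) (fun v => free_of_not_mem _ _ _ hd) (fun v => free_of_not_mem _ _ _ hc)
    ht h2
  have hx : ∀ x, ∃ χ : ℕ → ℕ, x ∈ vr α0 → ∀ v ∈ vr α0, ((φ v).map χ).sum = [v].count x := by
    intro x
    by_cases hN : ∃ a, Free α0 x a ∧ a ≠ c ∧ a ≠ d
    · obtain ⟨a, ha, q1, q2⟩ := hN
      obtain ⟨τ, hτ⟩ := (mem_lang _ _).1 (hshort
        (cod (4 * sz α + 1) x a (fun _ => d) (fun _ => c)) (fun v hv =>
          (cod_length _ x _ a _ _ v (lt_sz α v (hvs.subset hv))).trans (Nat.le_add_left _ _)))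
      rw [← hφ, sub_hat] at hτ
      obtain ⟨θ, hθ, hcn⟩ := dec α0 α0 x a (fun _ => d) (fun _ => c) (4 * sz α + 1) (by omega)
        (fun _ => hcd) (fun _ => q2.symm) (fun _ => q1.symm) _
        (align _ _ α0 α0 (cod_free α0 _ x a _ _ ha hd0 hc0) rfl hτ)
      refine ⟨fun y => (τ y).count a, fun _ v hv => ?_⟩
      rw [← hp θ hθ v hv, hcn v, List.count_flatMap]
      rfl
    · have hex : ∀ v, ∃ a, Free α0 v a ∧ a ≠ d ∧
          (a = c ↔ ¬ ∃ a, Free α0 v a ∧ a ≠ c ∧ a ≠ d) := by
        intro v
        by_cases h : ∃ a, Free α0 v a ∧ a ≠ c ∧ a ≠ d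
        · obtain ⟨a, q1, q2, q3⟩ := h
          exact ⟨a, q1, q3, fun e => absurd e q2, fun e => absurd ⟨a, q1, q2, q3⟩ e⟩
        · exact ⟨c, hc0 v, hcd, fun _ => h, fun _ => rfl⟩
      choose e he1 he2 he3 using hex
      have hbig : ∀ v, c = e v → Fintype.card A ≤ 2 * (vr α0).count v + 2 := by
        intro v hv
        by_contra hcon
        exact (he3 v).1 hv.symm (exists_free α0 v c d (by omega))
      obtain ⟨τ, hτ⟩ := (mem_lang _ _).1 (hshort (pad (4 * sz α + 1) d e) (fun v hv => by
        have g1 := lt_sz α v (hvs.subset hv)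
        have g2 := cod_length (4 * sz α + 1) (v + 1) _ c (fun _ => d) e v g1
        simp only [cod, Nat.left_eq_add, one_ne_zero, if_false] at g2
        simp only [pad, List.length_append, List.length_replicate]
        omega))
      rw [← hφ, sub_hat] at hτ
      have hfree : ∀ v, ∀ a ∈ pad (4 * sz α + 1) d e v, Free α0 v a := by
        intro v a ha
        simp only [pad, code, List.mem_append, List.mem_cons] at ha
        rcases ha with ha | (ha | ha) | ha
        · rw [List.eq_of_mem_replicate ha]; exact hd0 v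
        · rw [ha]; exact he1 v
        · rcases blocks_mem _ _ _ a ha with h | h
          · rw [h]; exact hd0 v
          · rw [h]; exact he1 v
        · rw [List.eq_of_mem_replicate ha]; exact hd0 v
      have hL := pad_letters α0 hp d e he2 (4 * sz α + 1) (by omega) _
        (align _ _ α0 α0 hfree rfl hτ)
      by_cases hxv : x ∈ vr α0
      swap
      · exact ⟨fun _ => 0, fun h => absurd h hxv⟩
      have hex : c = e x := ((he3 x).2 hN).symm
      obtain ⟨y, hy, hcy⟩ := List.mem_flatMap.1 (hL x hxv).1
      rw [← hex] at hcy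
      have hcount := hβ y
      rw [← hφ, vr_hat, List.count_flatMap] at hcount
      have hy1 := List.count_pos_iff.2 hy
      have hbx := hbig x hex
      refine ⟨fun z => if z = y then 1 else 0, fun _ v hv => ?_⟩
      rw [sum_ind]
      by_cases hvx : v = x
      · subst hvx
        rw [List.count_cons_self, List.count_nil]
        by_contra hcon
        have g1 := two_counts (List.count y ∘ φ) v (v + 1) (by omega) (vr α0)
        have g2 : (vr α0).count v * 2 ≤ (vr α0).count v * (List.count y ∘ φ) v :=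
          Nat.mul_le_mul_left _ (by simp only [Function.comp]; omega)
        omega
      · rw [List.count_cons_of_ne hvx, List.count_nil, List.count_eq_zero]
        intro hyv
        have g0 : c = e v :=
          ((hL v hv).2 c (List.mem_flatMap.2 ⟨y, hyv, hcy⟩)).resolve_left hcd
        have hbv := hbig v g0
        have g1 := two_counts (List.count y ∘ φ) v x hvx (vr α0)
        have g2 : (vr α0).count v * 1 ≤ (vr α0).count v * (List.count y ∘ φ) v :=
          Nat.mul_le_mul_left _ (List.count_pos_iff.2 hyv)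
        have g3 : (vr α0).count x * 1 ≤ (vr α0).count x * (List.count y ∘ φ) x :=
          Nat.mul_le_mul_left _ hy1
        omega
  choose χ hχ using hx
  obtain ⟨ψ, hψ⟩ := left_inv (vr α0) φ χ hχ
  apply Set.Subset.antisymm h2
  have e1 : β.flatMap (hat ψ) = α0 := by rw [← hφ, hat_hat, hat_id _ _ hψ]
  have := lang_hat ψ β
  rwa [e1] at this

section Learner

variable (k : ℕ)

/-- A list containing all words of length at most `l`. -/
def words (l : ℕ) : List (List (Fin k)) :=
  (fun W => [] :: W.flatMap (fun w => (List.finRange k).map (fun c => c :: w)))^[l] [[]]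

/-- A list containing all `V`-tuples of words of length at most `l`. -/
def tuples (V l : ℕ) : List (List (List (Fin k))) :=
  (fun S => S.flatMap (fun a => (words k l).map (fun w => w :: a)))^[V] [[]]

/-- A finite part of the language of `α` containing all its words of length at most `l`. -/
def gen (α : List (ℕ ⊕ Fin k)) (l : ℕ) : List (List (Fin k)) :=
  (tuples k (sz α) l).map (fun a => sub (fun v => a.getD v []) α)

def check (α : List (ℕ ⊕ Fin k)) (D : List (List (Fin k))) : Prop :=
  (∀ w ∈ D, w ∈ gen k α w.length) ∧ ∀ w ∈ gen k α (bnd (sz α)), w ∈ D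

def pat (i : ℕ) : List (ℕ ⊕ Fin k) := (Encodable.decode (α := List (ℕ ⊕ Fin k)) i).getD []

open Classical in
/-- The learner: the first pattern that is consistent and whose short words have all been seen. -/
noncomputable def learner (D : List (List (Fin k))) : List (ℕ ⊕ Fin k) :=
  pat k ((List.range D.length).findIdx (fun i => decide (check k (pat k i) D)))

theorem mem_words : ∀ (l : ℕ) (w : List (Fin k)), w.length ≤ l → w ∈ words k l := by
  intro l
  induction l with
  | zero => intro w h; simp [words, List.eq_nil_of_length_eq_zero (Nat.le_zero.1 h)]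
  | succ l ih =>
    intro w h
    rw [words, Function.iterate_succ_apply']
    cases w with
    | nil => exact List.mem_cons_self
    | cons c w =>
      exact List.mem_cons_of_mem _ (List.mem_flatMap.2 ⟨w, ih w (by simpa using h),
        List.mem_map.2 ⟨c, List.mem_finRange c, rfl⟩⟩)

theorem mem_tuples (l : ℕ) (a : List (List (Fin k))) (h : ∀ w ∈ a, w.length ≤ l) :
    a ∈ tuples k a.length l := by
  induction a with
  | nil => simp [tuples]
  | cons w a ih =>
    rw [tuples, List.length_cons, Function.iterate_succ_apply']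
    exact List.mem_flatMap.2 ⟨a, ih (fun u hu => h u (List.mem_cons_of_mem _ hu)),
      List.mem_map.2 ⟨w, mem_words k l w (h w List.mem_cons_self), rfl⟩⟩

theorem gen_sub (α : List (ℕ ⊕ Fin k)) (l : ℕ) (w : List (Fin k)) (h : w ∈ gen k α l) :
    w ∈ lang α := by
  obtain ⟨a, _, rfl⟩ := List.mem_map.1 h
  exact ⟨_, rfl⟩

theorem mem_gen (α : List (ℕ ⊕ Fin k)) (l : ℕ) (w : List (Fin k)) (h : w ∈ lang α)
    (hl : w.length ≤ l) : w ∈ gen k α l := by
  obtain ⟨σ, rfl⟩ := (mem_lang _ _).1 h
  let a := (List.range (sz α)).map (fun v => if v ∈ vr α then σ v else [])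
  have ha : a.length = sz α := by simp [a]
  refine List.mem_map.2 ⟨a, ha ▸ mem_tuples k l a ?_, ?_⟩
  · intro u hu
    obtain ⟨v, _, rfl⟩ := List.mem_map.1 hu
    split_ifs with hv
    · obtain ⟨l1, l2, e⟩ := List.append_of_mem ((mem_vr α v).1 hv)
      rw [e] at hl
      simp only [sub, List.flatMap_append, List.flatMap_cons, List.length_append,
        Sum.elim_inl] at hl
      omega
    · simp
  · apply List.flatMap_congr
    intro s hs
    cases s with
    | inl v =>
      have hv := (mem_vr α v).2 hs
      have := lt_sz α v hv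
      simp [a, List.getD_eq_getElem?_getD, this, hv]
    | inr c => rfl

theorem words_prim : Primrec (words k) :=
  Primrec.nat_iterate Primrec.id (Primrec.const [[]])
    (h := fun (_ : ℕ) (W : List (List (Fin k))) =>
      [] :: W.flatMap (fun w => (List.finRange k).map (fun c => c :: w)))
    (Primrec.list_cons.comp (Primrec.const []) (Primrec.list_flatMap Primrec.snd
      (Primrec.list_map (Primrec.const (List.finRange k))
        (Primrec.list_cons.comp Primrec.snd (Primrec.snd.comp Primrec.fst)).to₂).to₂)).to₂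

theorem tuples_prim : Primrec₂ (tuples k) :=
  Primrec.nat_iterate Primrec.fst (Primrec.const [[]])
    (h := fun (p : ℕ × ℕ) (S : List (List (List (Fin k)))) =>
      S.flatMap (fun a => (words k p.2).map (fun w => w :: a)))
    (Primrec.list_flatMap Primrec.snd
      (Primrec.list_map ((words_prim k).comp (Primrec.snd.comp (Primrec.fst.comp Primrec.fst)))
        (Primrec.list_cons.comp Primrec.snd (Primrec.snd.comp Primrec.fst)).to₂).to₂).to₂

theorem sz_prim : Primrec (sz : List (ℕ ⊕ Fin k) → ℕ) := by
  have h1 : Primrec (fun s : ℕ ⊕ Fin k => (Sum.casesOn s (fun v => v + 1) (fun _ => 1) : ℕ)) :=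
    Primrec.sumCasesOn Primrec.id (Primrec.succ.comp Primrec.snd).to₂ (Primrec.const 1).to₂
  refine (Primrec.list_foldr (f := fun α : List (ℕ ⊕ Fin k) => α) (g := fun _ => 0)
    (h := fun _ p => (Sum.casesOn p.1 (fun v => v + 1) (fun _ => 1) : ℕ) + p.2)
    Primrec.id (Primrec.const 0) (Primrec.nat_add.comp (h1.comp (Primrec.fst.comp Primrec.snd))
      (Primrec.snd.comp Primrec.snd)).to₂).of_eq (fun α => ?_)
  induction α with
  | nil => rfl
  | cons s α ih =>
    simp only [sz, List.foldr_cons, List.map_cons, List.sum_cons] at ih ⊢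
    rw [ih]
    cases s <;> rfl

theorem gen_prim : Primrec₂ (gen k) := by
  have h1 : Primrec₂ (fun (a : List (List (Fin k))) (s : ℕ ⊕ Fin k) =>
      (Sum.casesOn s (fun v => a.getD v []) (fun c => [c]) : List (Fin k))) :=
    Primrec.sumCasesOn Primrec.snd
      ((Primrec.list_getD []).comp (Primrec.fst.comp Primrec.fst) Primrec.snd).to₂
      (Primrec.list_cons.comp Primrec.snd (Primrec.const [])).to₂
  have h2 : Primrec₂ (fun (α : List (ℕ ⊕ Fin k)) (a : List (List (Fin k))) =>
      sub (fun v => a.getD v []) α) :=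
    (Primrec.list_flatMap Primrec.fst
      (h1.comp (Primrec.snd.comp Primrec.fst) Primrec.snd).to₂).to₂.of_eq (fun α a => by
        apply List.flatMap_congr
        intro s _
        cases s <;> rfl)
  exact Primrec.list_map ((tuples_prim k).comp ((sz_prim k).comp Primrec.fst) Primrec.snd)
    (h2.comp (Primrec.fst.comp Primrec.fst) Primrec.snd).to₂

theorem bnd_prim : Primrec bnd := by
  have h4 : Primrec (fun n : ℕ => 4 * n + 1) :=
    Primrec.succ.comp (Primrec.nat_mul.comp (Primrec.const 4) Primrec.id)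
  exact Primrec.nat_mul.comp Primrec.id (Primrec.nat_add.comp
    (Primrec.nat_mul.comp (Primrec.const 2) Primrec.id) (Primrec.nat_add.comp (Primrec.const 1)
      (Primrec.nat_mul.comp h4 (Primrec.nat_add.comp (Primrec.const 2)
        (Primrec.nat_mul.comp h4 Primrec.id)))))

theorem check_prim : PrimrecRel (check k) := by
  have hm : PrimrecRel (fun (w : List (Fin k)) (L : List (List (Fin k))) => w ∈ L) :=
    ((PrimrecRel.exists_mem_list Primrec.eq).comp Primrec.snd Primrec.fst).of_eq
      (fun p => by simp)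
  have h1 : PrimrecRel (fun (w : List (Fin k)) (α : List (ℕ ⊕ Fin k)) =>
      w ∈ gen k α w.length) :=
    hm.comp Primrec.fst ((gen_prim k).comp Primrec.snd (Primrec.list_length.comp Primrec.fst))
  exact PrimrecPred.and (h1.forall_mem_list.comp Primrec.snd Primrec.fst)
    (hm.forall_mem_list.comp ((gen_prim k).comp Primrec.fst
      (bnd_prim.comp ((sz_prim k).comp Primrec.fst))) Primrec.snd)

theorem learner_comp : Computable (learner k) := by
  classical
  have hp : Primrec (pat k) := Primrec.option_getD.comp Primrec.decode (Primrec.const [])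
  have h1 : PrimrecRel (fun (D : List (List (Fin k))) (i : ℕ) => check k (pat k i) D) :=
    (check_prim k).comp (hp.comp Primrec.snd) Primrec.fst
  exact (hp.comp (Primrec.list_findIdx (Primrec.list_range.comp Primrec.list_length)
    h1.decide)).to_comp

theorem eventually_seen {W : Type} (t : ℕ → W) (l : List W) (h : ∀ w ∈ l, w ∈ Set.range t) :
    ∃ N, ∀ n ≥ N, ∀ w ∈ l, w ∈ (List.range n).map t := by
  induction l with
  | nil => exact ⟨0, by simp⟩
  | cons a l ih =>
    obtain ⟨N, hN⟩ := ih (fun w hw => h w (List.mem_cons_of_mem _ hw))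
    obtain ⟨i, rfl⟩ := h a List.mem_cons_self
    refine ⟨max N (i + 1), fun n hn w hw => ?_⟩
    rcases List.mem_cons.1 hw with rfl | hw
    · exact List.mem_map.2 ⟨i, List.mem_range.2 (by omega), rfl⟩
    · exact hN n (by omega) w hw

theorem learner_spec (β : List (ℕ ⊕ Fin k))
    (hT : ∀ α, (∀ w ∈ lang α, w.length ≤ bnd (sz α) → w ∈ lang β) → lang β ⊆ lang α →
      lang β = lang α) (t : ℕ → List (Fin k)) (ht : Set.range t = lang β) :
    ∃ γ, lang γ = lang β ∧ ∃ N, ∀ n ≥ N, learner k ((List.range n).map t) = γ := by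
  classical
  let G : ℕ → Prop := fun i =>
    lang β ⊆ lang (pat k i) ∧ ∀ w ∈ gen k (pat k i) (bnd (sz (pat k i))), w ∈ lang β
  have hG : ∃ i, G i := by
    refine ⟨Encodable.encode β, ?_⟩
    have : pat k (Encodable.encode β) = β := by simp [pat]
    simp only [G, this]
    exact ⟨Set.Subset.refl _, gen_sub k β _⟩
  have hbad : ∀ i, ∃ N, ¬ G i → ∀ n ≥ N, ¬ check k (pat k i) ((List.range n).map t) := by
    intro i
    by_cases h1 : lang β ⊆ lang (pat k i)
    · refine ⟨0, fun hg n _ hc => hg ⟨h1, fun w hw => ?_⟩⟩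
      obtain ⟨j, _, rfl⟩ := List.mem_map.1 (hc.2 w hw)
      rw [← ht]; exact ⟨j, rfl⟩
    · obtain ⟨w, hw1, hw2⟩ := Set.not_subset.1 h1
      rw [← ht] at hw1
      obtain ⟨j, rfl⟩ := hw1
      exact ⟨j + 1, fun _ n hn hc => hw2 (gen_sub k _ _ _
        (hc.1 _ (List.mem_map.2 ⟨j, List.mem_range.2 hn, rfl⟩)))⟩
  choose Nb hNb using hbad
  have h0 := Nat.find_spec hG
  obtain ⟨N1, hN1⟩ := eventually_seen t _ (fun w hw => ht ▸ h0.2 w hw)
  refine ⟨pat k (Nat.find hG),
    (hT _ (fun w hw hl => h0.2 w (mem_gen k _ _ w hw hl)) h0.1).symm,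
    max (max N1 (Nat.find hG + 1)) ((Finset.range (Nat.find hG)).sup Nb), fun n hn => ?_⟩
  have hn1 : Nat.find hG < n := by omega
  unfold learner
  congr 1
  rw [List.findIdx_eq (by simpa using hn1)]
  simp only [List.getElem_range, decide_eq_true_eq, decide_eq_false_iff_not]
  refine ⟨⟨fun w hw => ?_, hN1 n (by omega)⟩, fun j hj => hNb j (Nat.find_min hG hj) n ?_⟩
  · obtain ⟨j, _, rfl⟩ := List.mem_map.1 hw
    exact mem_gen k _ _ _ (h0.1 (ht ▸ ⟨j, rfl⟩)) le_rfl
  · exact (Finset.le_sup (f := Nb) (Finset.mem_range.2 hj)).trans (by omega)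

end Learner

end Pool.Agent.Lib.MP_d6d0a6_lc.Freq
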