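import Mathlib
import Pool.Agent.Lib.MP_d6d0a6_lc.FLearn

set_option autoImplicit false

namespace Pool.Agent.Lib.MP_d6d0a6_lc.Freq

variable {A B B' : Type}

/-- The chain of blocks. Slots of a block: `0` incoming token, `2`, `4` leaves, `3` link,
`7` inner token, the others occur once. -/
def blk (e : A → B) (q q' : List B) : List (A × A) → (ℕ → ℕ → List B) → List B
  | [], κ => κ 0 1 ++ (κ 0 0 ++ q')
  | c :: ps, κ => κ 0 1 ++ e c.1 :: ((κ 0 2 ++ q ++ κ 0 3 ++ κ 0 4) ++ e c.2 ::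
      ((κ 0 5 ++ q ++ κ 0 3) ++ e c.2 :: ((κ 0 6 ++ κ 0 0 ++ κ 0 7 ++ κ 0 2 ++ κ 0 8) ++ e c.2 ::
        ((κ 0 9 ++ κ 0 7 ++ κ 1 0 ++ κ 0 4 ++ κ 0 10) ++ e c.2 ::
          blk e q q' ps (fun i => κ (i + 1))))))

theorem blk_map (e : A → B) (e' : A → B') (f : B → List B') (hf : ∀ a, f (e a) = [e' a])
    (q q' : List B) (ps : List (A × A)) : ∀ κ : ℕ → ℕ → List B,
    (blk e q q' ps κ).flatMap f =
      blk e' (q.flatMap f) (q'.flatMap f) ps (fun i j => (κ i j).flatMap f) := by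
  induction ps with
  | nil => intro κ; simp [blk]
  | cons c ps ih => intro κ; simp [blk, hf, ih]

/-- New values for the first block. -/
def kc (L : List (List B)) (κ : ℕ → ℕ → List B) : ℕ → ℕ → List B
  | 0 => fun j => L.getD j []
  | i + 1 => κ i

theorem blk_released (q q' : List A) (ps : List (A × A)) : ∀ κ : ℕ → ℕ → List A,
    ∃ κ' : ℕ → ℕ → List A, κ' 0 0 = [] ∧ blk id q q' ps κ = blk id [] [] ps κ' := by
  induction ps with
  | nil => intro κ; exact ⟨kc [[], κ 0 1 ++ (κ 0 0 ++ q')] κ, rfl, by simp [blk, kc]⟩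
  | cons c ps ih =>
    intro κ
    obtain ⟨κ', h0, h1⟩ := ih (fun i => κ (i + 1))
    exact ⟨kc [[], κ 0 1, κ 0 2, q ++ κ 0 3, κ 0 4, κ 0 5, κ 0 6 ++ κ 0 0 ++ κ 0 7, [], κ 0 8,
      κ 0 9 ++ κ 0 7 ++ κ 1 0, κ 0 10] κ', rfl, by simp [blk, kc, h0, h1]⟩

/-- If the core contains a letter of the chain, the core can be erased. -/
theorem blk_hit (q q' : List A) (a : A) (ha : a ∈ q) (ps : List (A × A)) :
    ∀ κ : ℕ → ℕ → List A, (∃ c ∈ ps, a = c.1 ∨ a = c.2) →
    ∃ κ' : ℕ → ℕ → List A, κ' 0 0 = κ 0 0 ∧ blk id q q' ps κ = blk id [] [] ps κ' := by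
  obtain ⟨q1, q2, rfl⟩ := List.append_of_mem ha
  induction ps with
  | nil => intro κ h; simp at h
  | cons c ps ih =>
    intro κ h
    obtain ⟨κ', h0, h1⟩ := blk_released (q1 ++ a :: q2) q' ps (fun i => κ (i + 1))
    by_cases hl : a = c.1
    · exact ⟨kc [κ 0 0, κ 0 1 ++ a :: (κ 0 2 ++ q1), [], q2 ++ κ 0 3, κ 0 4, κ 0 5 ++ q1 ++ [a],
        κ 0 6, [], κ 0 7 ++ κ 0 2 ++ κ 0 8, κ 0 9 ++ κ 0 7 ++ κ 1 0, κ 0 10] κ', rfl,
        by simp [blk, kc, h0, h1, ← hl]⟩
    · by_cases hr : a = c.2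
      · exact ⟨kc [κ 0 0, κ 0 1, κ 0 2, q1, [], q2 ++ κ 0 3 ++ κ 0 4 ++ a :: κ 0 5,
          q2 ++ κ 0 3 ++ a :: κ 0 6, κ 0 7, κ 0 8, κ 0 9, κ 1 0 ++ κ 0 4 ++ κ 0 10] κ', rfl,
          by simp [blk, kc, h0, h1, ← hr]⟩
      · obtain ⟨c', hc', h2⟩ := h
        have hm : c' ∈ ps := (List.mem_cons.1 hc').resolve_left (by rintro rfl; tauto)
        obtain ⟨κ2, g0, g1⟩ := ih (fun i => κ (i + 1)) ⟨c', hm, h2⟩
        exact ⟨kc [κ 0 0, κ 0 1, κ 0 2, q1 ++ a :: q2 ++ κ 0 3, κ 0 4, κ 0 5, κ 0 6, κ 0 7, κ 0 8,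
          κ 0 9, κ 0 10] κ2, rfl, by simp [blk, kc, g0, g1]⟩

theorem cut_at (L1 R1 L2 R2 : List ℕ) (a : ℕ) (h : L1 ++ a :: R1 = L2 ++ a :: R2)
    (hn : (L2 ++ a :: R2).Nodup) : L1 = L2 ∧ R1 = R2 := by
  rw [← h] at hn
  have h1 : a ∉ L1 := fun hm => (List.nodup_append.1 hn).2.2 a hm a List.mem_cons_self rfl
  have h2 : a ∉ R1 := (List.nodup_cons.1 (List.nodup_append.1 hn).2.1).1
  have := (List.append_cons_inj_of_notMem h1 h2).1 h
  exact ⟨this.1, this.2.2⟩

theorem gate (S U S' : List ℕ) (s a u b s' : ℕ) (h : S ++ [a] ++ U ++ [b] ++ S' = [s, a, u, b, s'])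
    (hn : [s, a, u, b, s'].Nodup) : U = [u] := by
  have h1 := (cut_at S (U ++ b :: S') [s] [u, b, s'] a (by simpa using h) hn).2
  exact (cut_at U S' [u] [s'] b h1 (List.nodup_cons.1 (List.nodup_cons.1 hn).2).2).1

theorem only (l L : List ℕ) (p : ℕ) (hs : l.Sublist L) (hn : L.Nodup) (hp : p ∈ l)
    (h : ∀ a ∈ l, a = p) : l = [p] := by
  have h1 := hn.sublist hs
  rw [List.eq_replicate_iff.2 ⟨rfl, h⟩] at h1 ⊢
  have h2 := List.nodup_replicate.1 h1
  have h3 := List.length_pos_of_mem hp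
  rw [show l.length = 1 by omega]; rfl

theorem block_step (q P W G S1 S2 O1 S3 S4 O2 S5 : List ℕ) (f : ℕ → ℕ) (o2 : ℕ)
    (hf : ∀ i j, f i = f j ↔ i = j) (h3 : ∀ i, 3 ≤ f i) (ho : ∀ i, f i ≠ o2)
    (E1 : P ++ q ++ W ++ G = [f 2, 0, 1, 2, f 3, f 4]) (E2 : S1 ++ q ++ W = [f 5, 0, 1, 2, f 3])
    (E3 : S2 ++ [f 0] ++ O1 ++ P ++ S3 = [f 6, f 0, f 7, f 2, f 8])
    (E4 : S4 ++ O1 ++ O2 ++ G ++ S5 = [f 9, f 7, o2, f 4, f 10]) : O2 = [o2] := by
  have z : ∀ i, f i ≠ 0 ∧ f i ≠ 1 ∧ f i ≠ 2 := fun i => by have := h3 i; omega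
  have n3 : [f 6, f 0, f 7, f 2, f 8].Nodup := by simp [hf]
  have n4 : [f 9, f 7, o2, f 4, f 10].Nodup := by simp [hf, ho, (ho _).symm]
  have m1 : ∀ a, a ∈ P ∨ a ∈ q ∨ a ∈ W ∨ a ∈ G ↔ a ∈ [f 2, 0, 1, 2, f 3, f 4] := by
    intro a; rw [← E1]; simp
  have m2 : ∀ a, a ∈ q ∨ a ∈ W → a ∈ [f 5, 0, 1, 2, f 3] := by
    intro a ha; rw [← E2]; simp only [List.mem_append]; tauto
  have s3 : P.Sublist [f 6, f 0, f 7, f 2, f 8] :=
    E3 ▸ (List.sublist_append_right _ _).trans (List.sublist_append_left _ _)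
  have s4 : G.Sublist [f 9, f 7, o2, f 4, f 10] :=
    E4 ▸ (List.sublist_append_right _ _).trans (List.sublist_append_left _ _)
  have hP : P = [f 2] := by
    apply only P _ _ s3 n3
    · rcases (m1 (f 2)).2 (by simp) with h | h | h | h
      · exact h
      · simpa [hf, z] using m2 _ (Or.inl h)
      · simpa [hf, z] using m2 _ (Or.inr h)
      · simpa [hf, ho] using s4.subset h
    · intro a ha
      have g1 := (m1 a).1 (Or.inl ha)
      have g2 := s3.subset ha
      simp only [List.mem_cons, List.not_mem_nil, or_false] at g2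
      rcases g2 with rfl | rfl | rfl | rfl | rfl <;> simp [hf, z] at g1 ⊢
  have hG : G = [f 4] := by
    apply only G _ _ s4 n4
    · rcases (m1 (f 4)).2 (by simp) with h | h | h | h
      · simpa [hf] using s3.subset h
      · simpa [hf, z] using m2 _ (Or.inl h)
      · simpa [hf, z] using m2 _ (Or.inr h)
      · exact h
    · intro a ha
      rw [hP] at E1
      have g1 : a ∈ [f 3, f 4, 0, 1, 2, f 2] := by
        have := (m1 a).1 (Or.inr (Or.inr (Or.inr ha)))
        simp only [List.mem_cons, List.not_mem_nil, or_false] at this ⊢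
        tauto
      by_contra hne
      have g3 : f 4 ∈ G := by
        rcases (m1 (f 4)).2 (by simp) with h | h | h | h
        · simpa [hf] using s3.subset h
        · simpa [hf, z] using m2 _ (Or.inl h)
        · simpa [hf, z] using m2 _ (Or.inr h)
        · exact h
      have g4 : G <:+ [f 2, 0, 1, 2, f 3, f 4] := E1 ▸ List.suffix_append _ _
      have g5 : f 3 ∈ G := by
        have g6 : [f 3, f 4] <:+ G := by
          apply List.suffix_of_suffix_length_le _ g4
          · rcases G with _ | ⟨b, _ | ⟨b', G⟩⟩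
            · simp at ha
            · simp only [List.mem_singleton] at ha g3
              exact absurd (ha.trans g3.symm) hne
            · simp
          · exact ⟨[f 2, 0, 1, 2], rfl⟩
        exact g6.subset List.mem_cons_self
      simpa [hf, ho] using s4.subset g5
  rw [hP] at E3
  rw [gate _ _ _ _ _ _ _ _ E3 n3, hG] at E4
  exact gate _ _ _ _ _ _ _ _ E4 n4

theorem blk_rigid (q q' : List ℕ) (ps : List (A × A)) : ∀ (κ : ℕ → ℕ → List ℕ) (nm : ℕ → ℕ → ℕ),
    (∀ i j i' j', nm i j = nm i' j' ↔ i = i' ∧ j = j') → (∀ i j, 3 ≤ nm i j) →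
    κ 0 0 = [nm 0 0] →
    blk Sum.inr (q.map Sum.inl) (q'.map Sum.inl) ps (fun i j => (κ i j).map Sum.inl) =
      blk Sum.inr ([0, 1, 2].map Sum.inl) ([1, 0, 2].map Sum.inl) ps
        (fun i j => [nm i j].map Sum.inl) →
    q' = [1, 0, 2] ∧ (ps ≠ [] → ∃ U V a b, 3 ≤ a ∧ 3 ≤ b ∧ U ++ q ++ V = [a, 0, 1, 2, b]) := by
  have h0 : ∀ l : List ℕ, (l.map (Sum.inl : ℕ → ℕ ⊕ A)).countP Sum.isRight = 0 := by
    intro l; simp
  have hi : ∀ l l' : List ℕ, l.map (Sum.inl : ℕ → ℕ ⊕ A) = l'.map Sum.inl → l = l' :=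
    fun l l' h => List.map_injective_iff.2 Sum.inl_injective h
  induction ps with
  | nil =>
    intro κ nm hn h3 hk h
    simp only [blk, ← List.map_append, hk] at h
    refine ⟨(cut_at (κ 0 1) q' [nm 0 1] [1, 0, 2] (nm 0 0) (hi _ _ h) ?_).2, by simp⟩
    have := h3 0 0
    have := h3 0 1
    simp [hn]; omega
  | cons c ps ih =>
    intro κ nm hn h3 hk h
    simp only [blk, ← List.map_append] at h
    obtain ⟨-, h⟩ := cancel_sep Sum.isRight _ _ _ _ _ _ (h0 _) (h0 _) rfl rfl h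
    obtain ⟨E1, h⟩ := cancel_sep Sum.isRight _ _ _ _ _ _ (h0 _) (h0 _) rfl rfl h
    obtain ⟨E2, h⟩ := cancel_sep Sum.isRight _ _ _ _ _ _ (h0 _) (h0 _) rfl rfl h
    obtain ⟨E3, h⟩ := cancel_sep Sum.isRight _ _ _ _ _ _ (h0 _) (h0 _) rfl rfl h
    obtain ⟨E4, h⟩ := cancel_sep Sum.isRight _ _ _ _ _ _ (h0 _) (h0 _) rfl rfl h
    have E3' := hi _ _ E3
    rw [hk] at E3'
    have hs := block_step q _ _ _ _ _ _ _ _ _ _ (nm 0) (nm 1 0) (by simp [hn]) (h3 0)
      (by simp [hn]) (hi _ _ E1) (hi _ _ E2) E3' (hi _ _ E4)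
    exact ⟨(ih (fun i => κ (i + 1)) (fun i => nm (i + 1)) (by simp [hn]) (fun i => h3 (i + 1))
      hs h).1, fun _ => ⟨_, _, _, _, h3 0 5, h3 0 3, hi _ _ E2⟩⟩

theorem core_pin (X Y Z U V : List ℕ) (a b : ℕ) (ha : 3 ≤ a) (hb : 3 ≤ b)
    (h1 : Y ++ X ++ Z = [1, 0, 2]) (h2 : U ++ (X ++ Y ++ Z) ++ V = [a, 0, 1, 2, b]) :
    Z = [2] ∧ X ++ Y ++ Z = [0, 1, 2] := by
  have hp : (X ++ Y ++ Z).Perm [1, 0, 2] := h1 ▸ (List.perm_append_comm.append_right Z)
  have hs : (X ++ Y ++ Z).Sublist [a, 0, 1, 2, b] :=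
    h2 ▸ (List.sublist_append_right _ _).trans (List.sublist_append_left _ _)
  have hf := hs.filter (fun n => decide (n < 3))
  rw [List.filter_eq_self.2 (by
    intro n hn
    have := hp.subset hn
    simp only [List.mem_cons, List.not_mem_nil, or_false] at this
    simp; omega)] at hf
  have e : X ++ Y ++ Z = [0, 1, 2] := by
    apply List.Sublist.eq_of_length _ (by simpa using hp.length_eq)
    simpa [List.filter_cons, Nat.not_lt.2 ha, Nat.not_lt.2 hb] using hf
  refine ⟨?_, e⟩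
  have hl := congrArg List.length e
  clear hf hs hp h2
  rcases X with _ | ⟨x1, _ | ⟨x2, X⟩⟩ <;> rcases Y with _ | ⟨y1, _ | ⟨y2, Y⟩⟩ <;>
    first
    | (simp only [List.length_append, List.length_cons, List.length_nil] at hl; omega)
    | simp_all

section Pairs

variable [DecidableEq A]

/-- Letters of `Z` can be paired with equal letters of `Z` or `L`. -/
theorem pair_up (d : A) (s : ℕ) (n : ℕ) : ∀ L Z : List A, L.length + Z.length ≤ n →
    (∀ a, Even (Z.count a) ∨ a ∈ L) → ∃ (P R : List ℕ) (ρ : ℕ → A) (N : ℕ), s ≤ N ∧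
      (∀ u ∈ P ++ R, s ≤ u ∧ u < N) ∧ P.map ρ = L ∧ R.map ρ = Z ∧
      (∀ u, (P ++ R).count u ≤ 2) ∧ ∀ u ∈ R, 2 ≤ (P ++ R).count u := by
  have upd : ∀ (l : List ℕ) (ρ : ℕ → A) (N : ℕ) (a : A), (∀ u ∈ l, u < N) →
      l.map (Function.update ρ N a) = l.map ρ := fun l ρ N a h =>
    List.map_congr_left (fun u hu => Function.update_of_ne (Nat.ne_of_lt (h u hu)) _ _)
  induction n with
  | zero =>
    intro L Z h _
    rw [List.eq_nil_of_length_eq_zero (l := L) (by omega),
      List.eq_nil_of_length_eq_zero (l := Z) (by omega)]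
    exact ⟨[], [], fun _ => d, s, le_rfl, by simp, rfl, rfl, by simp, by simp⟩
  | succ n ih =>
    intro L Z hl hp
    rcases Z with _ | ⟨a, Z⟩
    · rcases L with _ | ⟨a, L⟩
      · exact ⟨[], [], fun _ => d, s, le_rfl, by simp, rfl, rfl, by simp, by simp⟩
      · obtain ⟨P, R, ρ, N, h0, h1, h2, h3, h4, h5⟩ := ih L [] (by simp at hl ⊢; omega) (by simp)
        have hR : R = [] := List.map_eq_nil_iff.1 h3
        subst hR
        rw [List.append_nil] at h1 h4
        have hN : P.count N = 0 := List.count_eq_zero.2 (fun h => lt_irrefl _ (h1 N h).2)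
        refine ⟨N :: P, [], Function.update ρ N a, N + 1, by omega, ?_, ?_, rfl, ?_, by simp⟩
        · intro u hu
          simp only [List.append_nil, List.mem_cons] at hu
          rcases hu with rfl | hu
          · omega
          · have := h1 u hu; omega
        · rw [List.map_cons, upd P ρ N a (fun u hu => (h1 u hu).2), h2, Function.update_self]
        · intro u
          have := h4 u
          rw [List.append_nil, List.count_cons]
          split_ifs with h
          · rw [← beq_iff_eq.1 h, hN]; omega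
          · omega
    · by_cases ha : a ∈ Z
      · obtain ⟨Z1, Z2, rfl⟩ := List.append_of_mem ha
        obtain ⟨P, R, ρ, N, h0, h1, h2, h3, h4, h5⟩ := ih L (Z1 ++ Z2) (by simp at hl ⊢; omega) (by
          intro b
          refine (hp b).imp_left (fun h => ?_)
          simp only [List.count_cons, List.count_append, Nat.even_iff] at h ⊢
          split_ifs at h <;> omega)
        obtain ⟨R1, R2, rfl, e1, e2⟩ := List.map_eq_append_iff.1 h3
        have hN : (P ++ (R1 ++ R2)).count N = 0 :=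
          List.count_eq_zero.2 (fun h => lt_irrefl _ (h1 N h).2)
        have hc : ∀ u, (P ++ N :: (R1 ++ N :: R2)).count u =
            (P ++ (R1 ++ R2)).count u + if N = u then 2 else 0 := by
          intro u
          simp only [List.count_cons, List.count_append, beq_iff_eq]
          split_ifs <;> omega
        refine ⟨P, N :: (R1 ++ N :: R2), Function.update ρ N a, N + 1, by omega, ?_, ?_, ?_, ?_, ?_⟩
        · intro u hu
          have := h1 u
          simp only [List.mem_append, List.mem_cons] at hu this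
          rcases hu with hu | rfl | hu | rfl | hu <;> first | omega | (have := this (by tauto); omega)
        · rw [upd P ρ N a (fun u hu => (h1 u (by simp [hu])).2), h2]
        · rw [List.map_cons, List.map_append, List.map_cons, Function.update_self,
            upd R1 ρ N a (fun u hu => (h1 u (by simp [hu])).2),
            upd R2 ρ N a (fun u hu => (h1 u (by simp [hu])).2), e1, e2]
        · intro u
          have := h4 u
          rw [hc]
          split_ifs with h
          · rw [← h, hN]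
          · omega
        · intro u hu
          rw [hc]
          split_ifs with h
          · omega
          · have := h5 u (by
              simp only [List.mem_append, List.mem_cons] at hu ⊢
              rcases hu with rfl | hu | rfl | hu <;> tauto)
            omega
      · have haL : a ∈ L := (hp a).resolve_left (by
          rw [List.count_cons_self, List.count_eq_zero.2 ha]; decide)
        obtain ⟨L1, L2, rfl⟩ := List.append_of_mem haL
        obtain ⟨P, R, ρ, N, h0, h1, h2, h3, h4, h5⟩ := ih (L1 ++ L2) Z (by simp at hl ⊢; omega) (by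
          intro b
          by_cases hb : a = b
          · left; rw [← hb, List.count_eq_zero.2 ha]; decide
          · rcases hp b with h | h
            · left; rwa [List.count_cons_of_ne hb] at h
            · right
              simp only [List.mem_append, List.mem_cons] at h ⊢
              rcases h with h | h | h
              · exact Or.inl h
              · exact absurd h.symm hb
              · exact Or.inr h)
        obtain ⟨P1, P2, rfl, e1, e2⟩ := List.map_eq_append_iff.1 h2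
        have hN : (P1 ++ P2 ++ R).count N = 0 :=
          List.count_eq_zero.2 (fun h => lt_irrefl _ (h1 N h).2)
        have hc : ∀ u, (P1 ++ N :: P2 ++ N :: R).count u =
            (P1 ++ P2 ++ R).count u + if N = u then 2 else 0 := by
          intro u
          simp only [List.count_cons, List.count_append, beq_iff_eq]
          split_ifs <;> omega
        refine ⟨P1 ++ N :: P2, N :: R, Function.update ρ N a, N + 1, by omega, ?_, ?_, ?_, ?_, ?_⟩
        · intro u hu
          have := h1 u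
          simp only [List.mem_append, List.mem_cons] at hu this
          rcases hu with (hu | rfl | hu) | rfl | hu <;>
            first | omega | (have := this (by tauto); omega)
        · rw [List.map_append, List.map_cons, Function.update_self,
            upd P1 ρ N a (fun u hu => (h1 u (by simp [hu])).2),
            upd P2 ρ N a (fun u hu => (h1 u (by simp [hu])).2), e1, e2]
        · rw [List.map_cons, Function.update_self,
            upd R ρ N a (fun u hu => (h1 u (by simp [hu])).2), h3]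
        · intro u
          have := h4 u
          rw [hc]
          split_ifs with h
          · rw [← h, hN]
          · omega
        · intro u hu
          rw [hc]
          split_ifs with h
          · omega
          · have := h5 u ((List.mem_cons.1 hu).resolve_left (fun e => h e.symm))
            omega

theorem cover (d : A) (T : List (List A × List A × List A))
    (hT : ∀ t ∈ T, ∀ a, Even (t.2.2.count a) ∨ a ∈ t.1 ++ t.2.1) :
    ∃ (P1 P2 P3 : List ℕ) (N : ℕ), (∀ u ∈ P1 ++ P2 ++ P3, u < N) ∧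
      (∀ u, (P1 ++ P2 ++ P3).count u ≤ 2) ∧ (∀ u ∈ P3, 2 ≤ (P1 ++ P2 ++ P3).count u) ∧
      ∀ t ∈ T, ∃ τ : ℕ → List A, P1.flatMap τ = t.1 ∧ P2.flatMap τ = t.2.1 ∧
        P3.flatMap τ = t.2.2 := by
  induction T with
  | nil => exact ⟨[], [], [], 0, by simp, by simp, by simp, by simp⟩
  | cons t T ih =>
    obtain ⟨P1, P2, P3, N, h1, h2, h3, h4⟩ := ih (fun t ht => hT t (List.mem_cons_of_mem _ ht))
    obtain ⟨P, R3, ρ, N', g0, g1, g2, g3, g4, g5⟩ :=
      pair_up d N _ (t.1 ++ t.2.1) t.2.2 le_rfl (hT t List.mem_cons_self)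
    obtain ⟨R1, R2, rfl, e1, e2⟩ := List.map_eq_append_iff.1 g2
    have hc : ∀ u, (P1 ++ R1 ++ (P2 ++ R2) ++ (P3 ++ R3)).count u =
        (P1 ++ P2 ++ P3).count u + (R1 ++ R2 ++ R3).count u := by
      intro u; simp only [List.count_append]; omega
    have key : ∀ (P R : List ℕ) (f g : ℕ → List A), (∀ u ∈ P, u < N) → (∀ u ∈ R, N ≤ u) →
        (P ++ R).flatMap (fun u => if u < N then f u else g u) = P.flatMap f ++ R.flatMap g := by
      intro P R f g hP hR
      rw [List.flatMap_append]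
      congr 1
      · exact List.flatMap_congr (fun u hu => if_pos (hP u hu))
      · exact List.flatMap_congr (fun u hu => if_neg (Nat.not_lt.2 (hR u hu)))
    have k1 := fun f g => key P1 R1 f g (fun u hu => h1 u (by simp [hu]))
      (fun u hu => (g1 u (by simp [hu])).1)
    have k2 := fun f g => key P2 R2 f g (fun u hu => h1 u (by simp [hu]))
      (fun u hu => (g1 u (by simp [hu])).1)
    have k3 := fun f g => key P3 R3 f g (fun u hu => h1 u (by simp [hu]))
      (fun u hu => (g1 u (by simp [hu])).1)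
    refine ⟨P1 ++ R1, P2 ++ R2, P3 ++ R3, N', ?_, ?_, ?_, ?_⟩
    · intro u hu
      have a1 := h1 u
      have a2 := g1 u
      simp only [List.mem_append] at hu a1 a2
      rcases hu with ((hu | hu) | hu | hu) | hu | hu <;>
        first | (have := a1 (by tauto); omega) | (have := a2 (by tauto); omega)
    · intro u
      rw [hc]
      by_cases hu : u < N
      · rw [List.count_eq_zero.2 (fun h => Nat.not_lt.2 (g1 u h).1 hu)]; exact h2 u
      · rw [List.count_eq_zero.2 (fun h => hu (h1 u h)), Nat.zero_add]; exact g4 u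
    · intro u hu
      rw [hc]
      rcases List.mem_append.1 hu with h | h
      · have := h3 u h; omega
      · have := g5 u h; omega
    · intro t' ht'
      rcases List.mem_cons.1 ht' with rfl | ht'
      · refine ⟨fun u => if u < N then [] else [ρ u], ?_⟩
        rw [k1, k2, k3, ← e1, ← e2, ← g3]
        simp [List.map_eq_flatMap]
      · obtain ⟨τ, a1, a2, a3⟩ := h4 t' ht'
        refine ⟨fun u => if u < N then τ u else [], ?_⟩
        rw [k1, k2, k3, a1, a2, a3]
        simp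

end Pairs

/-- Names of the context variables (odd numbers, at least `3`). -/
def nm0 (i j : ℕ) : ℕ := 2 * Nat.pair i j + 3

/-- Names of the core variables. -/
def cv (u : ℕ) : ℕ := 2 * u

theorem nm0_inj (i j i' j' : ℕ) : nm0 i j = nm0 i' j' ↔ i = i' ∧ j = j' := by
  rw [← Nat.pair_eq_pair]; unfold nm0; omega

/-- The pattern with cores `Q`, `Q'`. -/
def ctx (t : A) (ps : List (A × A)) (Q Q' : List ℕ) : List (ℕ ⊕ A) :=
  [nm0 0 0].map Sum.inl ++ Sum.inr t ::
    blk Sum.inr (Q.map Sum.inl) (Q'.map Sum.inl) ps (fun i j => [nm0 i j].map Sum.inl)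

theorem sub_ctx (t : A) (ps : List (A × A)) (Q Q' : List ℕ) (σ : ℕ → List A) :
    sub σ (ctx t ps Q Q') = σ (nm0 0 0) ++ t ::
      blk id (Q.flatMap σ) (Q'.flatMap σ) ps (fun i j => σ (nm0 i j)) := by
  unfold sub ctx
  rw [List.flatMap_append, List.flatMap_cons, blk_map Sum.inr id _ (fun _ => rfl)]
  simp [List.flatMap_map]

theorem hat_ctx (t : A) (ps : List (A × A)) (Q Q' : List ℕ) (θ : ℕ → List ℕ) :
    (ctx t ps Q Q').flatMap (hat θ) = (θ (nm0 0 0)).map Sum.inl ++ Sum.inr t ::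
      blk Sum.inr ((Q.flatMap θ).map Sum.inl) ((Q'.flatMap θ).map Sum.inl) ps
        (fun i j => (θ (nm0 i j)).map Sum.inl) := by
  unfold ctx
  rw [List.flatMap_append, List.flatMap_cons, blk_map Sum.inr Sum.inr _ (fun _ => rfl)]
  simp [List.flatMap_map, hat, List.map_flatMap]

theorem mem_blk (q q' : List ℕ) (a : A) (ps : List (A × A)) : ∀ κ : ℕ → ℕ → List ℕ,
    Sum.inr a ∈ blk Sum.inr (q.map Sum.inl) (q'.map Sum.inl) ps
      (fun i j => (κ i j).map Sum.inl) → ∃ c ∈ ps, a = c.1 ∨ a = c.2 := by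
  induction ps with
  | nil => intro κ h; simp [blk] at h
  | cons c ps ih =>
    intro κ h
    simp only [blk, List.mem_append, List.mem_cons, List.mem_map, reduceCtorEq, and_false,
      exists_false, false_or, Sum.inr.injEq] at h
    rcases h with h | h | h | h | h | h
    · exact ⟨c, List.mem_cons_self, Or.inl h⟩
    · exact ⟨c, List.mem_cons_self, Or.inr h⟩
    · exact ⟨c, List.mem_cons_self, Or.inr h⟩
    · exact ⟨c, List.mem_cons_self, Or.inr h⟩
    · exact ⟨c, List.mem_cons_self, Or.inr h⟩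
    · obtain ⟨c', h1, h2⟩ := ih (fun i => κ (i + 1)) h
      exact ⟨c', List.mem_cons_of_mem _ h1, h2⟩

theorem vr_blk (q q' : List ℕ) (c : A × A) (ps : List (A × A)) (nm : ℕ → ℕ → ℕ) (v : ℕ) :
    (vr (blk Sum.inr (q.map Sum.inl) (q'.map Sum.inl) (c :: ps)
      (fun i j => [nm i j].map (Sum.inl : ℕ → ℕ ⊕ A)))).count v =
    2 * q.count v + ([1, 2, 3, 4, 5, 3, 6, 0, 7, 2, 8, 9, 7, 4, 10].map (nm 0)).count v +
      [nm 1 0].count v + (vr (blk Sum.inr (q.map Sum.inl) (q'.map Sum.inl) ps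
        (fun i j => [nm (i + 1) j].map (Sum.inl : ℕ → ℕ ⊕ A)))).count v := by
  simp only [blk, vr, List.filterMap_append, List.filterMap_cons, List.filterMap_map,
    Function.comp_def, Sum.getLeft?_inl, Sum.getLeft?_inr, List.filterMap_some, List.count_append,
    List.map_cons, List.map_nil, List.count_cons, List.count_nil, List.filterMap_nil]
  omega

theorem count_blk (q q' : List ℕ) (v : ℕ) (ps : List (A × A)) : ∀ nm : ℕ → ℕ → ℕ,
    (∀ i j i' j', nm i j = nm i' j' ↔ i = i' ∧ j = j') → ∃ r,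
    (vr (blk Sum.inr (q.map Sum.inl) (q'.map Sum.inl) ps
      (fun i j => [nm i j].map (Sum.inl : ℕ → ℕ ⊕ A)))).count v =
      2 * ps.length * q.count v + q'.count v + r ∧ r ≤ 2 ∧ (v = nm 0 0 → r ≤ 1) ∧
        ((∀ i j, v ≠ nm i j) → r = 0) := by
  induction ps with
  | nil =>
    intro nm hn
    refine ⟨[nm 0 1, nm 0 0].count v, ?_, List.count_le_length, ?_, ?_⟩
    · simp only [blk, vr, List.filterMap_append, List.filterMap_cons, List.filterMap_map,
        Function.comp_def, Sum.getLeft?_inl, List.filterMap_some, List.count_append,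
        List.map_cons, List.map_nil, List.count_cons, List.count_nil, List.filterMap_nil,
        List.length_nil]
      omega
    · rintro rfl; simp [hn]
    · intro h; simp [(h _ _).symm]
  | cons c ps ih =>
    intro nm hn
    obtain ⟨r, h1, h2, h3, h4⟩ := ih (fun i => nm (i + 1)) (by simp [hn])
    refine ⟨([1, 2, 3, 4, 5, 3, 6, 0, 7, 2, 8, 9, 7, 4, 10].map (nm 0)).count v +
      [nm 1 0].count v + r, by rw [vr_blk, h1, List.length_cons]; ring, ?_⟩
    by_cases a1 : ∃ j, v = nm 0 j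
    · obtain ⟨j, rfl⟩ := a1
      have e1 : ([1, 2, 3, 4, 5, 3, 6, 0, 7, 2, 8, 9, 7, 4, 10].map (nm 0)).count (nm 0 j) =
          [1, 2, 3, 4, 5, 3, 6, 0, 7, 2, 8, 9, 7, 4, 10].count j :=
        List.count_map_of_injective _ _ (fun a b h => ((hn _ _ _ _).1 h).2) j
      have e2 : [nm 1 0].count (nm 0 j) = 0 := by simp [hn]
      have e3 : [1, 2, 3, 4, 5, 3, 6, 0, 7, 2, 8, 9, 7, 4, 10].count j ≤ 2 := by
        by_cases hj : j ≤ 10
        · interval_cases j <;> decide
        · rw [List.count_eq_zero.2 (by simp; omega)]; omega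
      rw [e1, e2, h4 (by simp [hn])]
      refine ⟨e3, fun h => ?_, fun h => absurd rfl (h 0 j)⟩
      rw [((hn _ _ _ _).1 h).2]; decide
    · push Not at a1
      have a0 : ([1, 2, 3, 4, 5, 3, 6, 0, 7, 2, 8, 9, 7, 4, 10].map (nm 0)).count v = 0 :=
        List.count_eq_zero.2 (by
          intro h; obtain ⟨j, _, e⟩ := List.mem_map.1 h; exact a1 j e.symm)
      rw [a0]
      by_cases a2 : v = nm 1 0
      · have := h3 a2
        refine ⟨by rw [← a2]; simp; omega, fun h => absurd h (a1 0), fun h => absurd a2 (h 1 0)⟩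
      · rw [List.count_cons_of_ne (fun e => a2 e.symm)]
        exact ⟨by simpa using h2, fun h => absurd h (a1 0),
          fun h => by simpa using h4 (fun i j => h (i + 1) j)⟩

theorem count_ctx (t : A) (ps : List (A × A)) (Q Q' : List ℕ) (hQ : Q'.Perm Q)
    (h2 : ∀ u, Q.count u ≤ 2) (hev : ∀ i j, nm0 i j ∉ Q) (v : ℕ) :
    (vr (ctx t ps Q Q')).count v ≤ 4 * ps.length + 2 := by
  obtain ⟨r, h1, g2, g3, g4⟩ := count_blk Q Q' v ps nm0 nm0_inj
  have e : (vr (ctx t ps Q Q')).count v = [nm0 0 0].count v +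
      (2 * ps.length * Q.count v + Q'.count v + r) := by
    rw [← h1]; simp [ctx, vr, List.count_cons, Nat.add_comm]
  rw [e, hQ.count_eq]
  by_cases hv : v ∈ Q
  · have hne : ∀ i j, v ≠ nm0 i j := fun i j e => hev i j (e ▸ hv)
    have := Nat.mul_le_mul_left (2 * ps.length) (h2 v)
    have := h2 v
    rw [g4 hne, List.count_cons_of_ne (hne 0 0).symm]
    simp only [List.count_nil]; omega
  · rw [List.count_eq_zero.2 hv]
    by_cases h0 : v = nm0 0 0
    · have := g3 h0
      rw [← h0]; simp; omega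
    · rw [List.count_cons_of_ne (fun e => h0 e.symm)]; simp; omega

theorem tm_hat (θ : ℕ → List ℕ) (α : List (ℕ ⊕ A)) : tm (α.flatMap (hat θ)) = tm α := by
  rw [← sub_nil, sub_hat, ← sub_nil]
  congr 1
  funext v
  simp

theorem mem_ctx (t : A) (ps : List (A × A)) (Q Q' : List ℕ) (τ : ℕ → List A)
    (κ : ℕ → ℕ → List A) : κ 0 0 ++ t :: blk id (Q.flatMap τ) (Q'.flatMap τ) ps κ ∈
      lang (ctx t ps (Q.map cv) (Q'.map cv)) := by
  let σ : ℕ → List A := fun n => if n % 2 = 0 then τ (n / 2) else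
    κ (Nat.unpair ((n - 3) / 2)).1 (Nat.unpair ((n - 3) / 2)).2
  have h1 : ∀ i j, σ (nm0 i j) = κ i j := by
    intro i j
    have a1 : nm0 i j % 2 ≠ 0 := by unfold nm0; omega
    have a2 : (nm0 i j - 3) / 2 = Nat.pair i j := by unfold nm0; omega
    simp [σ, a1, a2]
  have h2 : ∀ u, σ (cv u) = τ u := by intro u; simp [σ, cv]
  refine (mem_lang _ _).2 ⟨σ, ?_⟩
  rw [sub_ctx]
  simp [h1, h2, List.flatMap_map]

variable [DecidableEq A]

theorem reparse (t c d : A) (ps : List (A × A))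
    (hall : ∀ a, a = c ∨ a = d ∨ ∃ p ∈ ps, a = p.1 ∨ a = p.2) (w : List A)
    (hw : w ∈ lang (ctx t ps [0, 1, 2] [1, 0, 2])) :
    ∃ (r : List A × List A × List A) (κ : ℕ → ℕ → List A),
      (∀ a, Even (r.2.2.count a) ∨ a ∈ r.1 ++ r.2.1) ∧
      w = κ 0 0 ++ t :: blk id (r.1 ++ r.2.1 ++ r.2.2) (r.2.1 ++ r.1 ++ r.2.2) ps κ := by
  obtain ⟨σ, rfl⟩ := (mem_lang _ _).1 hw
  rw [sub_ctx]
  simp only [List.flatMap_cons, List.flatMap_nil, List.append_nil, ← List.append_assoc]
  by_cases h1 : ∃ a ∈ σ 0 ++ σ 1 ++ σ 2, ∃ p ∈ ps, a = p.1 ∨ a = p.2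
  · obtain ⟨a, ha, hp⟩ := h1
    obtain ⟨κ, h0, h⟩ := blk_hit _ (σ 1 ++ σ 0 ++ σ 2) a ha ps (fun i j => σ (nm0 i j)) hp
    exact ⟨([], [], []), κ, by simp, by rw [h, h0]; rfl⟩
  · by_cases h2 : ∀ a, Even ((σ 2).count a) ∨ a ∈ σ 0 ++ σ 1
    · exact ⟨(σ 0, σ 1, σ 2), fun i j => σ (nm0 i j), h2, rfl⟩
    · push Not at h2
      obtain ⟨a, ha1, ha2⟩ := h2
      have haZ : a ∈ σ 2 := by
        by_contra h
        exact ha1 (by rw [List.count_eq_zero.2 h]; decide)
      have hb : ∀ b ∈ σ 0 ++ σ 1 ++ σ 2, b = c ∨ b = d := by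
        intro b hb
        rcases hall b with h | h | h
        · exact Or.inl h
        · exact Or.inr h
        · exact absurd ⟨b, hb, h⟩ h1
      have hu : ∃ b, ∀ x ∈ σ 0 ++ σ 1, x = b := by
        rcases hb a (List.mem_append_right _ haZ) with h | h
        · exact ⟨d, fun x hx => (hb x (List.mem_append_left _ hx)).resolve_left
            (fun e => ha2 (by rw [h, ← e]; exact hx))⟩
        · exact ⟨c, fun x hx => (hb x (List.mem_append_left _ hx)).resolve_right
            (fun e => ha2 (by rw [h, ← e]; exact hx))⟩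
      obtain ⟨b, hu⟩ := hu
      have e0 : σ 1 ++ σ 0 = σ 0 ++ σ 1 := by
        rw [List.eq_replicate_iff.2 ⟨rfl, hu⟩, List.eq_replicate_iff]
        refine ⟨by simp [Nat.add_comm], fun x hx => hu x ?_⟩
        rw [List.mem_append] at hx ⊢
        exact hx.symm
      exact ⟨([], σ 0 ++ σ 1 ++ σ 2, []), fun i j => σ (nm0 i j), by simp, by simp [e0]⟩

theorem no_tell (t c d : A) (ps : List (A × A)) (hps : ps ≠ []) (hcd : c ≠ d) (htc : c ≠ t)
    (htd : d ≠ t) (hp : ∀ p ∈ ps, (c ≠ p.1 ∧ c ≠ p.2) ∧ d ≠ p.1 ∧ d ≠ p.2)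
    (hall : ∀ a, a = c ∨ a = d ∨ ∃ p ∈ ps, a = p.1 ∨ a = p.2) (C : List (ℕ ⊕ A) → Prop)
    (hC : ∀ β : List (ℕ ⊕ A), β ≠ [] → Sum.inr c ∉ β → Sum.inr d ∉ β →
      (∀ v, (vr β).count v ≤ 4 * ps.length + 2) → C β) :
    C (ctx t ps [0, 1, 2] [1, 0, 2]) ∧ ∀ T : List (List A),
      (∀ w ∈ T, w ∈ lang (ctx t ps [0, 1, 2] [1, 0, 2])) → ∃ β, C β ∧ (∀ w ∈ T, w ∈ lang β) ∧
        lang β ⊆ lang (ctx t ps [0, 1, 2] [1, 0, 2]) ∧
        lang β ≠ lang (ctx t ps [0, 1, 2] [1, 0, 2]) := by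
  have hmiss : ∀ (a : A) (Q Q' : List ℕ), a ≠ t → (∀ p ∈ ps, a ≠ p.1 ∧ a ≠ p.2) →
      Sum.inr a ∉ ctx t ps Q Q' := by
    intro a Q Q' h1 h2 h
    simp only [ctx, List.mem_append, List.mem_cons] at h
    rcases h with h | h | h
    · simp at h
    · exact h1 (Sum.inr_injective h)
    · obtain ⟨p, g1, g2⟩ := mem_blk Q Q' a ps (fun i j => [nm0 i j]) h
      have := h2 p g1
      tauto
  have hC' : ∀ Q Q' : List ℕ, Q'.Perm Q → (∀ u, Q.count u ≤ 2) → (∀ i j, nm0 i j ∉ Q) →
      C (ctx t ps Q Q') := fun Q Q' h1 h2 h3 =>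
    hC _ (by simp [ctx]) (hmiss c Q Q' htc (fun p h => (hp p h).1))
      (hmiss d Q Q' htd (fun p h => (hp p h).2)) (count_ctx t ps Q Q' h1 h2 h3)
  refine ⟨hC' _ _ (by decide) (fun u => ?_) (by intro i j; simp [nm0]), fun T hT => ?_⟩
  · exact (List.nodup_iff_count_le_one.1 (by decide) u).trans (by omega)
  choose! r κ hr1 hr2 using reparse t c d ps hall
  obtain ⟨P1, P2, P3, N, -, h2, h3, h4⟩ := cover d (T.map r) (by
    intro x hx
    obtain ⟨w, hw, rfl⟩ := List.mem_map.1 hx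
    exact hr1 w (hT w hw))
  have hcv : Function.Injective cv := fun a b h => by unfold cv at h; omega
  let φ : ℕ → List ℕ := fun v =>
    if v = 0 then P1.map cv else if v = 1 then P2.map cv else if v = 2 then P3.map cv else [v]
  have hφ : (ctx t ps [0, 1, 2] [1, 0, 2]).flatMap (hat φ) =
      ctx t ps ((P1 ++ P2 ++ P3).map cv) ((P2 ++ P1 ++ P3).map cv) := by
    have : ∀ i j, φ (nm0 i j) = [nm0 i j] := by intro i j; simp [φ, nm0]
    rw [hat_ctx]
    simp [ctx, this, φ]
  refine ⟨ctx t ps ((P1 ++ P2 ++ P3).map cv) ((P2 ++ P1 ++ P3).map cv),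
    hC' _ _ ((List.perm_append_comm.append_right P3).map cv) (fun u => ?_) (fun i j h => ?_),
    fun w hw => ?_, hφ ▸ lang_hat φ _, fun heq => ?_⟩
  · by_cases hu : u ∈ (P1 ++ P2 ++ P3).map cv
    · obtain ⟨x, _, rfl⟩ := List.mem_map.1 hu
      rw [List.count_map_of_injective _ _ hcv]; exact h2 x
    · rw [List.count_eq_zero.2 hu]; omega
  · obtain ⟨x, _, e⟩ := List.mem_map.1 h
    unfold cv nm0 at e; omega
  · obtain ⟨τ, a1, a2, a3⟩ := h4 (r w) (List.mem_map_of_mem hw)
    have := mem_ctx t ps (P1 ++ P2 ++ P3) (P2 ++ P1 ++ P3) τ (κ w)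
    simp only [List.flatMap_append, a1, a2, a3] at this
    rw [hr2 w (hT w hw)]
    exact this
  · obtain ⟨ψ, hψ⟩ := inc (ctx t ps [0, 1, 2] [1, 0, 2]) _ t (fun _ => d) (fun _ => c)
      (fun _ => hcd) (fun _ => htd) (fun _ => htc)
      (fun v => free_of_not_mem _ _ _ (hmiss d _ _ htd (fun p h => (hp p h).2)))
      (fun v => free_of_not_mem _ _ _ (hmiss c _ _ htc (fun p h => (hp p h).1)))
      (by rw [← hφ, tm_hat]) heq.symm.subset
    rw [hat_ctx, ctx] at hψ
    obtain ⟨e1, e2⟩ := cancel_sep Sum.isRight _ _ _ _ _ _ (by simp) (by simp) rfl rfl hψ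
    obtain ⟨g1, g2⟩ := blk_rigid _ _ ps (fun i j => ψ (nm0 i j)) nm0 nm0_inj
      (fun i j => by unfold nm0; omega) (List.map_injective_iff.2 Sum.inl_injective e1) e2
    obtain ⟨U, V, a, b, ha, hb, g3⟩ := g2 hps
    simp only [List.map_append, List.flatMap_append] at g1 g3
    obtain ⟨k1, k2⟩ := core_pin _ _ _ U V a b ha hb g1 g3
    have k3 : 2 ∈ (P3.map cv).flatMap ψ := by rw [k1]; simp
    rw [List.flatMap_map] at k3
    obtain ⟨u, hu, k4⟩ := List.mem_flatMap.1 k3
    have k5 := congrArg (List.count 2) k2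
    rw [← List.flatMap_append, ← List.flatMap_append, ← List.map_append, ← List.map_append,
      List.flatMap_map, List.count_flatMap] at k5
    have k6 := two_counts (List.count 2 ∘ fun a => ψ (cv a)) u (u + 1) (by omega) (P1 ++ P2 ++ P3)
    have k7 : 2 * 1 ≤ (P1 ++ P2 ++ P3).count u * (List.count 2 ∘ fun a => ψ (cv a)) u :=
      Nat.mul_le_mul (h3 u hu) (List.count_pos_iff.2 k4)
    have k8 : List.count 2 [0, 1, 2] = 1 := by decide
    omega

/-- No learner identifies the quasi-terminal-free patterns of frequency `4 ⌊(k-1)/2⌋ + 2`. -/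
theorem not_learn (k : ℕ) (hk : 3 ≤ k) (M : List (List (Fin k)) → List (ℕ ⊕ Fin k)) :
    ¬ (∀ α : List (ℕ ⊕ Fin k), α ≠ [] →
      (∃ a b : Fin k, a ≠ b ∧ Sum.inr a ∉ α ∧ Sum.inr b ∉ α) →
      (∀ v, (vr α).count v ≤ 4 * ((k - 1) / 2) + 2) →
      ∀ t : ℕ → List (Fin k), Set.range t = lang α →
        ∃ β : List (ℕ ⊕ Fin k), lang β = lang α ∧
          ∃ N : ℕ, ∀ n ≥ N, M ((List.range n).map t) = β) := by
  intro hM
  let f : ℕ → Fin k := fun n => ⟨min n (k - 1), by omega⟩
  let ps : List (Fin k × Fin k) :=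
    (List.range ((k - 1) / 2)).map (fun i => (f (2 * i + 2), f (2 * i + 3)))
  have hf : ∀ a b, f a = f b ↔ min a (k - 1) = min b (k - 1) := fun a b => Fin.ext_iff
  have hl : ps.length = (k - 1) / 2 := by simp [ps]
  obtain ⟨h1, h2⟩ := no_tell (f 2) (f 0) (f 1) ps
    (by rw [← List.length_pos_iff, hl]; omega) (by rw [Ne, hf]; omega) (by rw [Ne, hf]; omega)
    (by rw [Ne, hf]; omega) (by
      intro p hp
      obtain ⟨i, _, rfl⟩ := List.mem_map.1 hp
      simp only [Ne, hf]; omega) (by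
      intro a
      have ha : a = f a.1 := Fin.ext (by have := a.2; simp only [f]; omega)
      have := a.2
      rw [ha, hf, hf]
      by_cases h : a.1 < 2
      · have : min a.1 (k - 1) = min 0 (k - 1) ∨ min a.1 (k - 1) = min 1 (k - 1) := by omega
        tauto
      · refine Or.inr (Or.inr ⟨_, List.mem_map.2 ⟨(a.1 - 2) / 2,
          List.mem_range.2 (by omega), rfl⟩, ?_⟩)
        simp only [hf]; omega)
    (fun α => α ≠ [] ∧ (∃ a b : Fin k, a ≠ b ∧ Sum.inr a ∉ α ∧ Sum.inr b ∉ α) ∧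
      ∀ v, (vr α).count v ≤ 4 * ((k - 1) / 2) + 2)
    (fun β g1 g2 g3 g4 => ⟨g1, ⟨f 0, f 1, by rw [Ne, hf]; omega, g2, g3⟩, hl ▸ g4⟩)
  exact gold_no_telltale lang _ _ h1 ⟨_, fun _ => [], rfl⟩ h2 M
    (fun β hβ => hM β hβ.1 hβ.2.1 hβ.2.2)

end Pool.Agent.Lib.MP_d6d0a6_lc.Freq
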